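import Pool.Agent.Lib.Pa3f63f.Basic

open scoped BigOperators

namespace Pool.Agent.Lib.Pa3f63f

/-- the space `ℂ^{N+1}` -/
abbrev Y (N : ℕ) : Type := Fin (N + 1) → ℂ

/-- continuous linear endomorphisms of `ℂ^{N+1}` -/
abbrev End' (N : ℕ) : Type := Y N →L[ℂ] Y N

theorem exists_compR {N d : ℕ} (c : Coeffs N d) (h : End' N) :
    ∃ c' : Coeffs N d, ∀ x, evalAt c' x = evalAt c (h x) := by
  classical
  let g : Fin (N + 1) → MvPolynomial (Fin (N + 1)) ℂ := fun i =>
    ∑ k, MvPolynomial.C (h (Pi.single k 1) i) * MvPolynomial.X k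
  have hg : ∀ i, (g i).IsHomogeneous 1 := fun i =>
    MvPolynomial.IsHomogeneous.sum _ _ _ fun k _ => MvPolynomial.isHomogeneous_C_mul_X _ _
  have hgx : ∀ x i, MvPolynomial.eval x (g i) = h x i := by
    intro x i
    have hx : x = ∑ k, x k • (Pi.single k (1 : ℂ) : Y N) := by
      funext j
      simp [Finset.sum_apply, Pi.single_apply]
    conv_rhs => rw [hx]
    simp only [g, map_sum, map_mul, MvPolynomial.eval_C, MvPolynomial.eval_X, map_smul,
      Finset.sum_apply, Pi.smul_apply, smul_eq_mul]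
    exact Finset.sum_congr rfl fun k _ => mul_comm _ _
  have hhom : ∀ j, (MvPolynomial.aeval g (toPoly (c j))).IsHomogeneous d := by
    intro j
    have := (toPoly_isHomogeneous (c j)).aeval g hg
    simpa using this
  refine ⟨fun j α => MvPolynomial.coeff (toF α) (MvPolynomial.aeval g (toPoly (c j))), ?_⟩
  intro x
  funext j
  rw [evalAt_apply, toPoly_coeff (hhom j), evalAt_apply]
  have : MvPolynomial.eval x (MvPolynomial.aeval g (toPoly (c j))) =
      MvPolynomial.eval (fun i => MvPolynomial.eval x (g i)) (toPoly (c j)) := by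
    have h1 := MvPolynomial.comp_aeval_apply (φ := MvPolynomial.aeval (R := ℂ) x) (f := g)
      (toPoly (c j))
    simpa [MvPolynomial.aeval_eq_eval] using h1
  rw [this]
  have h2 : (fun i => MvPolynomial.eval x (g i)) = h x := funext (hgx x)
  rw [h2]

theorem exists_compL {N d : ℕ} (c : Coeffs N d) (g : End' N) :
    ∃ c' : Coeffs N d, ∀ x, evalAt c' x = g (evalAt c x) := by
  classical
  refine ⟨fun j α => g (fun k => c k α) j, ?_⟩
  intro x
  funext j
  have hx : evalAt c x = ∑ α : Mono N d, (∏ i, x i ^ (α.1 i)) • (fun k => c k α : Y N) := by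
    funext k
    simp only [evalAt, Finset.sum_apply, Pi.smul_apply, smul_eq_mul]
    exact Finset.sum_congr rfl fun _ _ => mul_comm _ _
  rw [hx]
  simp only [map_sum, map_smul, Finset.sum_apply, Pi.smul_apply, smul_eq_mul, evalAt]
  exact Finset.sum_congr rfl fun _ _ => mul_comm _ _

/-- number of interpolation points -/
noncomputable def iM (N d : ℕ) : ℕ := (exists_interp N d).choose
/-- interpolation points -/
noncomputable def iX (N d : ℕ) : Fin (iM N d) → Y N := (exists_interp N d).choose_spec.choose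
/-- interpolation map -/
noncomputable def iL (N d : ℕ) : (Fin (iM N d) → Y N) →ₗ[ℂ] Coeffs N d :=
  (exists_interp N d).choose_spec.choose_spec.choose

theorem iL_spec {N d : ℕ} (c : Coeffs N d) : iL N d (fun i => evalAt c (iX N d i)) = c :=
  (exists_interp N d).choose_spec.choose_spec.choose_spec c

/-- `s • g ∘ c ∘ h` -/
noncomputable def act {N d : ℕ} (s : ℂ) (g h : End' N) (c : Coeffs N d) : Coeffs N d :=
  iL N d (fun i => s • g (evalAt c (h (iX N d i))))

theorem evalAt_act {N d : ℕ} (s : ℂ) (g h : End' N) (c : Coeffs N d) (x : Y N) :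
    evalAt (act s g h c) x = s • g (evalAt c (h x)) := by
  obtain ⟨c1, h1⟩ := exists_compR c h
  obtain ⟨c2, h2⟩ := exists_compL c1 g
  have h3 : ∀ x, evalAt (s • c2) x = s • g (evalAt c (h x)) := by
    intro x
    rw [evalAt_smul, h2, h1]
  have : act s g h c = s • c2 := by
    rw [← iL_spec (s • c2)]
    unfold act
    congr 1
    funext i
    rw [h3]
  rw [this, h3]

theorem contDiff_evalAt {N d : ℕ} :
    ContDiff ℂ ⊤ fun q : Coeffs N d × Y N => evalAt q.1 q.2 := by
  unfold evalAt
  rw [contDiff_pi]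
  intro j
  apply ContDiff.sum
  intro α _
  apply ContDiff.mul
  · fun_prop
  · apply contDiff_prod
    intro i _
    fun_prop

theorem contDiff_act {N d : ℕ} :
    ContDiff ℂ ⊤ fun q : ℂ × End' N × End' N × Coeffs N d => act q.1 q.2.1 q.2.2.1 q.2.2.2 := by
  unfold act
  apply ((iL N d).toContinuousLinearMap).contDiff.comp
  rw [contDiff_pi]
  intro i
  have h1 : ContDiff ℂ ⊤ fun q : ℂ × End' N × End' N × Coeffs N d => q.1 := by fun_prop
  have h2 : ContDiff ℂ ⊤ fun q : ℂ × End' N × End' N × Coeffs N d =>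
      evalAt q.2.2.2 (q.2.2.1 (iX N d i)) :=
    contDiff_evalAt.comp (f := fun q : ℂ × End' N × End' N × Coeffs N d =>
      (q.2.2.2, q.2.2.1 (iX N d i))) (by fun_prop)
  have h3 : ContDiff ℂ ⊤ fun q : ℂ × End' N × End' N × Coeffs N d => q.2.1 := by fun_prop
  exact h1.smul (h3.clm_apply h2)

theorem continuous_act {N d : ℕ} :
    Continuous fun q : ℂ × End' N × End' N × Coeffs N d => act q.1 q.2.1 q.2.2.1 q.2.2.2 :=
  contDiff_act.continuous

theorem act_add {N d : ℕ} (s : ℂ) (g h : End' N) (c c' : Coeffs N d) :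
    act s g h (c + c') = act s g h c + act s g h c' := by
  apply ext_evalAt
  intro x
  simp [evalAt_act, evalAt_add]

theorem act_smul {N d : ℕ} (s : ℂ) (g h : End' N) (t : ℂ) (c : Coeffs N d) :
    act s g h (t • c) = t • act s g h c := by
  apply ext_evalAt
  intro x
  simp [evalAt_act, evalAt_smul, smul_comm s t]

theorem act_one {N d : ℕ} (c : Coeffs N d) : act 1 1 1 c = c := by
  apply ext_evalAt
  intro x
  simp [evalAt_act]

theorem act_act {N d : ℕ} (s s' : ℂ) (g g' h h' : End' N) (c : Coeffs N d) :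
    act s g h (act s' g' h' c) = act (s * s') (g * g') (h' * h) c := by
  apply ext_evalAt
  intro x
  simp [evalAt_act, smul_smul]

end Pool.Agent.Lib.Pa3f63f
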