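import Pool.Agent.Lib.Pa3f63f.Defs

open scoped BigOperators

namespace Pool.Agent.Lib.Pa3f63f

/-- The exponent vector as a finitely supported function. -/
noncomputable def toF {N e : ℕ} (α : Mono N e) : Fin (N + 1) →₀ ℕ :=
  Finsupp.equivFunOnFinite.symm α.1

@[simp] theorem toF_apply {N e : ℕ} (α : Mono N e) (i : Fin (N + 1)) : toF α i = α.1 i := rfl

theorem toF_injective {N e : ℕ} : Function.Injective (toF : Mono N e → _) := by
  intro a b h
  apply Subtype.ext
  exact Finsupp.equivFunOnFinite.symm.injective h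

theorem sum_mono {N e : ℕ} (α : Mono N e) : ∑ i, α.1 i = e := by
  have := α.2
  rw [Finset.mem_piAntidiag] at this
  exact this.1

theorem degree_toF {N e : ℕ} (α : Mono N e) : (toF α).degree = e := by
  rw [Finsupp.degree_eq_sum]
  exact sum_mono α

/-- build a `Mono` from a finitely supported function -/
noncomputable def ofF {N e : ℕ} (a : Fin (N + 1) →₀ ℕ) (h : a.degree = e) : Mono N e :=
  ⟨a, by
    rw [Finset.mem_piAntidiag]
    refine ⟨?_, fun i _ => Finset.mem_univ i⟩
    rw [Finsupp.degree_eq_sum] at h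
    exact h⟩

@[simp] theorem toF_ofF {N e : ℕ} (a : Fin (N + 1) →₀ ℕ) (h : a.degree = e) :
    toF (ofF a h) = a := by
  ext i; rfl

/-- polynomial with given coefficients -/
noncomputable def toPoly {N d : ℕ} (c : Mono N d → ℂ) : MvPolynomial (Fin (N + 1)) ℂ :=
  ∑ α : Mono N d, MvPolynomial.monomial (toF α) (c α)

theorem eval_toPoly {N d : ℕ} (c : Mono N d → ℂ) (x : Fin (N + 1) → ℂ) :
    MvPolynomial.eval x (toPoly c) = ∑ α : Mono N d, c α * ∏ i, x i ^ (α.1 i) := by
  simp only [toPoly, map_sum, MvPolynomial.eval_monomial]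
  refine Finset.sum_congr rfl fun α _ => ?_
  congr 1
  rw [Finsupp.prod_fintype _ _ (fun i => pow_zero _)]
  rfl

theorem toPoly_isHomogeneous {N d : ℕ} (c : Mono N d → ℂ) : (toPoly c).IsHomogeneous d := by
  apply MvPolynomial.IsHomogeneous.sum
  intro α _
  exact MvPolynomial.isHomogeneous_monomial _ (degree_toF α)

theorem coeff_toPoly {N d : ℕ} (c : Mono N d → ℂ) (α : Mono N d) :
    MvPolynomial.coeff (toF α) (toPoly c) = c α := by
  classical
  simp only [toPoly, MvPolynomial.coeff_sum, MvPolynomial.coeff_monomial]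
  rw [Finset.sum_eq_single α]
  · simp
  · intro β _ hβ
    rw [if_neg]
    intro h
    exact hβ (toF_injective h)
  · simp

theorem toPoly_coeff {N d : ℕ} {p : MvPolynomial (Fin (N + 1)) ℂ} (hp : p.IsHomogeneous d) :
    toPoly (fun α : Mono N d => MvPolynomial.coeff (toF α) p) = p := by
  ext a
  by_cases ha : a.degree = d
  · have := coeff_toPoly (fun α : Mono N d => MvPolynomial.coeff (toF α) p) (ofF a ha)
    simpa using this
  · rw [(toPoly_isHomogeneous _).coeff_eq_zero ha, hp.coeff_eq_zero ha]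

theorem eval_homogeneous {N e : ℕ} {p : MvPolynomial (Fin (N + 1)) ℂ} (hp : p.IsHomogeneous e)
    (x : Fin (N + 1) → ℂ) : MvPolynomial.eval x p =
      ∑ β : Mono N e, MvPolynomial.coeff (toF β) p * ∏ i, x i ^ (β.1 i) := by
  conv_lhs => rw [← toPoly_coeff hp]
  rw [eval_toPoly]

theorem evalAt_apply {N d : ℕ} (c : Coeffs N d) (x : Fin (N + 1) → ℂ) (j : Fin (N + 1)) :
    evalAt c x j = MvPolynomial.eval x (toPoly (c j)) := by
  rw [eval_toPoly]; rfl

theorem evalAt_add {N d : ℕ} (c c' : Coeffs N d) (x : Fin (N + 1) → ℂ) :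
    evalAt (c + c') x = evalAt c x + evalAt c' x := by
  funext j
  simp [evalAt, add_mul, Finset.sum_add_distrib]

theorem evalAt_smul {N d : ℕ} (t : ℂ) (c : Coeffs N d) (x : Fin (N + 1) → ℂ) :
    evalAt (t • c) x = t • evalAt c x := by
  funext j
  simp [evalAt, mul_assoc, Finset.mul_sum]

/-- evaluation at `x` as a linear map -/
def evL {N d : ℕ} (x : Fin (N + 1) → ℂ) : Coeffs N d →ₗ[ℂ] (Fin (N + 1) → ℂ) where
  toFun c := evalAt c x
  map_add' c c' := evalAt_add c c' x
  map_smul' t c := evalAt_smul t c x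

@[simp] theorem evL_apply {N d : ℕ} (x : Fin (N + 1) → ℂ) (c : Coeffs N d) :
    evL x c = evalAt c x := rfl

theorem evalAt_zero {N d : ℕ} (x : Fin (N + 1) → ℂ) : evalAt (0 : Coeffs N d) x = 0 :=
  (evL x).map_zero

theorem evalAt_sub {N d : ℕ} (c c' : Coeffs N d) (x : Fin (N + 1) → ℂ) :
    evalAt (c - c') x = evalAt c x - evalAt c' x := (evL x).map_sub c c'

theorem evalAt_smul_arg {N d : ℕ} (c : Coeffs N d) (t : ℂ) (x : Fin (N + 1) → ℂ) :
    evalAt c (t • x) = t ^ d • evalAt c x := by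
  funext j
  simp only [evalAt, Pi.smul_apply, smul_eq_mul, mul_pow, Finset.prod_mul_distrib,
    Finset.mul_sum]
  refine Finset.sum_congr rfl fun α _ => ?_
  rw [Finset.prod_pow_eq_pow_sum, sum_mono]
  ring

theorem ext_evalAt {N d : ℕ} {c c' : Coeffs N d} (h : ∀ x, evalAt c x = evalAt c' x) :
    c = c' := by
  funext j α
  have h1 : toPoly (c j) = toPoly (c' j) := by
    apply MvPolynomial.funext
    intro x
    rw [← evalAt_apply, ← evalAt_apply, h x]
  rw [← coeff_toPoly (c j) α, h1, coeff_toPoly]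

theorem continuous_evalAt {N d : ℕ} :
    Continuous fun q : Coeffs N d × (Fin (N + 1) → ℂ) => evalAt q.1 q.2 := by
  unfold evalAt
  fun_prop

/-- There are finitely many points whose evaluations determine the coefficients linearly. -/
theorem exists_interp (N d : ℕ) : ∃ (m : ℕ) (x : Fin m → (Fin (N + 1) → ℂ))
    (L : (Fin m → (Fin (N + 1) → ℂ)) →ₗ[ℂ] Coeffs N d),
    ∀ c : Coeffs N d, L (fun i => evalAt c (x i)) = c := by
  classical
  -- a finite set of points with minimal common kernel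
  let K : Finset (Fin (N + 1) → ℂ) → Submodule ℂ (Coeffs N d) := fun s =>
    ⨅ x ∈ s, LinearMap.ker (evL x : Coeffs N d →ₗ[ℂ] _)
  obtain ⟨M', ⟨s, rfl⟩, hmin⟩ := IsArtinian.set_has_minimal (Set.range K) ⟨K ∅, ∅, rfl⟩
  have hK : K s = ⊥ := by
    rw [eq_bot_iff]
    intro c hc
    rw [Submodule.mem_bot]
    apply ext_evalAt
    intro x
    rw [evalAt_zero]
    have h1 : K (insert x s) ≤ K s := by
      simp only [K, Finset.iInf_insert]
      exact inf_le_right
    have h2 : K (insert x s) = K s := by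
      rcases lt_or_eq_of_le h1 with h | h
      · exact absurd h (hmin _ ⟨insert x s, rfl⟩)
      · exact h
    rw [← h2] at hc
    simp only [K, Finset.iInf_insert, Submodule.mem_inf, LinearMap.mem_ker, evL_apply] at hc
    exact hc.1
  let e := s.equivFin
  let T : Coeffs N d →ₗ[ℂ] (Fin s.card → (Fin (N + 1) → ℂ)) :=
    LinearMap.pi fun i => evL ((e.symm i : s) : Fin (N + 1) → ℂ)
  have hT : LinearMap.ker T = ⊥ := by
    rw [eq_bot_iff, ← hK]
    intro c hc
    simp only [K, Submodule.mem_iInf, LinearMap.mem_ker, evL_apply]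
    intro x hx
    have := congrFun (LinearMap.mem_ker.mp hc) (e ⟨x, hx⟩)
    simpa [T] using this
  obtain ⟨L, hL⟩ := LinearMap.exists_leftInverse_of_injective T hT
  exact ⟨s.card, fun i => ((e.symm i : s) : Fin (N + 1) → ℂ), L, fun c => LinearMap.congr_fun hL c⟩

end Pool.Agent.Lib.Pa3f63f
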