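import Pool.Agent.Lib.Pa3f63f.Action

open scoped BigOperators Topology

namespace Pool.Agent.Lib.Pa3f63f

theorem norm_evalAt_le {N d : ℕ} (c : Coeffs N d) (x : Y N) :
    ‖evalAt c x‖ ≤ (Fintype.card (Mono N d)) * ‖c‖ * ‖x‖ ^ d := by
  rw [pi_norm_le_iff_of_nonneg (by positivity)]
  intro j
  unfold evalAt
  refine (norm_sum_le _ _).trans ?_
  have : ∀ α ∈ (Finset.univ : Finset (Mono N d)), ‖c j α * ∏ i, x i ^ (α.1 i)‖ ≤ ‖c‖ * ‖x‖ ^ d := by
    intro α _
    rw [norm_mul]
    apply mul_le_mul _ _ (norm_nonneg _) (norm_nonneg _)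
    · exact (norm_le_pi_norm (c j) α).trans (norm_le_pi_norm c j)
    · rw [norm_prod]
      calc ∏ i, ‖x i ^ (α.1 i)‖ ≤ ∏ i, ‖x‖ ^ (α.1 i) := by
            apply Finset.prod_le_prod (fun _ _ => norm_nonneg _)
            intro i _
            rw [norm_pow]
            exact pow_le_pow_left₀ (norm_nonneg _) (norm_le_pi_norm x i) _
        _ = ‖x‖ ^ d := by rw [Finset.prod_pow_eq_pow_sum, sum_mono]
  refine (Finset.sum_le_sum this).trans ?_
  rw [Finset.sum_const, nsmul_eq_mul, Finset.card_univ, mul_assoc]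

theorem mem_cone_iff_sphere {N d : ℕ} (c : Coeffs N d) :
    c ∈ EndCone N d ↔ ∀ x ∈ Metric.sphere (0 : Y N) 1, evalAt c x ≠ 0 := by
  constructor
  · intro h x hx
    apply h
    rintro rfl
    simp at hx
  · intro h x hx h0
    have hn : ‖x‖ ≠ 0 := norm_ne_zero_iff.mpr hx
    apply h (((‖x‖⁻¹ : ℝ) : ℂ) • x)
    · simp [norm_smul, hn]
    · rw [evalAt_smul_arg, h0, smul_zero]

/-- locally uniform lower bound -/
theorem exists_lower {N d : ℕ} {c : Coeffs N d} (hc : c ∈ EndCone N d) :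
    ∃ m : ℝ, 0 < m ∧ ∀ᶠ c' in 𝓝 c, ∀ x : Y N, m * ‖x‖ ^ d ≤ ‖evalAt c' x‖ := by
  rw [mem_cone_iff_sphere] at hc
  have hS : IsCompact (Metric.sphere (0 : Y N) 1) := isCompact_sphere _ _
  have hne : (Metric.sphere (0 : Y N) 1).Nonempty := by
    refine ⟨fun _ => 1, ?_⟩
    simp [pi_norm_const]
  obtain ⟨x₀, hx₀, hmin⟩ := hS.exists_isMinOn hne
    (f := fun x => ‖evalAt c x‖) (by
      apply Continuous.continuousOn
      exact (continuous_evalAt.comp (by fun_prop : Continuous fun x : Y N => (c, x))).norm)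
  set m : ℝ := ‖evalAt c x₀‖ / 2 with hm
  have hpos : 0 < ‖evalAt c x₀‖ := norm_pos_iff.mpr (hc x₀ hx₀)
  refine ⟨m, by positivity, ?_⟩
  have h1 : ∀ᶠ c' in 𝓝 c, ∀ x ∈ Metric.sphere (0 : Y N) 1, m < ‖evalAt c' x‖ := by
    apply hS.eventually_forall_of_forall_eventually
    intro x hx
    have hcont : ContinuousAt (fun q : Coeffs N d × Y N => ‖evalAt q.1 q.2‖) (c, x) :=
      continuous_evalAt.norm.continuousAt
    have hlt : m < ‖evalAt c x‖ := by
      have := hmin hx
      simp only at this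
      have h2 : ‖evalAt c x₀‖ ≤ ‖evalAt c x‖ := this
      linarith
    exact hcont.eventually (lt_mem_nhds hlt)
  filter_upwards [h1] with c' hc' x
  by_cases hx : x = 0
  · subst hx
    rcases Nat.eq_zero_or_pos d with hd | hd
    · subst hd
      have h3 := hc' x₀ hx₀
      have h4 : evalAt c' (0 : Y N) = evalAt c' x₀ := by
        have := evalAt_smul_arg c' 0 x₀
        simpa using this
      rw [h4]
      simpa using h3.le
    · simp only [norm_zero]
      rw [zero_pow hd.ne', mul_zero]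
      exact norm_nonneg _
  · have hn : ‖x‖ ≠ 0 := norm_ne_zero_iff.mpr hx
    have h2 := hc' (((‖x‖⁻¹ : ℝ) : ℂ) • x) (by simp [norm_smul, hn])
    rw [evalAt_smul_arg, norm_smul, norm_pow, Complex.norm_real, norm_inv, norm_norm] at h2
    have h3 : 0 < ‖x‖ ^ d := by positivity
    rw [inv_pow, ← div_eq_inv_mul, lt_div_iff₀ h3] at h2
    exact h2.le

theorem isOpen_cone (N d : ℕ) : IsOpen (EndCone N d) := by
  rw [isOpen_iff_mem_nhds]
  intro c hc
  obtain ⟨m, hm, h⟩ := exists_lower hc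
  filter_upwards [h] with c' hc' x hx h0
  have h1 := hc' x
  rw [h0, norm_zero] at h1
  have : 0 < ‖x‖ ^ d := by
    have := norm_pos_iff.mpr hx
    positivity
  nlinarith

theorem act_mem_cone {N d : ℕ} {s : ℂ} {g h g' h' : End' N} (hs : s ≠ 0) (hg : g' * g = 1)
    (hh : h' * h = 1) {c : Coeffs N d} (hc : c ∈ EndCone N d) : act s g h c ∈ EndCone N d := by
  intro x hx h0
  rw [evalAt_act] at h0
  have h1 : h x ≠ 0 := by
    intro h2
    apply hx
    have : (h' * h) x = 0 := by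
      change h' (h x) = 0
      rw [h2, map_zero]
    rwa [hh] at this
  have h2 := hc (h x) h1
  apply h2
  have h3 : g (evalAt c (h x)) = 0 := by
    rcases smul_eq_zero.mp h0 with h | h
    · exact absurd h hs
    · exact h
  have : (g' * g) (evalAt c (h x)) = 0 := by
    change g' (g _) = 0
    rw [h3, map_zero]
  rwa [hg] at this

theorem smul_mem_cone {N d : ℕ} {s : ℂ} (hs : s ≠ 0) {c : Coeffs N d} (hc : c ∈ EndCone N d) :
    s • c ∈ EndCone N d := by
  intro x hx h0
  rw [evalAt_smul] at h0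
  rcases smul_eq_zero.mp h0 with h | h
  · exact hs h
  · exact hc x hx h

/-- Conjugacy up to scalars, in terms of continuous linear maps. -/
def Rel {N d : ℕ} (c c' : Coeffs N d) : Prop :=
  ∃ (s : ℂ) (g h : End' N), s ≠ 0 ∧ g * h = 1 ∧ h * g = 1 ∧ act s g h c = c'

theorem rel_iff_conjRel {N d : ℕ} (c c' : Coeffs N d) : ConjRel c c' ↔ Rel c c' := by
  constructor
  · rintro ⟨g, s, h⟩
    have hmul : ∀ A B : Matrix (Fin (N + 1)) (Fin (N + 1)) ℂ,
        (LinearMap.toContinuousLinearMap (Matrix.toLin' A) : End' N) *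
        (LinearMap.toContinuousLinearMap (Matrix.toLin' B) : End' N) =
        LinearMap.toContinuousLinearMap (Matrix.toLin' (A * B)) := by
      intro A B
      ext x
      simp [Matrix.toLin'_mul]
    refine ⟨s, LinearMap.toContinuousLinearMap (Matrix.toLin' g.1),
      LinearMap.toContinuousLinearMap (Matrix.toLin' (g⁻¹ : GL (Fin (N + 1)) ℂ).1), s.ne_zero,
      ?_, ?_, ?_⟩
    · rw [hmul, ← Matrix.GeneralLinearGroup.coe_mul, mul_inv_cancel]
      ext x
      simp
    · rw [hmul, ← Matrix.GeneralLinearGroup.coe_mul, inv_mul_cancel]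
      ext x
      simp
    · apply ext_evalAt
      intro x
      rw [evalAt_act]
      have h1 := h ((g⁻¹ : GL (Fin (N + 1)) ℂ).1.mulVec x)
      rw [Matrix.mulVec_mulVec, ← Matrix.GeneralLinearGroup.coe_mul, mul_inv_cancel] at h1
      simp only [Matrix.GeneralLinearGroup.coe_one, Matrix.one_mulVec] at h1
      rw [h1]
      rfl
  · rintro ⟨s, g, h, hs, hgh, hhg, rfl⟩
    let G : Matrix (Fin (N + 1)) (Fin (N + 1)) ℂ := LinearMap.toMatrix' (g : Y N →ₗ[ℂ] Y N)
    let H : Matrix (Fin (N + 1)) (Fin (N + 1)) ℂ := LinearMap.toMatrix' (h : Y N →ₗ[ℂ] Y N)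
    have hGH : G * H = 1 := by
      rw [← LinearMap.toMatrix'_mul]
      have : (g : Y N →ₗ[ℂ] Y N) * (h : Y N →ₗ[ℂ] Y N) = 1 := by
        apply LinearMap.ext
        intro x
        exact congrArg (fun f : End' N => f x) hgh
      rw [this, LinearMap.toMatrix'_one]
    have hHG : H * G = 1 := by
      rw [← LinearMap.toMatrix'_mul]
      have : (h : Y N →ₗ[ℂ] Y N) * (g : Y N →ₗ[ℂ] Y N) = 1 := by
        apply LinearMap.ext
        intro x
        exact congrArg (fun f : End' N => f x) hhg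
      rw [this, LinearMap.toMatrix'_one]
    refine ⟨⟨G, H, hGH, hHG⟩, Units.mk0 s hs, ?_⟩
    intro x
    have hGx : ∀ x, G.mulVec x = g x := by
      intro x
      have := Matrix.toLin'_toMatrix' (g : Y N →ₗ[ℂ] Y N)
      rw [← Matrix.toLin'_apply, this]
      rfl
    change evalAt _ (G.mulVec x) = s • G.mulVec (evalAt c x)
    rw [hGx, hGx, evalAt_act]
    have : h (g x) = x := congrArg (fun f : End' N => f x) hhg
    rw [this]

theorem Rel.refl {N d : ℕ} (c : Coeffs N d) : Rel c c :=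
  ⟨1, 1, 1, one_ne_zero, mul_one _, mul_one _, act_one c⟩

theorem Rel.symm {N d : ℕ} {c c' : Coeffs N d} (h : Rel c c') : Rel c' c := by
  obtain ⟨s, g, h, hs, hgh, hhg, rfl⟩ := h
  refine ⟨s⁻¹, h, g, inv_ne_zero hs, hhg, hgh, ?_⟩
  rw [act_act, hhg, inv_mul_cancel₀ hs, act_one]

theorem Rel.trans {N d : ℕ} {c c' c'' : Coeffs N d} (h : Rel c c') (h' : Rel c' c'') :
    Rel c c'' := by
  obtain ⟨s, g, h, hs, hgh, hhg, rfl⟩ := h
  obtain ⟨s', g', h', hs', hgh', hhg', rfl⟩ := h'
  refine ⟨s' * s, g' * g, h * h', mul_ne_zero hs' hs, ?_, ?_, ?_⟩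
  · calc g' * g * (h * h') = g' * (g * h) * h' := by noncomm_ring
      _ = 1 := by rw [hgh, mul_one, hgh']
  · calc h * h' * (g' * g) = h * (h' * g') * g := by noncomm_ring
      _ = 1 := by rw [hhg', mul_one, hhg]
  · rw [act_act]

theorem continuous_proj {N d : ℕ} : Continuous (proj : EndCone N d → Moduli N d) :=
  continuous_quotient_mk'

theorem proj_surjective {N d : ℕ} : Function.Surjective (proj : EndCone N d → Moduli N d) :=
  Quotient.mk_surjective

theorem proj_eq_iff {N d : ℕ} (c c' : EndCone N d) :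
    proj c = proj c' ↔ Rel (c : Coeffs N d) (c' : Coeffs N d) := by
  exact (Quotient.eq (r := conjSetoid N d)).trans (rel_iff_conjRel _ _)

theorem isQuotientMap_proj {N d : ℕ} :
    Topology.IsQuotientMap (proj : EndCone N d → Moduli N d) :=
  isQuotientMap_quotient_mk' (s := conjSetoid N d)

/-- the homeomorphism-like map given by the action -/
noncomputable def actE {N d : ℕ} (s : ℂ) (g h : End' N) (hs : s ≠ 0) (hgh : g * h = 1)
    (hhg : h * g = 1) (c : EndCone N d) : EndCone N d :=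
  ⟨act s g h c, act_mem_cone hs hhg hgh c.2⟩

theorem coe_actE {N d : ℕ} (s : ℂ) (g h : End' N) (hs : s ≠ 0) (hgh : g * h = 1)
    (hhg : h * g = 1) (c : EndCone N d) :
    (actE s g h hs hgh hhg c : Coeffs N d) = act s g h (c : Coeffs N d) := rfl

theorem continuous_actE {N d : ℕ} (s : ℂ) (g h : End' N) (hs : s ≠ 0) (hgh : g * h = 1)
    (hhg : h * g = 1) : Continuous (actE (N := N) (d := d) s g h hs hgh hhg) := by
  apply Continuous.subtype_mk
  exact continuous_act.comp (by fun_prop : Continuous fun x : EndCone N d =>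
    (s, g, h, (x : Coeffs N d)))

theorem proj_actE {N d : ℕ} (s : ℂ) (g h : End' N) (hs : s ≠ 0) (hgh : g * h = 1)
    (hhg : h * g = 1) (c : EndCone N d) : proj (actE s g h hs hgh hhg c) = proj c := by
  symm
  rw [proj_eq_iff]
  exact ⟨s, g, h, hs, hgh, hhg, rfl⟩

theorem isOpenMap_proj {N d : ℕ} : IsOpenMap (proj : EndCone N d → Moduli N d) := by
  intro U hU
  rw [← isQuotientMap_proj.isOpen_preimage, isOpen_iff_mem_nhds]
  rintro c ⟨c', hc', hcc'⟩
  rw [proj_eq_iff] at hcc'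
  obtain ⟨s, g, h, hs, hgh, hhg, hact⟩ := hcc'
  have hφ := continuous_actE (N := N) (d := d) s⁻¹ h g (inv_ne_zero hs) hhg hgh
  have hφc : actE s⁻¹ h g (inv_ne_zero hs) hhg hgh c = c' := by
    apply Subtype.ext
    rw [coe_actE, ← hact, act_act, hhg, inv_mul_cancel₀ hs, act_one]
  have h0 : U ∈ 𝓝 (actE s⁻¹ h g (inv_ne_zero hs) hhg hgh c) := by
    rw [hφc]; exact hU.mem_nhds hc'
  have h1 := (hφ.continuousAt (x := c)).preimage_mem_nhds h0
  filter_upwards [h1] with x hx
  exact ⟨_, hx, proj_actE _ _ _ _ _ _ x⟩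

end Pool.Agent.Lib.Pa3f63f
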