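import Pool.Agent.Lib.Pa3f63f.Proper

open scoped BigOperators Topology

namespace Pool.Agent.Lib.Pa3f63f

/-- conjugation by an invertible linear map -/
noncomputable def cj {N d : ℕ} (g : (End' N)ˣ) (c : Coeffs N d) : Coeffs N d :=
  act 1 (g : End' N) ((g⁻¹ : (End' N)ˣ) : End' N) c

theorem evalAt_cj {N d : ℕ} (g : (End' N)ˣ) (c : Coeffs N d) (x : Y N) :
    evalAt (cj g c) x = (g : End' N) (evalAt c (((g⁻¹ : (End' N)ˣ) : End' N) x)) := by
  unfold cj
  rw [evalAt_act, one_smul]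

theorem cj_one {N d : ℕ} (c : Coeffs N d) : cj 1 c = c := by
  unfold cj
  rw [inv_one, Units.val_one, act_one]

theorem cj_mul {N d : ℕ} (g h : (End' N)ˣ) (c : Coeffs N d) : cj (g * h) c = cj g (cj h c) := by
  unfold cj
  rw [act_act, mul_one, mul_inv_rev, Units.val_mul, Units.val_mul]

theorem cj_inv_cj {N d : ℕ} (g : (End' N)ˣ) (c : Coeffs N d) : cj g⁻¹ (cj g c) = c := by
  rw [← cj_mul, inv_mul_cancel, cj_one]

theorem cj_cj_inv {N d : ℕ} (g : (End' N)ˣ) (c : Coeffs N d) : cj g (cj g⁻¹ c) = c := by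
  rw [← cj_mul, mul_inv_cancel, cj_one]

theorem cj_add {N d : ℕ} (g : (End' N)ˣ) (c c' : Coeffs N d) :
    cj g (c + c') = cj g c + cj g c' := act_add _ _ _ _ _

theorem cj_smul {N d : ℕ} (g : (End' N)ˣ) (t : ℂ) (c : Coeffs N d) :
    cj g (t • c) = t • cj g c := act_smul _ _ _ _ _

/-- conjugation as a linear map -/
noncomputable def cjL {N d : ℕ} (g : (End' N)ˣ) : Coeffs N d →ₗ[ℂ] Coeffs N d where
  toFun := cj g
  map_add' := cj_add g
  map_smul' := cj_smul g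

@[simp] theorem cjL_apply {N d : ℕ} (g : (End' N)ˣ) (c : Coeffs N d) : cjL g c = cj g c := rfl

theorem continuous_cj {N d : ℕ} :
    Continuous fun q : (End' N)ˣ × Coeffs N d => cj q.1 q.2 := by
  unfold cj
  have h1 : Continuous fun q : (End' N)ˣ × Coeffs N d => (q.1 : End' N) :=
    Units.continuous_val.comp continuous_fst
  have h2 : Continuous fun q : (End' N)ˣ × Coeffs N d => ((q.1⁻¹ : (End' N)ˣ) : End' N) :=
    Units.continuous_val.comp continuous_fst.inv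
  exact continuous_act.comp (continuous_const.prodMk (h1.prodMk (h2.prodMk continuous_snd)))

theorem cj_mem_cone {N d : ℕ} (g : (End' N)ˣ) {c : Coeffs N d} (hc : c ∈ EndCone N d) :
    cj g c ∈ EndCone N d :=
  act_mem_cone one_ne_zero (by simp : ((g⁻¹ : (End' N)ˣ) : End' N) * (g : End' N) = 1)
    (by simp : (g : End' N) * ((g⁻¹ : (End' N)ˣ) : End' N) = 1) hc

theorem rel_iff_cj {N d : ℕ} (hd : 2 ≤ d) (c c' : Coeffs N d) :
    Rel c c' ↔ ∃ g : (End' N)ˣ, cj g c = c' := by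
  constructor
  · rintro ⟨s, g, h, hs, hgh, hhg, rfl⟩
    obtain ⟨μ, hμ⟩ := IsAlgClosed.exists_pow_nat_eq s⁻¹ (n := d - 1) (by omega)
    have hμ0 : μ ≠ 0 := by
      rintro rfl
      rw [zero_pow (by omega)] at hμ
      exact inv_ne_zero hs hμ.symm
    refine ⟨⟨μ • g, μ⁻¹ • h, scale_mul hμ0 hgh, scale_mul' hμ0 hhg⟩, ?_⟩
    have h1 := act_scale hd s g h hμ0 c
    rw [hμ, mul_inv_cancel₀ hs] at h1
    exact h1
  · rintro ⟨g, rfl⟩
    exact ⟨1, g, _, one_ne_zero, by simp, by simp, rfl⟩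

/-- the basic bound for conjugating maps -/
theorem cj_bound {N d : ℕ} (hd : 2 ≤ d) {c c' : Coeffs N d} {m M : ℝ} (hm : 0 < m)
    (hM : 0 < M) (h2 : ∀ x, ‖evalAt c x‖ ≤ M * ‖x‖ ^ d)
    (h1' : ∀ x, m * ‖x‖ ^ d ≤ ‖evalAt c' x‖)
    {g : (End' N)ˣ} (hact : cj g c = c') : ‖(g : End' N)‖ ≤ max 1 (M / m) := by
  have hd0 : d ≠ 0 := by omega
  have key : ∀ x, evalAt c' ((g : End' N) x) = (g : End' N) (evalAt c x) := by
    intro x
    rw [← hact, evalAt_cj]
    congr 2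
    exact congrArg (fun f : End' N => f x) (Units.inv_mul g)
  have a1 : ‖(g : End' N)‖ ^ d ≤ ‖(g : End' N)‖ * M / m := by
    apply opNorm_le_of_pow _ d hd0 _ (by positivity)
    intro x
    have e1 := h1' ((g : End' N) x)
    rw [key] at e1
    have e2 := (g : End' N).le_opNorm (evalAt c x)
    have e3 := mul_le_mul_of_nonneg_left (h2 x) (norm_nonneg (g : End' N))
    rw [div_mul_eq_mul_div, le_div_iff₀ hm]
    calc ‖(g : End' N) x‖ ^ d * m = m * ‖(g : End' N) x‖ ^ d := mul_comm _ _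
      _ ≤ ‖(g : End' N)‖ * (M * ‖x‖ ^ d) := e1.trans (e2.trans e3)
      _ = ‖(g : End' N)‖ * M * ‖x‖ ^ d := by ring
  by_contra hcon
  push Not at hcon
  have h1 : 1 < ‖(g : End' N)‖ := lt_of_le_of_lt (le_max_left _ _) hcon
  have h3 : M / m < ‖(g : End' N)‖ := lt_of_le_of_lt (le_max_right _ _) hcon
  have hpos : 0 < ‖(g : End' N)‖ := by linarith
  have e1 : ‖(g : End' N)‖ ^ d = ‖(g : End' N)‖ ^ (d - 1) * ‖(g : End' N)‖ := by
    rw [← pow_succ]; congr 1; omega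
  have a2 : ‖(g : End' N)‖ ^ (d - 1) ≤ M / m := by
    rw [e1] at a1
    have : ‖(g : End' N)‖ ^ (d - 1) * ‖(g : End' N)‖ ≤ M / m * ‖(g : End' N)‖ := by
      calc _ ≤ _ := a1
        _ = M / m * ‖(g : End' N)‖ := by ring
    exact le_of_mul_le_mul_right this hpos
  have a3 : ‖(g : End' N)‖ ≤ ‖(g : End' N)‖ ^ (d - 1) := by
    calc ‖(g : End' N)‖ = ‖(g : End' N)‖ ^ 1 := (pow_one _).symm
      _ ≤ ‖(g : End' N)‖ ^ (d - 1) := pow_le_pow_right₀ h1.le (by omega)
  linarith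

/-- bounded sets of units with bounded inverses are compact -/
theorem isCompact_units {N : ℕ} (C : ℝ) :
    IsCompact {g : (End' N)ˣ | ‖(g : End' N)‖ ≤ C ∧ ‖((g⁻¹ : (End' N)ˣ) : End' N)‖ ≤ C} := by
  have hprop : ProperSpace (End' N) := FiniteDimensional.proper ℂ (End' N)
  have h1 : IsCompact (Metric.closedBall (0 : End' N) C ×ˢ
      (MulOpposite.unop ⁻¹' Metric.closedBall (0 : End' N) C) : Set (End' N × (End' N)ᵐᵒᵖ)) := by
    apply (isCompact_closedBall _ _).prod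
    have := (MulOpposite.opHomeomorph (M := End' N)).symm.isCompact_preimage
      (s := Metric.closedBall (0 : End' N) C)
    exact this.mpr (isCompact_closedBall _ _)
  have h2 := (Units.isClosedEmbedding_embedProduct (α := End' N)).isCompact_preimage h1
  convert h2 using 1
  ext g
  simp

theorem cj_proper {N d : ℕ} (hd : 2 ≤ d) {c c' : Coeffs N d} (hc : c ∈ EndCone N d)
    (hc' : c' ∈ EndCone N d) {u u' : ℕ → Coeffs N d}
    (hu : Filter.Tendsto u Filter.atTop (𝓝 c)) (hu' : Filter.Tendsto u' Filter.atTop (𝓝 c'))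
    (g : ℕ → (End' N)ˣ) (hact : ∀ k, cj (g k) (u k) = u' k) :
    ∃ (g₀ : (End' N)ˣ) (φ : ℕ → ℕ), StrictMono φ ∧
      Filter.Tendsto (fun k => g (φ k)) Filter.atTop (𝓝 g₀) ∧ cj g₀ c = c' := by
  obtain ⟨m, M, hm, hM, hb, hb'⟩ := exists_bounds hc hc'
  have ev : ∀ᶠ k in Filter.atTop, g k ∈ {g : (End' N)ˣ | ‖(g : End' N)‖ ≤ max 1 (M / m) ∧
      ‖((g⁻¹ : (End' N)ˣ) : End' N)‖ ≤ max 1 (M / m)} := by
    filter_upwards [hu.eventually hb, hu'.eventually hb'] with k hk hk'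
    have e1 := cj_bound hd hm hM (fun x => (hk x).2) (fun x => (hk' x).1) (hact k)
    have e2 : cj (g k)⁻¹ (u' k) = u k := by rw [← hact k, cj_inv_cj]
    have e3 := cj_bound hd hm hM (fun x => (hk' x).2) (fun x => (hk x).1) e2
    exact ⟨e1, e3⟩
  have hfc : FirstCountableTopology (End' N)ˣ :=
    (Units.isOpenEmbedding_val (R := End' N)).isInducing.firstCountableTopology
  obtain ⟨g₀, -, φ, hφ, hlim⟩ := (isCompact_units (N := N) (max 1 (M / m))).tendsto_subseq'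
    ev.frequently
  have hlim' : Filter.Tendsto (fun k => g (φ k)) Filter.atTop (𝓝 g₀) := hlim
  refine ⟨g₀, φ, hφ, hlim', ?_⟩
  have hu2 : Filter.Tendsto (fun k => u (φ k)) Filter.atTop (𝓝 c) := hu.comp hφ.tendsto_atTop
  have hu2' : Filter.Tendsto (fun k => u' (φ k)) Filter.atTop (𝓝 c') :=
    hu'.comp hφ.tendsto_atTop
  have h0 : Filter.Tendsto (fun k => (g (φ k), u (φ k))) Filter.atTop (𝓝 (g₀, c)) :=
    hlim'.prodMk_nhds hu2
  have h1 := (continuous_cj.tendsto (g₀, c)).comp h0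
  have h2 : ((fun q : (End' N)ˣ × Coeffs N d => cj q.1 q.2) ∘ fun k => (g (φ k), u (φ k))) =
      fun k => u' (φ k) := by
    funext k
    exact hact _
  rw [h2] at h1
  exact tendsto_nhds_unique h1 hu2'

end Pool.Agent.Lib.Pa3f63f
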