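import Pool.Agent.Lib.Pa3f63f.Slice

open scoped BigOperators Topology unitInterval

namespace Pool.Agent.Lib.Pa3f63f

attribute [local irreducible] act Th cj

/-- Every point of the moduli space has a neighbourhood, the image of an open set upstairs, which
contracts in the moduli space to the point. -/
theorem exists_contraction {N d : ℕ} (hd : 2 ≤ d) (c : EndCone N d) :
    ∃ S : Set (EndCone N d), IsOpen S ∧ c ∈ S ∧
      ∃ H : (proj '' S : Set (Moduli N d)) × I → Moduli N d, Continuous H ∧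
        (∀ u, H (u, 0) = u) ∧ ∀ u, H (u, 1) = proj c := by
  obtain ⟨W, hW, hinv⟩ := exists_inv_compl hd c.2
  obtain ⟨ε, hε, hslice⟩ := slice_property hd c.2 W hW hinv
  obtain ⟨Φ, hΦ0, hΦ⟩ := exists_chart hd c.2 W hW
  obtain ⟨ε₁, hε₁, hball⟩ := Metric.isOpen_iff.mp (isOpen_cone N d) c c.2
  have hcone : ∀ w : Coeffs N d, ‖w‖ < ε₁ → (c : Coeffs N d) + w ∈ EndCone N d := by
    intro w hw
    apply hball
    rw [Metric.mem_ball, dist_eq_norm, add_sub_cancel_left]
    exact hw
  let O : Set (End' N × W) := {q | IsUnit (1 + q.1) ∧ ‖(q.2 : Coeffs N d)‖ < min ε ε₁}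
  have hO : IsOpen O := by
    apply IsOpen.inter
    · exact Units.isOpen.preimage (continuous_const.add continuous_fst)
    · exact isOpen_lt (continuous_subtype_val.comp continuous_snd).norm continuous_const
  let B : Set (Coeffs N d) := Φ.target ∩ Φ.symm ⁻¹' O
  have hB : IsOpen B := Φ.isOpen_inter_preimage_symm hO
  have hΦc : Φ ((0 : End' N), (0 : W)) = (c : Coeffs N d) := by
    rw [hΦ]
    simp [Th_zero]
  have hsymm : Φ.symm (c : Coeffs N d) = ((0 : End' N), (0 : W)) := by
    rw [← hΦc]; exact Φ.left_inv hΦ0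
  let S : Set (EndCone N d) := {v | (v : Coeffs N d) ∈ B}
  have hS : IsOpen S := hB.preimage continuous_subtype_val
  have hcS : c ∈ S := by
    refine ⟨?_, ?_⟩
    · rw [← hΦc]; exact Φ.map_source hΦ0
    · rw [Set.mem_preimage, hsymm]
      refine ⟨by simp, ?_⟩
      simp [hε, hε₁]
  -- the slice coordinate
  let w : S → Coeffs N d := fun v => ((Φ.symm ((v : EndCone N d) : Coeffs N d)).2 : Coeffs N d)
  have hwW : ∀ v, w v ∈ W := fun v => (Φ.symm ((v : EndCone N d) : Coeffs N d)).2.2
  have hwε : ∀ v, ‖w v‖ < min ε ε₁ := fun v => v.2.2.2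
  have hwc : Continuous w := by
    have h1 : ContinuousOn Φ.symm B := Φ.continuousOn_symm.mono Set.inter_subset_left
    have h2 : Continuous fun v : S => Φ.symm ((v : EndCone N d) : Coeffs N d) :=
      h1.comp_continuous (continuous_subtype_val.comp continuous_subtype_val) (fun v => v.2)
    exact continuous_subtype_val.comp (continuous_snd.comp h2)
  have hwrep : ∀ v : S, ∃ k : (End' N)ˣ,
      ((v : EndCone N d) : Coeffs N d) = cj k ((c : Coeffs N d) + w v) := by
    intro v
    obtain ⟨k, hk⟩ := v.2.2.1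
    refine ⟨k, ?_⟩
    have h1 := Φ.right_inv v.2.1
    rw [hΦ] at h1
    have h2 : (Φ.symm ((v : EndCone N d) : Coeffs N d)).1 = (k : End' N) - 1 := by
      rw [hk]; simp
    rw [h2, Th_unit] at h1
    exact h1.symm
  have hmem : ∀ (v : S) (t : I), (c : Coeffs N d) + ((1 - (t : ℝ) : ℝ) : ℂ) • w v ∈
      EndCone N d := by
    intro v t
    apply hcone
    rw [norm_smul, Complex.norm_real]
    have h1 : ‖1 - (t : ℝ)‖ ≤ 1 := by
      rw [Real.norm_eq_abs, abs_le]
      constructor <;> linarith [t.2.1, t.2.2]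
    calc ‖1 - (t : ℝ)‖ * ‖w v‖ ≤ 1 * ‖w v‖ := mul_le_mul_of_nonneg_right h1 (norm_nonneg _)
      _ < ε₁ := by rw [one_mul]; exact lt_of_lt_of_le (hwε v) (min_le_right _ _)
  let h : S × I → Moduli N d := fun p =>
    proj ⟨(c : Coeffs N d) + ((1 - (p.2 : ℝ) : ℝ) : ℂ) • w p.1, hmem p.1 p.2⟩
  have hh : Continuous h := by
    apply continuous_proj.comp
    apply Continuous.subtype_mk
    apply continuous_const.add
    have e1 : Continuous fun x : S × I => ((1 - (x.2 : ℝ) : ℝ) : ℂ) :=
      Complex.continuous_ofReal.comp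
        (continuous_const.sub (continuous_subtype_val.comp continuous_snd))
    exact e1.smul (hwc.comp continuous_fst)
  let q : S → (proj '' S : Set (Moduli N d)) := fun v => ⟨proj v.1, ⟨v.1, v.2, rfl⟩⟩
  have hqc : Continuous q := (continuous_proj.comp continuous_subtype_val).subtype_mk _
  have hqo : IsOpenMap q :=
    (isOpenMap_proj.comp hS.isOpenMap_subtype_val).subtype_mk _
  have hqs : Function.Surjective q := by
    rintro ⟨_, v, hv, rfl⟩
    exact ⟨⟨v, hv⟩, rfl⟩
  have hQ : Topology.IsQuotientMap (Prod.map q (id : I → I)) :=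
    (hqo.prodMap IsOpenMap.id).isQuotientMap (hqc.prodMap continuous_id)
      (hqs.prodMap Function.surjective_id)
  have hfac : ∀ a b : S × I, Prod.map q (id : I → I) a = Prod.map q (id : I → I) b →
      h a = h b := by
    rintro ⟨v, t⟩ ⟨v', t'⟩ hab
    have h1 : q v = q v' := congrArg Prod.fst hab
    have h2 : t = t' := congrArg Prod.snd hab
    subst h2
    have h3 : proj v.1 = proj v'.1 := congrArg Subtype.val h1
    rw [proj_eq_iff, rel_iff_cj hd] at h3
    obtain ⟨g, hg⟩ := h3
    obtain ⟨k, hk⟩ := hwrep v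
    obtain ⟨k', hk'⟩ := hwrep v'
    have h4 : cj (k'⁻¹ * g * k) ((c : Coeffs N d) + w v) = (c : Coeffs N d) + w v' := by
      rw [cj_mul, cj_mul, ← hk, hg, hk', cj_inv_cj]
    have h5 := hslice _ (hwW v) _ (hwW v') (lt_of_lt_of_le (hwε v) (min_le_left _ _))
      (lt_of_lt_of_le (hwε v') (min_le_left _ _)) _ h4
    have h6 : cj (k'⁻¹ * g * k) (w v) = w v' := by
      rw [cj_add, mem_stab.mp h5] at h4
      exact add_left_cancel h4
    change proj _ = proj _
    rw [proj_eq_iff, rel_iff_cj hd]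
    refine ⟨k'⁻¹ * g * k, ?_⟩
    change cj _ ((c : Coeffs N d) + _ • w v) = (c : Coeffs N d) + _ • w v'
    rw [cj_add, cj_smul, h6, mem_stab.mp h5]
  let H : C((proj '' S : Set (Moduli N d)) × I, Moduli N d) :=
    Topology.IsQuotientMap.lift (f := ⟨Prod.map q (id : I → I), hqc.prodMap continuous_id⟩) hQ
      ⟨h, hh⟩ hfac
  have hH : ∀ v t, H (q v, t) = h (v, t) := by
    intro v t
    have := Topology.IsQuotientMap.lift_comp
      (f := ⟨Prod.map q (id : I → I), hqc.prodMap continuous_id⟩) hQ ⟨h, hh⟩ hfac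
    exact congrArg (fun F : C(S × I, Moduli N d) => F (v, t)) this
  refine ⟨S, hS, hcS, H, H.continuous, ?_, ?_⟩
  · intro u
    obtain ⟨v, rfl⟩ := hqs u
    rw [hH]
    change proj _ = proj _
    rw [proj_eq_iff, rel_iff_cj hd]
    obtain ⟨k, hk⟩ := hwrep v
    refine ⟨k, ?_⟩
    rw [hk]
    simp
  · intro u
    obtain ⟨v, rfl⟩ := hqs u
    rw [hH]
    change proj _ = proj _
    congr 1
    apply Subtype.ext
    simp

end Pool.Agent.Lib.Pa3f63f
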