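import Mathlib

open scoped BigOperators

/-!
The moduli space `M_d^N(ℂ)` of degree `d` endomorphisms of `ℙ^N`, as a topological space.

A morphism `f : ℙ^N → ℙ^N` of degree `d` is given by `N + 1` homogeneous polynomials of degree `d`
in `x_0, …, x_N` without common nontrivial zero, up to a common nonzero scalar, and `PGL_{N+1}` acts
by conjugation.  Hence `M_d^N(ℂ)` is the space of orbits of `ℂˣ × GL_{N+1}(ℂ)` acting on the cone
`EndCone N d` of such tuples by `(s, g) • c = s • (g ∘ c ∘ g⁻¹)`.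
-/

namespace Pool.Agent.Lib.Pa3f63f

/-- Exponent vectors of the monomials of degree `d` in the variables `x_0, …, x_N`. -/
abbrev Mono (N d : ℕ) : Type := ↥(Finset.piAntidiag (Finset.univ : Finset (Fin (N + 1))) d)

/-- Coefficient vectors of `(N+1)`-tuples of homogeneous polynomials of degree `d` in
`x_0, …, x_N`, a finite-dimensional complex vector space with its usual topology. -/
abbrev Coeffs (N d : ℕ) : Type := Fin (N + 1) → Mono N d → ℂ

/-- The value at `x` of the tuple of homogeneous polynomials with coefficients `c`. -/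
def evalAt {N d : ℕ} (c : Coeffs N d) (x : Fin (N + 1) → ℂ) : Fin (N + 1) → ℂ :=
  fun j => ∑ α : Mono N d, c j α * ∏ i, x i ^ (α.1 i)

/-- The tuples without common nontrivial zero: the cone over `End_d^N`. -/
def EndCone (N d : ℕ) : Set (Coeffs N d) :=
  {c | ∀ x : Fin (N + 1) → ℂ, x ≠ 0 → evalAt c x ≠ 0}

/-- `c'` is, up to a nonzero scalar, the conjugate `g ∘ c ∘ g⁻¹` for some `g`. -/
def ConjRel {N d : ℕ} (c c' : Coeffs N d) : Prop :=
  ∃ (g : GL (Fin (N + 1)) ℂ) (s : ℂˣ), ∀ x : Fin (N + 1) → ℂ,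
    evalAt c' ((g : Matrix (Fin (N + 1)) (Fin (N + 1)) ℂ).mulVec x) =
      (s : ℂ) • (g : Matrix (Fin (N + 1)) (Fin (N + 1)) ℂ).mulVec (evalAt c x)

/-- Conjugacy up to scalars is an equivalence relation. -/
def conjSetoid (N d : ℕ) : Setoid (EndCone N d) where
  r c c' := ConjRel (c : Coeffs N d) (c' : Coeffs N d)
  iseqv := by
    refine ⟨fun c => ⟨1, 1, fun x => by simp⟩, ?_, ?_⟩
    · rintro c c' ⟨g, s, h⟩
      refine ⟨g⁻¹, s⁻¹, fun x => ?_⟩
      have h1 := h ((g⁻¹ : GL (Fin (N + 1)) ℂ).1.mulVec x)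
      rw [Matrix.mulVec_mulVec, ← Matrix.GeneralLinearGroup.coe_mul, mul_inv_cancel,
        Matrix.GeneralLinearGroup.coe_one, Matrix.one_mulVec] at h1
      rw [h1, Matrix.mulVec_smul, Matrix.mulVec_mulVec, ← Matrix.GeneralLinearGroup.coe_mul,
        inv_mul_cancel, Matrix.GeneralLinearGroup.coe_one, Matrix.one_mulVec, smul_smul,
        Units.inv_mul, one_smul]
    · rintro c c' c'' ⟨g, s, h⟩ ⟨g', s', h'⟩
      refine ⟨g' * g, s' * s, fun x => ?_⟩
      rw [Matrix.GeneralLinearGroup.coe_mul, ← Matrix.mulVec_mulVec, h', h,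
        ← Matrix.mulVec_mulVec, Matrix.mulVec_smul, smul_smul, Units.val_mul]

/-- The moduli space `M_d^N(ℂ)`: morphisms of degree `d` modulo conjugacy. -/
def Moduli (N d : ℕ) : Type := Quotient (conjSetoid N d)

/-- The topology of `M_d^N(ℂ)` is the quotient topology. -/
instance (N d : ℕ) : TopologicalSpace (Moduli N d) :=
  inferInstanceAs (TopologicalSpace (Quotient (conjSetoid N d)))

/-- the quotient map -/
def proj {N d : ℕ} (c : EndCone N d) : Moduli N d := Quotient.mk (conjSetoid N d) c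

end Pool.Agent.Lib.Pa3f63f
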