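import Mathlib

open scoped Topology unitInterval

namespace Pool.Agent.Lib.Pa3f63f

/-- A null-homotopic map on the circle extends to the closed disc. -/
theorem exists_disc_extension {Y : Type*} [TopologicalSpace Y] (ℓ : C(Circle, Y))
    (h : ℓ.Nullhomotopic) :
    ∃ Ψ : ℂ → Y, ContinuousOn Ψ (Metric.closedBall 0 1) ∧ ∀ u : Circle, Ψ (u : ℂ) = ℓ u := by
  obtain ⟨y, ⟨F⟩⟩ := h
  let D : Set ℂ := Metric.closedBall 0 1
  have hm : ∀ p : I × Circle, ((1 - (p.1 : ℝ) : ℝ) : ℂ) * (p.2 : ℂ) ∈ D := by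
    intro p
    rw [Metric.mem_closedBall, dist_zero_right, norm_mul, Circle.norm_coe, mul_one,
      Complex.norm_real, Real.norm_eq_abs, abs_le]
    constructor <;> linarith [p.1.2.1, p.1.2.2]
  let m : I × Circle → D := fun p => ⟨((1 - (p.1 : ℝ) : ℝ) : ℂ) * (p.2 : ℂ), hm p⟩
  have hmc : Continuous m := by
    apply Continuous.subtype_mk
    have h1 : Continuous fun p : I × Circle => ((1 - (p.1 : ℝ) : ℝ) : ℂ) :=
      Complex.continuous_ofReal.comp
        (continuous_const.sub (continuous_subtype_val.comp continuous_fst))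
    exact h1.mul (continuous_subtype_val.comp continuous_snd)
  have hms : Function.Surjective m := by
    rintro ⟨z, hz⟩
    have hz' : ‖z‖ ≤ 1 := by simpa [D] using hz
    refine ⟨(⟨1 - ‖z‖, by constructor <;> linarith [norm_nonneg z]⟩, Circle.exp z.arg), ?_⟩
    apply Subtype.ext
    change ((1 - (1 - ‖z‖) : ℝ) : ℂ) * ((Circle.exp z.arg : Circle) : ℂ) = z
    rw [Circle.coe_exp, sub_sub_cancel]
    exact Complex.norm_mul_exp_arg_mul_I z
  have hmq : Topology.IsQuotientMap m := hmc.isClosedMap.isQuotientMap hmc hms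
  have hfac : ∀ a b : I × Circle, m a = m b → F a = F b := by
    rintro ⟨t, u⟩ ⟨t', u'⟩ hab
    have h1 : ((1 - (t : ℝ) : ℝ) : ℂ) * (u : ℂ) = ((1 - (t' : ℝ) : ℝ) : ℂ) * (u' : ℂ) :=
      congrArg Subtype.val hab
    have h2 : 1 - (t : ℝ) = 1 - (t' : ℝ) := by
      have := congrArg norm h1
      rw [norm_mul, norm_mul, Circle.norm_coe, Circle.norm_coe, mul_one, mul_one,
        Complex.norm_real, Complex.norm_real, Real.norm_of_nonneg (by linarith [t.2.2]),
        Real.norm_of_nonneg (by linarith [t'.2.2])] at this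
      exact this
    have h3 : t = t' := Subtype.ext (by linarith)
    subst h3
    by_cases ht : (1 - (t : ℝ)) = 0
    · have : t = 1 := Subtype.ext (by rw [Set.Icc.coe_one]; linarith)
      subst this
      rw [F.apply_one, F.apply_one]
      rfl
    · have h4 : (u : ℂ) = u' := mul_left_cancel₀ (by exact_mod_cast ht) h1
      have h5 : u = u' := Circle.ext h4
      rw [h5]
  let G : C(D, Y) := Topology.IsQuotientMap.lift (f := ⟨m, hmc⟩) hmq F.toContinuousMap hfac
  have hG : ∀ p, G (m p) = F p := by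
    intro p
    have := Topology.IsQuotientMap.lift_comp (f := ⟨m, hmc⟩) hmq F.toContinuousMap hfac
    exact congrArg (fun f : C(I × Circle, Y) => f p) this
  classical
  refine ⟨fun z => if hz : z ∈ D then G ⟨z, hz⟩ else y, ?_, ?_⟩
  · rw [continuousOn_iff_continuous_domRestrict]
    have : (Metric.closedBall (0 : ℂ) 1).domRestrict (fun z => if hz : z ∈ D then G ⟨z, hz⟩ else y)
        = G := by
      funext z
      simp only [Set.domRestrict_apply]
      rw [dif_pos z.2]
    rw [this]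
    exact G.continuous
  · intro u
    have hu : (u : ℂ) ∈ D := by simp [D]
    simp only
    rw [dif_pos hu]
    have h1 := hG (0, u)
    have h2 : m (0, u) = ⟨(u : ℂ), hu⟩ := by
      apply Subtype.ext
      simp [m]
    rw [h2, F.apply_zero] at h1
    exact h1

/-- Filling finitely many punctures. -/
theorem fill {Y : Type*} [TopologicalSpace Y] (Z : Finset ℂ) : ∀ (φ : ℂ → Y),
    ContinuousOn φ (Z : Set ℂ)ᶜ →
    (∀ a ∈ Z, ∃ r₀ : ℝ, 0 < r₀ ∧ ∀ r : ℝ, 0 < r → r < r₀ → ∃ ℓ : C(Circle, Y),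
      ℓ.Nullhomotopic ∧ ∀ u : Circle, φ (a + r * u) = ℓ u) →
    ∀ K : Set ℂ, IsClosed K → Disjoint K (Z : Set ℂ) → ∃ Φ : C(ℂ, Y), ∀ z ∈ K, Φ z = φ z := by
  classical
  induction Z using Finset.induction_on with
  | empty =>
    intro φ hφ _ K _ _
    rw [Finset.coe_empty, Set.compl_empty, continuousOn_univ] at hφ
    exact ⟨⟨φ, hφ⟩, fun z _ => rfl⟩
  | insert a Z ha ih =>
    intro φ hφ hZ K hK hKZ
    obtain ⟨r₀, hr₀, hr⟩ := hZ a (Finset.mem_insert_self a Z)
    have haK : a ∈ (K ∪ (Z : Set ℂ))ᶜ := by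
      rintro (h | h)
      · exact Set.disjoint_left.mp hKZ h (by simp)
      · exact ha (by simpa using h)
    have hop : IsOpen (K ∪ (Z : Set ℂ))ᶜ :=
      (hK.union Z.finite_toSet.isClosed).isOpen_compl
    obtain ⟨ρ, hρ, hρs⟩ := Metric.isOpen_iff.mp hop a haK
    set r : ℝ := min r₀ ρ / 2 with hrdef
    have hr0 : 0 < r := by positivity
    have hr1 : r < r₀ := by
      have := min_le_left r₀ ρ
      rw [hrdef]; linarith [lt_min hr₀ hρ]
    have hr2 : r < ρ := by
      have := min_le_right r₀ ρ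
      rw [hrdef]; linarith [lt_min hr₀ hρ]
    have hrs : ∀ z, ‖z - a‖ ≤ r → z ∉ K ∧ z ∉ Z := by
      intro z hz
      have h1 := hρs (show z ∈ Metric.ball a ρ by
        rw [Metric.mem_ball, dist_eq_norm]; linarith)
      exact ⟨fun h => h1 (Or.inl h), fun h => h1 (Or.inr (by simpa using h))⟩
    obtain ⟨ℓ, hℓ, hℓφ⟩ := hr r hr0 hr1
    obtain ⟨Ψ, hΨ, hΨℓ⟩ := exists_disc_extension ℓ hℓ
    let φ' : ℂ → Y := fun z => if ‖z - a‖ ≤ r then Ψ ((z - a) / r) else φ z
    have hφ' : ContinuousOn φ' (Z : Set ℂ)ᶜ := by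
      rw [continuousOn_iff_continuous_domRestrict]
      change Continuous fun z : ((Z : Set ℂ)ᶜ : Set ℂ) =>
        if ‖(z : ℂ) - a‖ ≤ r then Ψ (((z : ℂ) - a) / r) else φ z
      apply continuous_if_le
      · fun_prop
      · fun_prop
      · apply hΨ.comp (s := {x : ((Z : Set ℂ)ᶜ : Set ℂ) | ‖(x : ℂ) - a‖ ≤ r})
          (f := fun z : ((Z : Set ℂ)ᶜ : Set ℂ) => ((z : ℂ) - a) / r)
        · apply Continuous.continuousOn
          fun_prop
        · intro z hz
          rw [Metric.mem_closedBall, dist_zero_right, norm_div, Complex.norm_real,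
            Real.norm_of_nonneg hr0.le, div_le_one hr0]
          exact hz
      · apply hφ.comp continuous_subtype_val.continuousOn
        intro z hz
        simp only [Finset.coe_insert, Set.mem_compl_iff, Set.mem_insert_iff, not_or]
        refine ⟨?_, z.2⟩
        rintro h
        have h1 : r ≤ ‖(z : ℂ) - a‖ := hz
        rw [h, sub_self, norm_zero] at h1
        linarith
      · intro z hz
        have hz' : ‖((z : ℂ) - a) / r‖ = 1 := by
          rw [norm_div, Complex.norm_real, Real.norm_of_nonneg hr0.le, hz, div_self hr0.ne']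
        let u : Circle := ⟨((z : ℂ) - a) / r, mem_sphere_zero_iff_norm.mpr hz'⟩
        have h1 := hΨℓ u
        have h2 := hℓφ u
        have h3 : (u : ℂ) = ((z : ℂ) - a) / r := rfl
        rw [h3] at h1 h2
        rw [h1, ← h2]
        congr 1
        have : (r : ℂ) ≠ 0 := by exact_mod_cast hr0.ne'
        field_simp
        ring
    obtain ⟨Φ, hΦ⟩ := ih φ' hφ' (by
      intro b hb
      obtain ⟨r₁, hr₁, hb1⟩ := hZ b (Finset.mem_insert_of_mem hb)
      have hba : r < ‖b - a‖ := by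
        by_contra hcon
        exact (hrs b (not_lt.mp hcon)).2 hb
      refine ⟨min r₁ (‖b - a‖ - r), lt_min hr₁ (by linarith), ?_⟩
      intro s hs0 hs
      obtain ⟨ℓ', hℓ', hℓφ'⟩ := hb1 s hs0 (lt_of_lt_of_le hs (min_le_left _ _))
      refine ⟨ℓ', hℓ', ?_⟩
      intro u
      rw [← hℓφ' u]
      have h1 : ¬ ‖b + s * u - a‖ ≤ r := by
        rw [not_le]
        have h2 : ‖b - a‖ ≤ ‖b + s * u - a‖ + ‖(s : ℂ) * u‖ := by
          have : b - a = (b + s * u - a) - s * u := by ring
          rw [this]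
          exact norm_sub_le _ _
        rw [norm_mul, Circle.norm_coe, mul_one, Complex.norm_real,
          Real.norm_of_nonneg hs0.le] at h2
        have := lt_of_lt_of_le hs (min_le_right _ _)
        linarith
      change (if ‖b + s * u - a‖ ≤ r then _ else _) = _
      rw [if_neg h1]) K hK (by
      apply hKZ.mono_right
      simp)
    refine ⟨Φ, ?_⟩
    intro z hz
    rw [hΦ z hz]
    change (if ‖z - a‖ ≤ r then _ else _) = _
    rw [if_neg]
    intro h
    exact (hrs z h).1 hz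

theorem exists_path_avoiding {Z : Set ℂ} (hZ : Z.Finite) {a b : ℂ} (ha : a ∉ Z) (hb : b ∉ Z) :
    ∃ α : Path a b, ∀ t, α t ∉ Z := by
  have h1 : IsPathConnected Zᶜ := by
    apply hZ.countable.isPathConnected_compl_of_one_lt_rank
    rw [Complex.rank_real_complex]
    exact Cardinal.one_lt_two
  obtain ⟨α, hα⟩ := h1.joinedIn a ha b hb
  exact ⟨α, hα⟩

/-- Images of two plane paths under a map with fillable punctures are homotopic. -/
theorem homotopic_of_fill {Y : Type*} [TopologicalSpace Y] {Z : Set ℂ} (hZf : Z.Finite)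
    (φ : ℂ → Y) (hφ : ContinuousOn φ Zᶜ)
    (hZ : ∀ a ∈ Z, ∃ r₀ : ℝ, 0 < r₀ ∧ ∀ r : ℝ, 0 < r → r < r₀ → ∃ ℓ : C(Circle, Y),
      ℓ.Nullhomotopic ∧ ∀ u : Circle, φ (a + r * u) = ℓ u)
    {a b : ℂ} (α β : Path a b) (hα : ∀ t, α t ∉ Z) (hβ : ∀ t, β t ∉ Z) {x y : Y}
    (p q : Path x y) (hp : ∀ t, p t = φ (α t)) (hq : ∀ t, q t = φ (β t)) : p.Homotopic q := by
  obtain ⟨Φ, hΦ⟩ := fill hZf.toFinset φ (by simpa using hφ) (by simpa using hZ)
    (Set.range α ∪ Set.range β)
    ((isCompact_range α.continuous).isClosed.union (isCompact_range β.continuous).isClosed) (by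
      rw [Set.disjoint_left]
      rintro z (⟨t, rfl⟩ | ⟨t, rfl⟩)
      · simpa using hα t
      · simpa using hβ t)
  have h1 := (SimplyConnectedSpace.paths_homotopic α β).map Φ
  have hx : x = Φ a := by
    rw [← α.source, hΦ _ (Or.inl ⟨0, rfl⟩), ← hp 0, p.source]
  have hy : y = Φ b := by
    rw [← α.target, hΦ _ (Or.inl ⟨1, rfl⟩), ← hp 1, p.target]
  have h2 := h1.pathCast hx hy
  have e1 : (α.map Φ.continuous).cast hx hy = p := by
    ext t
    change Φ (α t) = p t
    rw [hΦ _ (Or.inl ⟨t, rfl⟩), hp]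
  have e2 : (β.map Φ.continuous).cast hx hy = q := by
    ext t
    change Φ (β t) = q t
    rw [hΦ _ (Or.inr ⟨t, rfl⟩), hq]
  rwa [e1, e2] at h2

end Pool.Agent.Lib.Pa3f63f
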