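import Pool.Agent.Lib.Pa3f63f.Generic
import Pool.Agent.Lib.Pa3f63f.Contract

open scoped BigOperators Topology unitInterval

namespace Pool.Agent.Lib.Pa3f63f

attribute [local irreducible] act G0 cj

theorem continuous_ln {N d : ℕ} :
    Continuous fun q : Coeffs N d × Coeffs N d × ℂ => ln q.1 q.2.1 q.2.2 := by
  unfold ln
  fun_prop

/-- The path from `b` to `w` above the plane path `α`, pushed to the moduli space. -/
noncomputable def dl {N d : ℕ} (b w : EndCone N d) (α : Path (0 : ℂ) 1)
    (h : ∀ t, ln (b : Coeffs N d) w (α t) ∈ EndCone N d) : Path (proj b) (proj w) where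
  toFun t := proj ⟨ln (b : Coeffs N d) w (α t), h t⟩
  continuous_toFun := by
    apply continuous_proj.comp
    apply Continuous.subtype_mk
    have h0 : Continuous fun t : I => ((b : Coeffs N d), (w : Coeffs N d), α t) := by fun_prop
    exact continuous_ln.comp h0
  source' := by
    congr 1
    apply Subtype.ext
    change ln (b : Coeffs N d) w (α 0) = b
    rw [α.source, ln_zero]
  target' := by
    congr 1
    apply Subtype.ext
    change ln (b : Coeffs N d) w (α 1) = w
    rw [α.target, ln_one]

theorem dl_apply {N d : ℕ} (b w : EndCone N d) (α : Path (0 : ℂ) 1)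
    (h : ∀ t, ln (b : Coeffs N d) w (α t) ∈ EndCone N d) (t : I) :
    dl b w α h t = proj ⟨ln (b : Coeffs N d) w (α t), h t⟩ := rfl

theorem finite_bad {N d : ℕ} (D : RData N d) {w : Coeffs N d} (hw : RR D w ≠ 0)
    (b : Coeffs N d) : {z : ℂ | ln b w z ∉ EndCone N d}.Finite := by
  apply ((PL_RR D).finite_zeros w b hw).subset
  intro z hz
  by_contra h
  apply hz
  have h1 : ln b w z = b + z • (w - b) := by
    unfold ln; module
  rw [h1]
  exact mem_cone_of_RR D h

/-- Over a good point the class of the path does not depend on the plane path. -/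
theorem dl_homotopic_good {N d : ℕ} (hN : 1 ≤ N) (hd : 2 ≤ d) (D : RData N d)
    (b w : EndCone N d) (hw : RR D w ≠ 0) (hb : Good D w b) (α β : Path (0 : ℂ) 1)
    (hα : ∀ t, ln (b : Coeffs N d) w (α t) ∈ EndCone N d)
    (hβ : ∀ t, ln (b : Coeffs N d) w (β t) ∈ EndCone N d) :
    (dl b w α hα).Homotopic (dl b w β hβ) := by
  classical
  let φ : ℂ → Moduli N d := fun z => if h : ln (b : Coeffs N d) w z ∈ EndCone N d then
    proj ⟨_, h⟩ else proj w
  have hφ : ∀ z (h : ln (b : Coeffs N d) w z ∈ EndCone N d), φ z = proj ⟨_, h⟩ :=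
    fun z h => dif_pos h
  apply homotopic_of_fill (Z := {z : ℂ | ln (b : Coeffs N d) w z ∉ EndCone N d})
    (finite_bad D hw b) φ _ _ α β (fun t ht => ht (hα t)) (fun t ht => ht (hβ t)) _ _
    (fun t => by rw [dl_apply, hφ]) (fun t => by rw [dl_apply, hφ])
  · rw [continuousOn_iff_continuous_domRestrict]
    have h1 : ∀ z : ({z : ℂ | ln (b : Coeffs N d) w z ∉ EndCone N d}ᶜ : Set ℂ),
        ln (b : Coeffs N d) w z ∈ EndCone N d := fun z => by
      by_contra h
      exact z.2 h
    have h2 : ({z : ℂ | ln (b : Coeffs N d) w z ∉ EndCone N d}ᶜ : Set ℂ).domRestrict φ =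
        fun z => proj ⟨_, h1 z⟩ := by
      funext z
      rw [Set.domRestrict_apply, hφ]
    rw [h2]
    apply continuous_proj.comp
    apply Continuous.subtype_mk
    have h0 : Continuous fun z : ({z : ℂ | ln (b : Coeffs N d) w z ∉ EndCone N d}ᶜ : Set ℂ) =>
        ((b : Coeffs N d), (w : Coeffs N d), (z : ℂ)) := by fun_prop
    exact continuous_ln.comp h0
  · intro a ha
    obtain ⟨r₀, hr₀, h⟩ := line_merid hN hd D w.2 hb ha
    refine ⟨r₀, hr₀, ?_⟩
    intro r hr hrr
    obtain ⟨hmem, hnull⟩ := h r hr hrr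
    refine ⟨_, hnull, ?_⟩
    intro u
    have h1 : ln (b : Coeffs N d) w (a + r * u) = merLoop (ln (b : Coeffs N d) w a)
        ((w : Coeffs N d) - b) r u := by
      rw [ln_add, merLoop_apply]
    have h2 : ln (b : Coeffs N d) w (a + r * u) ∈ EndCone N d := by
      rw [h1]; exact hmem u
    rw [hφ _ h2]
    change proj _ = proj _
    congr 1
    exact Subtype.ext h1

theorem eventually_avoid {N d : ℕ} (w b : Coeffs N d) (α : Path (0 : ℂ) 1)
    (hα : ∀ t, ln b w (α t) ∈ EndCone N d) :
    ∀ᶠ c in 𝓝 b, ∀ t, ln c w (α t) ∈ EndCone N d := by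
  have h1 : ∀ᶠ c in 𝓝 b, ∀ t ∈ (Set.univ : Set I), ln c w (α t) ∈ EndCone N d := by
    apply isCompact_univ.eventually_forall_of_forall_eventually
    intro t _
    have h0 : Continuous fun q : Coeffs N d × I => (q.1, w, α q.2) := by fun_prop
    have h2 : Continuous fun q : Coeffs N d × I => ln q.1 w (α q.2) := continuous_ln.comp h0
    exact h2.continuousAt.eventually ((isOpen_cone N d).mem_nhds (hα t))
  filter_upwards [h1] with c hc t
  exact hc t trivial

/-- the quotient map as a continuous map -/
noncomputable def pr (N d : ℕ) : C(EndCone N d, Moduli N d) := ⟨proj, continuous_proj⟩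

/-- Transport of the classes along a path. -/
theorem dl_transport {N d : ℕ} (w : EndCone N d) (α : Path (0 : ℂ) 1) {a b : EndCone N d}
    (γ : Path a b) (h : ∀ s t, ln (γ s : Coeffs N d) w (α t) ∈ EndCone N d)
    (ha : ∀ t, ln (a : Coeffs N d) w (α t) ∈ EndCone N d)
    (hb : ∀ t, ln (b : Coeffs N d) w (α t) ∈ EndCone N d) :
    (Path.Homotopic.Quotient.mk (γ.map (pr N d).continuous)).trans
      (Path.Homotopic.Quotient.mk (dl b w α hb)) = Path.Homotopic.Quotient.mk (dl a w α ha) := by
  have h0 : Continuous fun p : I × I => ((γ p.1 : Coeffs N d), (w : Coeffs N d), α p.2) := by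
    fun_prop
  have hc : Continuous fun p : I × I =>
      proj (⟨ln (γ p.1 : Coeffs N d) w (α p.2), h p.1 p.2⟩ : EndCone N d) :=
    continuous_proj.comp ((continuous_ln.comp h0).subtype_mk _)
  have h1 := square ⟨_, hc⟩ (γ.map (pr N d).continuous) (dl b w α hb) (dl a w α ha)
    (Path.refl (proj w))
    (fun t => by
      change proj _ = proj _
      congr 1
      apply Subtype.ext
      change ln _ _ (α 0) = _
      rw [α.source, ln_zero])
    (fun t => by
      change proj _ = proj _
      congr 1
      apply Subtype.ext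
      change ln (γ 1 : Coeffs N d) _ _ = ln _ _ _
      rw [γ.target])
    (fun t => by
      change proj _ = proj _
      congr 1
      apply Subtype.ext
      change ln (γ 0 : Coeffs N d) _ _ = ln _ _ _
      rw [γ.source])
    (fun t => by
      change proj _ = proj _
      congr 1
      apply Subtype.ext
      change ln _ _ (α 1) = _
      rw [α.target, ln_one])
  rw [← Path.Homotopic.Quotient.mk_trans]
  exact Path.Homotopic.Quotient.eq.mpr (h1.trans (Path.Homotopic.trans_refl _))

/-- straight segments in the cone -/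
theorem exists_segment {N d : ℕ} (c : Coeffs N d) (ε : ℝ) (hball : Metric.ball c ε ⊆ EndCone N d)
    (a b : EndCone N d) (ha : (a : Coeffs N d) ∈ Metric.ball c ε)
    (hb : (b : Coeffs N d) ∈ Metric.ball c ε) :
    ∃ γ : Path a b, ∀ t, (γ t : Coeffs N d) ∈ Metric.ball c ε := by
  have hε : 0 < ε := Metric.pos_of_mem_ball ha
  obtain ⟨γ, hγ⟩ := ((convex_ball c ε).isPathConnected
    ⟨c, Metric.mem_ball_self hε⟩).joinedIn _ ha _ hb
  refine ⟨⟨⟨fun t => ⟨γ t, hball (hγ t)⟩, γ.continuous.subtype_mk _⟩, ?_, ?_⟩, hγ⟩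
  · exact Subtype.ext γ.source
  · exact Subtype.ext γ.target

/-- The class of the path does not depend on the plane path. -/
theorem dl_homotopic {N d : ℕ} (hN : 1 ≤ N) (hd : 2 ≤ d) (D : RData N d)
    (b w : EndCone N d) (hw : RR D w ≠ 0) {t₀ : ℂ} (ht₀ : t₀ ≠ 0)
    (hwt : (w : Coeffs N d) = chC N d t₀ 1) (α β : Path (0 : ℂ) 1)
    (hα : ∀ t, ln (b : Coeffs N d) w (α t) ∈ EndCone N d)
    (hβ : ∀ t, ln (b : Coeffs N d) w (β t) ∈ EndCone N d) :
    Path.Homotopic.Quotient.mk (dl b w α hα) = Path.Homotopic.Quotient.mk (dl b w β hβ) := by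
  have h1 := (eventually_avoid (w : Coeffs N d) b α hα).and
    (eventually_avoid (w : Coeffs N d) b β hβ)
  have h2 := h1.and ((isOpen_cone N d).eventually_mem b.2)
  obtain ⟨ε, hε, hball⟩ := Metric.eventually_nhds_iff_ball.mp h2
  obtain ⟨b', hb', hgood⟩ := good_dense (by omega) D ht₀ (Metric.ball (b : Coeffs N d) ε)
    Metric.isOpen_ball ⟨b, Metric.mem_ball_self hε⟩
  rw [← hwt] at hgood
  obtain ⟨γ, hγ⟩ := exists_segment (b : Coeffs N d) ε (fun x hx => (hball x hx).2) b
    ⟨b', (hball b' hb').2⟩ (Metric.mem_ball_self hε) hb'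
  have e1 := dl_transport w α γ (fun s t => (hball _ (hγ s)).1.1 t) hα
    (fun t => (hball b' hb').1.1 t)
  have e2 := dl_transport w β γ (fun s t => (hball _ (hγ s)).1.2 t) hβ
    (fun t => (hball b' hb').1.2 t)
  rw [← e1, ← e2]
  congr 1
  exact Path.Homotopic.Quotient.eq.mpr (dl_homotopic_good hN hd D _ w hw hgood α β _ _)

theorem trans_const {Y : Type*} [TopologicalSpace Y] {x y z : Y} (p : Path x y)
    (hp : ∀ t, p t = x) (h : x = y) (c : Path.Homotopic.Quotient y z) :
    (Path.Homotopic.Quotient.mk p).trans c = c.cast h rfl := by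
  subst h
  have : p = Path.refl x := by
    ext t
    rw [hp t]
    rfl
  rw [this, Path.Homotopic.Quotient.mk_refl, Path.Homotopic.Quotient.refl_trans,
    Path.Homotopic.Quotient.cast_rfl_rfl]

theorem local_to_global_id {X : Type*} [TopologicalSpace X] (y₀ : X)
    (C : ∀ x, Path.Homotopic.Quotient x y₀)
    (hloc : ∀ x, ∃ U ∈ 𝓝 x, ∀ (a b : X) (γ : Path a b), (∀ t, γ t ∈ U) →
      (Path.Homotopic.Quotient.mk γ).trans (C b) = C a)
    (a b : X) (γ : Path a b) : (Path.Homotopic.Quotient.mk γ).trans (C b) = C a :=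
  local_to_global (ContinuousMap.id X) y₀ C hloc a b γ

theorem eq_refl_of_trans {X : Type*} [TopologicalSpace X] {x y : X}
    (p : Path.Homotopic.Quotient x x) (c : Path.Homotopic.Quotient x y) (h : p.trans c = c) :
    p = Path.Homotopic.Quotient.refl x := by
  have h3 := congrArg (fun z => z.trans c.symm) h
  simp only [Path.Homotopic.Quotient.trans_assoc, Path.Homotopic.Quotient.trans_symm,
    Path.Homotopic.Quotient.trans_refl] at h3
  exact h3

/-- The moduli space of degree `d` endomorphisms of projective `N`-space is simply connected. -/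
theorem simplyConnected {N d : ℕ} (hN : 1 ≤ N) (hd : 2 ≤ d) :
    SimplyConnectedSpace (Moduli N d) := by
  classical
  obtain ⟨D⟩ := nonempty_RData hN hd
  obtain ⟨t₀, ht₀, hR⟩ := exists_base (by omega : 1 ≤ d) D
  let w : EndCone N d := ⟨chC N d t₀ 1, mem_cone_of_RR D hR⟩
  have hpc := isPathConnected_cone (by omega : 1 ≤ d) D
  have hpcs : PathConnectedSpace (EndCone N d) := isPathConnected_iff_pathConnectedSpace.mp hpc
  -- classes upstairs
  have hex : ∀ e : EndCone N d, ∃ α : Path (0 : ℂ) 1,
      ∀ t, ln (e : Coeffs N d) w (α t) ∈ EndCone N d := by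
    intro e
    obtain ⟨α, hα⟩ := exists_path_avoiding (finite_bad D hR (e : Coeffs N d)) (a := 0) (b := 1)
      (by
        intro h
        apply h
        rw [ln_zero]; exact e.2)
      (by
        intro h
        apply h
        rw [ln_one]; exact w.2)
    refine ⟨α, fun t => ?_⟩
    by_contra hcon
    exact hα t hcon
  choose A hA using hex
  let C : ∀ e : EndCone N d, Path.Homotopic.Quotient (pr N d e) (proj w) := fun e =>
    Path.Homotopic.Quotient.mk (dl e w (A e) (hA e))
  have hC : ∀ (e : EndCone N d) (α : Path (0 : ℂ) 1)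
      (hα : ∀ t, ln (e : Coeffs N d) w (α t) ∈ EndCone N d),
      C e = Path.Homotopic.Quotient.mk (dl e w α hα) := by
    intro e α hα
    exact dl_homotopic hN hd D e w hR ht₀ rfl _ _ _ _
  have hup : ∀ (a b : EndCone N d) (γ : Path a b),
      (Path.Homotopic.Quotient.mk (γ.map (pr N d).continuous)).trans (C b) = C a := by
    apply local_to_global (pr N d) (proj w) C
    intro x
    have h1 := eventually_avoid (w : Coeffs N d) x (A x) (hA x)
    refine ⟨{c : EndCone N d | ∀ t, ln (c : Coeffs N d) w (A x t) ∈ EndCone N d},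
      continuous_subtype_val.continuousAt.eventually h1, ?_⟩
    intro a b γ hγ
    have ha : ∀ t, ln (a : Coeffs N d) w (A x t) ∈ EndCone N d := by
      have := hγ 0
      rwa [γ.source] at this
    have hb : ∀ t, ln (b : Coeffs N d) w (A x t) ∈ EndCone N d := by
      have := hγ 1
      rwa [γ.target] at this
    rw [hC a (A x) ha, hC b (A x) hb]
    exact dl_transport w (A x) γ hγ ha hb
  -- classes downstairs
  have hfib : ∀ (e e' : EndCone N d) (h : pr N d e = pr N d e'), (C e').cast h rfl = C e := by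
    intro e e' h
    have h1 : proj e = proj e' := h
    rw [proj_eq_iff, rel_iff_cj hd] at h1
    obtain ⟨g, hg⟩ := h1
    obtain ⟨κ⟩ := units_path g
    have hc : Continuous fun t => cj (κ t) (e : Coeffs N d) := by
      have h0 : Continuous fun t => (κ t, (e : Coeffs N d)) := by fun_prop
      exact continuous_cj.comp h0
    let γ : Path e e' :=
      { toFun := fun t => ⟨cj (κ t) (e : Coeffs N d), cj_mem_cone (κ t) e.2⟩
        continuous_toFun := hc.subtype_mk _
        source' := by
          apply Subtype.ext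
          change cj (κ 0) (e : Coeffs N d) = e
          rw [κ.source, cj_one]
        target' := by
          apply Subtype.ext
          change cj (κ 1) (e : Coeffs N d) = e'
          rw [κ.target, hg] }
    have h2 : ∀ t, (γ.map (pr N d).continuous) t = pr N d e := by
      intro t
      change proj _ = proj _
      symm
      rw [proj_eq_iff, rel_iff_cj hd]
      exact ⟨κ t, rfl⟩
    have h3 := trans_const (γ.map (pr N d).continuous) h2 h (C e')
    exact h3.symm.trans (hup e e' γ)
  have hsurj : Function.Surjective (pr N d) := proj_surjective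
  choose τ hτ using hsurj
  let E : ∀ x : Moduli N d, Path.Homotopic.Quotient x (proj w) := fun x =>
    (C (τ x)).cast (hτ x).symm rfl
  have hE : ∀ e : EndCone N d, E (pr N d e) = C e := by
    intro e
    exact hfib e (τ (pr N d e)) (hτ (pr N d e)).symm
  have hdown : ∀ (a b : Moduli N d) (γ : Path a b),
      (Path.Homotopic.Quotient.mk γ).trans (E b) = E a := by
    apply local_to_global_id (proj w) E
    intro x
    obtain ⟨c, rfl⟩ := proj_surjective x
    obtain ⟨S, hS, hcS, H, hH, hH0, hH1⟩ := exists_contraction hd c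
    obtain ⟨O, hO, rfl⟩ := isOpen_induced_iff.mp hS
    obtain ⟨ε, hε, hball⟩ := Metric.isOpen_iff.mp (hO.inter (isOpen_cone N d)) (c : Coeffs N d)
      ⟨hcS, c.2⟩
    let B : Set (EndCone N d) := {v | (v : Coeffs N d) ∈ Metric.ball (c : Coeffs N d) ε}
    have hB : IsOpen B := Metric.isOpen_ball.preimage continuous_subtype_val
    refine ⟨proj '' B, (isOpenMap_proj B hB).mem_nhds ⟨c, Metric.mem_ball_self hε, rfl⟩, ?_⟩
    intro a b γ hγ
    have ha : a ∈ proj '' B := by have := hγ 0; rwa [γ.source] at this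
    have hb : b ∈ proj '' B := by have := hγ 1; rwa [γ.target] at this
    obtain ⟨e, he, hea⟩ := ha
    obtain ⟨e', he', heb⟩ := hb
    have hea' : pr N d e = a := hea
    have heb' : pr N d e' = b := heb
    subst hea' heb'
    obtain ⟨β, hβ⟩ := exists_segment (c : Coeffs N d) ε (fun x hx => (hball hx).2) e e' he he'
    have h1 : γ.Homotopic (β.map (pr N d).continuous) := by
      apply homotopic_of_contraction _ H hH hH0 _ hH1
      · intro t
        obtain ⟨v, hv, hv'⟩ := hγ t
        exact ⟨v, (hball hv).1, hv'⟩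
      · intro t
        exact ⟨β t, (hball (hβ t)).1, rfl⟩
    rw [hE, hE, Path.Homotopic.Quotient.eq.mpr h1]
    exact hup e e' β
  rw [simply_connected_iff_loops_nullhomotopic]
  refine ⟨proj_surjective.pathConnectedSpace continuous_proj, ?_⟩
  intro x γ
  rw [← Path.Homotopic.Quotient.eq, Path.Homotopic.Quotient.mk_refl]
  exact eq_refl_of_trans _ _ (hdown x x γ)

end Pool.Agent.Lib.Pa3f63f
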