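import Pool.Agent.Lib.Pa3f63f.Merid2

open scoped BigOperators Topology unitInterval

namespace Pool.Agent.Lib.Pa3f63f

attribute [local irreducible] act G0

/-- rank one maps `x ↦ x_j y` -/
noncomputable def Tj {N : ℕ} (j : Fin (N + 1)) : Y N →ₗ[ℂ] End' N where
  toFun y := (ContinuousLinearMap.proj j : Y N →L[ℂ] ℂ).smulRight y
  map_add' y z := by
    apply ContinuousLinearMap.ext
    intro x
    change x j • (y + z) = x j • y + x j • z
    rw [smul_add]
  map_smul' t y := by
    apply ContinuousLinearMap.ext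
    intro x
    change x j • (t • y) = t • (x j • y)
    rw [smul_comm]

theorem Tj_apply {N : ℕ} (j : Fin (N + 1)) (y x : Y N) : Tj j y x = x j • y := rfl

/-- the coordinate swap -/
noncomputable def Pj {N : ℕ} (j : Fin (N + 1)) : End' N :=
  ContinuousLinearMap.pi fun i => ContinuousLinearMap.proj (Equiv.swap 0 j i)

theorem Pj_apply {N : ℕ} (j : Fin (N + 1)) (x : Y N) (i : Fin (N + 1)) :
    Pj j x i = x (Equiv.swap 0 j i) := rfl

theorem Pj_Pj {N : ℕ} (j : Fin (N + 1)) : (Pj j : End' N) * Pj j = 1 := by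
  apply ContinuousLinearMap.ext
  intro x
  funext i
  change x (Equiv.swap 0 j (Equiv.swap 0 j i)) = x i
  rw [Equiv.swap_apply_self]

theorem Pj_e0 {N : ℕ} (j : Fin (N + 1)) : Pj j (e0 N) = Pi.single j 1 := by
  classical
  funext i
  rw [Pj_apply, e0, Pi.single_apply, Pi.single_apply]
  congr 1
  rw [eq_iff_iff]
  constructor
  · intro h
    have := congrArg (Equiv.swap 0 j) h
    rwa [Equiv.swap_apply_self, Equiv.swap_apply_left] at this
  · rintro rfl
    exact Equiv.swap_apply_right _ _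

/-- normalised point -/
noncomputable def pj {N : ℕ} (j : Fin (N + 1)) (a : Y N) : Y N := Function.update a j 1

theorem pj_self {N : ℕ} (j : Fin (N + 1)) (a : Y N) : pj j a j = 1 := Function.update_self _ _ _

theorem pj_eq {N : ℕ} (j : Fin (N + 1)) (a : Y N) (i : Fin (N + 1)) :
    pj j a i = if i = j then 1 else a i := by
  unfold pj
  rw [Function.update_apply]

theorem Tj_sq {N : ℕ} (j : Fin (N + 1)) (a : Y N) :
    (Tj j (pj j a - Pi.single j 1) : End' N) * Tj j (pj j a - Pi.single j 1) = 0 := by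
  apply ContinuousLinearMap.ext
  intro x
  change Tj j (pj j a - Pi.single j 1) (Tj j (pj j a - Pi.single j 1) x) = 0
  rw [Tj_apply, Tj_apply, Pi.smul_apply, Pi.sub_apply, pj_self, Pi.single_eq_same, sub_self,
    smul_zero, zero_smul]

theorem ring_aux {R : Type*} [Ring R] (P T : R) (hP : P * P = 1) (hT : T * T = 0) :
    (1 + T) * P * (P * (1 - T)) = 1 ∧ P * (1 - T) * ((1 + T) * P) = 1 := by
  constructor
  · calc (1 + T) * P * (P * (1 - T)) = (1 + T) * (P * P) * (1 - T) := by noncomm_ring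
      _ = 1 - T * T := by rw [hP]; noncomm_ring
      _ = 1 := by rw [hT, sub_zero]
  · calc P * (1 - T) * ((1 + T) * P) = P * (1 - T * T) * P := by noncomm_ring
      _ = 1 := by rw [hT, sub_zero, mul_one, hP]

/-- the change of coordinates moving `e_0` to the normalised point -/
noncomputable def gU {N : ℕ} (j : Fin (N + 1)) (a : Y N) : (End' N)ˣ where
  val := (1 + Tj j (pj j a - Pi.single j 1)) * Pj j
  inv := Pj j * (1 - Tj j (pj j a - Pi.single j 1))
  val_inv := (ring_aux _ _ (Pj_Pj j) (Tj_sq j a)).1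
  inv_val := (ring_aux _ _ (Pj_Pj j) (Tj_sq j a)).2

theorem gU_e0 {N : ℕ} (j : Fin (N + 1)) (a : Y N) : (gU j a : End' N) (e0 N) = pj j a := by
  change (1 + Tj j (pj j a - Pi.single j 1)) (Pj j (e0 N)) = pj j a
  rw [Pj_e0]
  change Pi.single j 1 + Tj j (pj j a - Pi.single j 1) (Pi.single j 1) = pj j a
  rw [Tj_apply, Pi.single_eq_same, one_smul, add_sub_cancel]

/-- pure `x_0^d` coefficients -/
noncomputable def io (N d : ℕ) : Y N →ₗ[ℂ] Coeffs N d where
  toFun a := fun j α => if α = b0 N d then a j else 0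
  map_add' a b := by
    funext j α
    simp only [Pi.add_apply]
    split_ifs <;> simp
  map_smul' t a := by
    funext j α
    simp only [Pi.smul_apply, RingHom.id_apply, smul_eq_mul]
    split_ifs <;> simp

theorem evalAt_io {N d : ℕ} (a : Y N) : evalAt (io N d a) (e0 N) = a := by
  classical
  funext j
  unfold evalAt
  simp only [prod_e0]
  change ∑ α : Mono N d, (if α = b0 N d then a j else 0) * (if α = b0 N d then 1 else 0) = a j
  rw [Finset.sum_eq_single (b0 N d)]
  · simp
  · intro α _ hα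
    rw [if_neg hα, zero_mul]
  · intro h; exact absurd (Finset.mem_univ _) h

/-- remove the `x_0^d` coefficients -/
noncomputable def rm (N d : ℕ) : Coeffs N d →ₗ[ℂ] Coeffs N d :=
  LinearMap.id - (io N d).comp (evL (e0 N))

theorem rm_apply {N d : ℕ} (k : Coeffs N d) : rm N d k = k - io N d (evalAt k (e0 N)) := rfl

/-- the parametrisation of the bad set -/
noncomputable def Thj {N d : ℕ} (w : Coeffs N d) (j : Fin (N + 1)) (k : Coeffs N d) :
    Coeffs N d :=
  act 1 1 (((gU j (evalAt k (e0 N)))⁻¹ : (End' N)ˣ) : End' N) (rm N d k) -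
    (evalAt k (e0 N) j) • w

/-- the bad function -/
noncomputable def Qj {N d : ℕ} (D : RData N d) (w : Coeffs N d) (j : Fin (N + 1))
    (k : Coeffs N d) : ℂ :=
  G0 D.s (rm N d k) (evalAt w (pj j (evalAt k (e0 N))))

theorem good_of_not_mem {N d : ℕ} (D : RData N d) (w b : Coeffs N d)
    (hb : ∀ j, b ∉ Thj w j '' {k | Qj D w j k = 0}) : Good D w b := by
  intro ζ hζ
  have h1 : ∃ p : Y N, p ≠ 0 ∧ evalAt (b + ζ • w) p = 0 := by
    by_contra hcon
    push Not at hcon
    exact hζ hcon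
  obtain ⟨p, hp, hp0⟩ := h1
  obtain ⟨j, hj⟩ := Function.ne_iff.mp hp
  have hj' : p j ≠ 0 := hj
  let p' : Y N := (p j)⁻¹ • p
  have hp'j : p' j = 1 := by
    change (p j)⁻¹ * p j = 1
    exact inv_mul_cancel₀ hj'
  have hp'0 : evalAt (b + ζ • w) p' = 0 := by
    rw [evalAt_smul_arg, hp0, smul_zero]
  let a : Y N := Function.update p' j ζ
  have hpa : pj j a = p' := by
    funext i
    rw [pj_eq]
    split_ifs with h
    · rw [h, hp'j]
    · exact Function.update_of_ne h _ _
  have haj : a j = ζ := Function.update_self _ _ _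
  refine ⟨gU j a, ?_, ?_⟩
  · rw [gU_e0, hpa, hp'0]
  · intro h0
    apply hb j
    have hev : evalAt (act 1 1 (gU j a : End' N) (b + ζ • w)) (e0 N) = 0 := by
      rw [evalAt_act, one_smul, one_apply_eq_self, gU_e0, hpa, hp'0]
    have hev2 : evalAt (act 1 1 (gU j a : End' N) (b + ζ • w) + io N d a) (e0 N) = a := by
      rw [evalAt_add, hev, zero_add, evalAt_io]
    have hrm : rm N d (act 1 1 (gU j a : End' N) (b + ζ • w) + io N d a) =
        act 1 1 (gU j a : End' N) (b + ζ • w) := by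
      rw [rm_apply, hev2, add_sub_cancel_right]
    refine ⟨act 1 1 (gU j a : End' N) (b + ζ • w) + io N d a, ?_, ?_⟩
    · change G0 D.s (rm N d _) (evalAt w (pj j (evalAt _ (e0 N)))) = 0
      rw [hrm, hev2]
      rw [gU_e0] at h0
      exact h0
    · rw [Thj, hrm, hev2, haj, act_act, Units.mul_inv, one_mul, one_mul, act_one,
        add_sub_cancel_right]

theorem contDiff_pj {N : ℕ} (j : Fin (N + 1)) : ContDiff ℂ ⊤ (pj j : Y N → Y N) := by
  rw [contDiff_pi]
  intro i
  have h : (fun a : Y N => pj j a i) = fun a => if i = j then 1 else a i := by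
    funext a
    rw [pj_eq]
  rw [h]
  split_ifs
  · exact contDiff_const
  · fun_prop

theorem contDiff_gU_inv {N : ℕ} (j : Fin (N + 1)) :
    ContDiff ℂ ⊤ fun a : Y N => (((gU j a)⁻¹ : (End' N)ˣ) : End' N) := by
  have h1 : ContDiff ℂ ⊤ fun a : Y N => pj j a - Pi.single j 1 :=
    (contDiff_pj j).sub contDiff_const
  have h2 : ContDiff ℂ ⊤ fun a : Y N => (Tj j (pj j a - Pi.single j 1) : End' N) :=
    ContDiff.comp (g := fun y : Y N => (Tj j y : End' N))
      (Tj j : Y N →ₗ[ℂ] End' N).toContinuousLinearMap.contDiff h1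
  have h3 : ContDiff ℂ ⊤ fun a : Y N => (1 : End' N) - Tj j (pj j a - Pi.single j 1) :=
    contDiff_const.sub h2
  exact ContDiff.clm_comp contDiff_const h3

theorem differentiable_Thj {N d : ℕ} (w : Coeffs N d) (j : Fin (N + 1)) :
    Differentiable ℝ (Thj w j) := by
  have h0 : ContDiff ℂ ⊤ fun k : Coeffs N d => evalAt k (e0 N) :=
    (evL (e0 N)).toContinuousLinearMap.contDiff
  have h1 : ContDiff ℂ ⊤ fun k : Coeffs N d =>
      (((gU j (evalAt k (e0 N)))⁻¹ : (End' N)ˣ) : End' N) := (contDiff_gU_inv j).comp h0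
  have h2 : ContDiff ℂ ⊤ fun k : Coeffs N d => rm N d k :=
    (rm N d).toContinuousLinearMap.contDiff
  have h3 : ContDiff ℂ ⊤ fun k : Coeffs N d => ((1 : ℂ), (1 : End' N),
      (((gU j (evalAt k (e0 N)))⁻¹ : (End' N)ˣ) : End' N), rm N d k) :=
    contDiff_const.prodMk (contDiff_const.prodMk (h1.prodMk h2))
  have h4 : ContDiff ℂ ⊤ fun k : Coeffs N d =>
      act 1 1 (((gU j (evalAt k (e0 N)))⁻¹ : (End' N)ˣ) : End' N) (rm N d k) :=
    contDiff_act.comp h3
  have h5 : ContDiff ℂ ⊤ fun k : Coeffs N d => evalAt k (e0 N) j := contDiff_pi.mp h0 j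
  have h6 : ContDiff ℂ ⊤ fun k : Coeffs N d => (evalAt k (e0 N) j) • w :=
    h5.smul contDiff_const
  have h7 : ContDiff ℂ ⊤ (Thj w j) := h4.sub h6
  exact (h7.differentiable (by simp)).restrictScalars ℝ

theorem PL_Qj {N d : ℕ} (D : RData N d) (w : Coeffs N d) (j : Fin (N + 1)) : PL (Qj D w j) := by
  apply PL_G0 D.s (fun k : Coeffs N d => rm N d k) _
    (fun k : Coeffs N d => evalAt w (pj j (evalAt k (e0 N))))
  · intro i
    apply PL.sum
    intro α _
    apply (PL.const _).mul
    apply PL.prod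
    intro l _
    apply PL.pow
    have h : (fun k : Coeffs N d => pj j (evalAt k (e0 N)) l) =
        fun k => if l = j then 1 else evalAt k (e0 N) l := by
      funext k
      rw [pj_eq]
    rw [h]
    split_ifs
    · exact PL.const 1
    · exact PL.linear ((LinearMap.proj l).comp (evL (e0 N)))
  · intro β m
    exact PL.linear ((MtL D.s β m).comp (rm N d))

theorem continuous_Qj {N d : ℕ} (D : RData N d) (w : Coeffs N d) (j : Fin (N + 1)) :
    Continuous (Qj D w j) := by
  have h0 : Continuous fun k : Coeffs N d => evalAt k (e0 N) :=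
    (evL (e0 N)).continuous_of_finiteDimensional
  have h1 : Continuous fun k : Coeffs N d => rm N d k :=
    (rm N d).continuous_of_finiteDimensional
  have h2 : Continuous fun k : Coeffs N d => evalAt w (pj j (evalAt k (e0 N))) :=
    continuous_evalAt.comp (continuous_const.prodMk ((contDiff_pj j).continuous.comp h0))
  have h3 : Continuous fun k : Coeffs N d =>
      (rm N d k, evalAt w (pj j (evalAt k (e0 N)))) := h1.prodMk h2
  exact (continuous_G0 (d := d) D.s).comp h3

theorem exists_Qj_ne {N d : ℕ} (hd : 1 ≤ d) (D : RData N d) {t : ℂ} (ht : t ≠ 0)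
    (j : Fin (N + 1)) : ∃ k, Qj D (chC N d t 1) j k ≠ 0 := by
  classical
  set w := chC N d t 1 with hw
  -- a point with nonzero `j`-th coordinate
  have hc : Continuous fun ε : ℂ => G0 D.s (chC N d 0 1)
      (evalAt w (e0 N + ε • (Pi.single j 1 : Y N))) := by
    have h2 : Continuous fun ε : ℂ => (chC N d 0 1,
        evalAt w (e0 N + ε • (Pi.single j 1 : Y N))) := by
      have h5 : Continuous fun ε : ℂ => (w, e0 N + ε • (Pi.single j 1 : Y N)) := by fun_prop
      exact Continuous.prodMk continuous_const (continuous_evalAt.comp h5)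
    exact (continuous_G0 (d := d) D.s).comp h2
  have h0 : G0 D.s (chC N d 0 1) (evalAt w (e0 N + (0 : ℂ) • (Pi.single j 1 : Y N))) ≠ 0 := by
    rw [zero_smul, add_zero, hw, evalAt_chC_e0 hd, G0_smul_right, D.hG, mul_one]
    exact ht
  have h1 : ∀ᶠ ε in 𝓝 (0 : ℂ), G0 D.s (chC N d 0 1)
      (evalAt w (e0 N + ε • (Pi.single j 1 : Y N))) ≠ 0 := hc.continuousAt.eventually_ne h0
  have h2 : ∀ᶠ ε in 𝓝 (0 : ℂ), ε ≠ -1 :=
    continuousAt_id.eventually_ne (by simp)
  have h3 : ∀ᶠ ε in 𝓝[≠] (0 : ℂ), (G0 D.s (chC N d 0 1)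
      (evalAt w (e0 N + ε • (Pi.single j 1 : Y N))) ≠ 0 ∧ ε ≠ -1) ∧ ε ≠ 0 :=
    ((h1.and h2).filter_mono nhdsWithin_le_nhds).and self_mem_nhdsWithin
  obtain ⟨ε, ⟨hε1, hε2⟩, hε3⟩ := h3.exists
  set p : Y N := e0 N + ε • (Pi.single j 1 : Y N) with hp
  have hpj : p j ≠ 0 := by
    rw [hp, Pi.add_apply, Pi.smul_apply, Pi.single_eq_same, smul_eq_mul, mul_one]
    by_cases hj : j = 0
    · subst hj
      rw [e0, Pi.single_eq_same]
      intro h
      apply hε2
      linear_combination h
    · rw [e0, Pi.single_eq_of_ne hj, zero_add]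
      exact hε3
  let a : Y N := (p j)⁻¹ • p
  have haj : a j = 1 := inv_mul_cancel₀ hpj
  have hpa : pj j a = a := by
    funext i
    rw [pj_eq]
    split_ifs with h
    · rw [h, haj]
    · rfl
  refine ⟨chC N d 0 1 + io N d a, ?_⟩
  have hev : evalAt (chC N d 0 1 + io N d a) (e0 N) = a := by
    rw [evalAt_add, evalAt_chC_e0 hd, zero_smul, zero_add, evalAt_io]
  change G0 D.s (rm N d _) (evalAt w (pj j (evalAt _ (e0 N)))) ≠ 0
  rw [rm_apply, hev, add_sub_cancel_right, hpa, evalAt_smul_arg, G0_smul_right]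
  exact mul_ne_zero (pow_ne_zero _ (inv_ne_zero hpj)) hε1

/-- Good points are dense. -/
theorem good_dense {N d : ℕ} (hd : 1 ≤ d) (D : RData N d) {t : ℂ} (ht : t ≠ 0)
    (U : Set (Coeffs N d)) (hU : IsOpen U) (hne : U.Nonempty) :
    ∃ b ∈ U, Good D (chC N d t 1) b := by
  classical
  set w := chC N d t 1 with hw
  let μ : MeasureTheory.Measure (Coeffs N d) := MeasureTheory.Measure.addHaar
  have hnull : ∀ j, μ (Thj w j '' {k | Qj D w j k = 0}) = 0 := by
    intro j
    obtain ⟨k, hk⟩ := exists_Qj_ne hd D ht j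
    have h1 : μ {k | Qj D w j k = 0} = 0 :=
      (PL_Qj D w j).null μ (continuous_Qj D w j) k hk
    exact MeasureTheory.addHaar_image_eq_zero_of_differentiableOn_of_addHaar_eq_zero
      μ (differentiable_Thj w j).differentiableOn h1
  have h2 : μ (⋃ j, Thj w j '' {k | Qj D w j k = 0}) = 0 :=
    MeasureTheory.measure_iUnion_null hnull
  have h3 : 0 < μ U := hU.measure_pos _ hne
  have h4 : ¬ U ⊆ ⋃ j, Thj w j '' {k | Qj D w j k = 0} := by
    intro h
    have := MeasureTheory.measure_mono (μ := μ) h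
    rw [h2] at this
    exact absurd h3 (not_lt.mpr this)
  rw [Set.not_subset] at h4
  obtain ⟨b, hbU, hb⟩ := h4
  refine ⟨b, hbU, good_of_not_mem D w b ?_⟩
  intro j hj
  exact hb (Set.mem_iUnion.mpr ⟨j, hj⟩)

end Pool.Agent.Lib.Pa3f63f
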