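import Pool.Agent.Lib.Pa3f63f.Conj

open scoped BigOperators Topology

namespace Pool.Agent.Lib.Pa3f63f

attribute [local irreducible] act

/-- conjugation by `1 + A` -/
noncomputable def Th {N d : ℕ} (A : End' N) (v : Coeffs N d) : Coeffs N d :=
  act 1 (1 + A) (Ring.inverse (1 + A)) v

theorem Th_unit {N d : ℕ} (g : (End' N)ˣ) (v : Coeffs N d) : Th ((g : End' N) - 1) v = cj g v := by
  unfold Th cj
  rw [add_sub_cancel, Ring.inverse_unit]

theorem Th_zero {N d : ℕ} (v : Coeffs N d) : Th 0 v = v := by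
  have := Th_unit (1 : (End' N)ˣ) v
  rwa [Units.val_one, sub_self, cj_one] at this

theorem contDiffAt_Th {N d : ℕ} (v : Coeffs N d) :
    ContDiffAt ℂ ⊤ (fun q : End' N × Coeffs N d => Th q.1 q.2) (0, v) := by
  unfold Th
  have h0 : ContDiffAt ℂ ⊤ (fun q : End' N × Coeffs N d => 1 + q.1) (0, v) := by fun_prop
  have h1 : ContDiffAt ℂ ⊤ (Ring.inverse : End' N → End' N)
      ((fun q : End' N × Coeffs N d => 1 + q.1) (0, v)) := by
    have := contDiffAt_ringInverse ℂ (n := ⊤) (1 : (End' N)ˣ)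
    simpa using this
  have h2 : ContDiffAt ℂ ⊤ (fun q : End' N × Coeffs N d => Ring.inverse (1 + q.1)) (0, v) :=
    ContDiffAt.comp (g := Ring.inverse) (0, v) h1 h0
  have h3 : ContDiffAt ℂ ⊤ (fun q : End' N × Coeffs N d =>
      ((1 : ℂ), 1 + q.1, Ring.inverse (1 + q.1), q.2)) (0, v) :=
    contDiffAt_const.prodMk (h0.prodMk (h2.prodMk contDiffAt_snd))
  exact ContDiffAt.comp (g := fun q : ℂ × End' N × End' N × Coeffs N d =>
    act q.1 q.2.1 q.2.2.1 q.2.2.2) (0, v) contDiff_act.contDiffAt h3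

attribute [local irreducible] Th

/-- the infinitesimal action at `c` -/
noncomputable def infL {N d : ℕ} (c : Coeffs N d) : End' N →L[ℂ] Coeffs N d :=
  fderiv ℂ (fun A : End' N => Th A c) 0

theorem hasFDerivAt_Th {N d : ℕ} (c : Coeffs N d) :
    HasFDerivAt (fun A : End' N => Th A c) (infL c) 0 := by
  have h1 : ContDiffAt ℂ ⊤ (fun A : End' N => Th A c) 0 :=
    ContDiffAt.comp (g := fun q : End' N × Coeffs N d => Th q.1 q.2)
      (f := fun A : End' N => (A, c)) (0 : End' N) (contDiffAt_Th c)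
      (contDiffAt_id.prodMk contDiffAt_const)
  exact (h1.differentiableAt (by simp)).hasFDerivAt

theorem hasStrictFDerivAt_Psi {N d : ℕ} (c : Coeffs N d) :
    HasStrictFDerivAt (fun q : End' N × Coeffs N d => Th q.1 (c + q.2))
      ((infL c).coprod (ContinuousLinearMap.id ℂ (Coeffs N d))) (0, 0) := by
  have h1 : ContDiffAt ℂ ⊤ (fun q : End' N × Coeffs N d => Th q.1 (c + q.2)) (0, 0) := by
    have h2 : ContDiffAt ℂ ⊤ (fun q : End' N × Coeffs N d => (q.1, c + q.2)) (0, 0) := by
      fun_prop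
    have h3 := contDiffAt_Th (N := N) (d := d) (c + 0)
    exact ContDiffAt.comp (g := fun q : End' N × Coeffs N d => Th q.1 q.2)
      (f := fun q : End' N × Coeffs N d => (q.1, c + q.2)) (0, 0) h3 h2
  have h2 := h1.hasStrictFDerivAt (by simp)
  have h3 := h2.hasFDerivAt
  suffices hL : (infL c).coprod (ContinuousLinearMap.id ℂ (Coeffs N d)) =
      fderiv ℂ (fun q : End' N × Coeffs N d => Th q.1 (c + q.2)) (0, 0) by
    rw [hL]; exact h2
  apply ContinuousLinearMap.ext
  rintro ⟨A, w⟩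
  have e1 : HasFDerivAt (fun A : End' N => Th A c)
      ((fderiv ℂ (fun q : End' N × Coeffs N d => Th q.1 (c + q.2)) (0, 0)).comp
        (ContinuousLinearMap.inl ℂ _ _)) 0 := by
    have h4 : HasFDerivAt (fun A : End' N => ((A, 0) : End' N × Coeffs N d))
        (ContinuousLinearMap.inl ℂ _ _) 0 := by
      have := (ContinuousLinearMap.inl ℂ (End' N) (Coeffs N d)).hasFDerivAt (x := 0)
      exact this
    have h5 := HasFDerivAt.comp (0 : End' N) (g := fun q : End' N × Coeffs N d =>
      Th q.1 (c + q.2)) h3 h4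
    have h6 : ((fun q : End' N × Coeffs N d => Th q.1 (c + q.2)) ∘
        fun A : End' N => ((A, 0) : End' N × Coeffs N d)) = fun A : End' N => Th A c := by
      funext A
      simp
    rwa [h6] at h5
  have e2 : HasFDerivAt (fun w : Coeffs N d => c + w)
      ((fderiv ℂ (fun q : End' N × Coeffs N d => Th q.1 (c + q.2)) (0, 0)).comp
        (ContinuousLinearMap.inr ℂ _ _)) 0 := by
    have h4 : HasFDerivAt (fun w : Coeffs N d => ((0, w) : End' N × Coeffs N d))
        (ContinuousLinearMap.inr ℂ _ _) 0 := by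
      have := (ContinuousLinearMap.inr ℂ (End' N) (Coeffs N d)).hasFDerivAt (x := 0)
      exact this
    have h5 := HasFDerivAt.comp (0 : Coeffs N d) (g := fun q : End' N × Coeffs N d =>
      Th q.1 (c + q.2)) h3 h4
    have h6 : ((fun q : End' N × Coeffs N d => Th q.1 (c + q.2)) ∘
        fun w : Coeffs N d => ((0, w) : End' N × Coeffs N d)) = fun w : Coeffs N d => c + w := by
      funext w
      simp [Th_zero]
    rwa [h6] at h5
  have e3 := (hasFDerivAt_Th c).unique e1
  have e4 : HasFDerivAt (fun w : Coeffs N d => c + w) (ContinuousLinearMap.id ℂ _) 0 :=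
    (hasFDerivAt_id _).const_add c
  have e5 := e4.unique e2
  rw [ContinuousLinearMap.coprod_apply, e3, e5]
  have : ((A, w) : End' N × Coeffs N d) = (A, 0) + (0, w) := by simp
  conv_rhs => rw [this, map_add]
  rfl

theorem infL_cj {N d : ℕ} (g : (End' N)ˣ) (c : Coeffs N d) (A : End' N) :
    cj g (infL c A) = infL (cj g c) ((g : End' N) * A * ((g⁻¹ : (End' N)ˣ) : End' N)) := by
  let K : End' N →L[ℂ] End' N := LinearMap.toContinuousLinearMap
    { toFun := fun A => (g : End' N) * A * ((g⁻¹ : (End' N)ˣ) : End' N)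
      map_add' := fun A B => by rw [mul_add, add_mul]
      map_smul' := fun t A => by
        apply ContinuousLinearMap.ext
        intro x
        change (g : End' N) (t • A _) = t • (g : End' N) (A _)
        rw [map_smul] }
  have hK : ∀ A, K A = (g : End' N) * A * ((g⁻¹ : (End' N)ˣ) : End' N) := fun A => rfl
  let C : Coeffs N d →L[ℂ] Coeffs N d := LinearMap.toContinuousLinearMap (cjL g)
  have hC : ∀ v, C v = cj g v := fun v => rfl
  have h1 : HasFDerivAt (fun A : End' N => cj g (Th A c)) (C.comp (infL c)) 0 :=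
    HasFDerivAt.comp (0 : End' N) (g := C) C.hasFDerivAt (hasFDerivAt_Th c)
  have h2 : HasFDerivAt (fun A : End' N => Th (K A) (cj g c)) ((infL (cj g c)).comp K) 0 := by
    have h3 : HasFDerivAt (fun A : End' N => Th A (cj g c)) (infL (cj g c)) (K 0) := by
      rw [map_zero]; exact hasFDerivAt_Th _
    exact HasFDerivAt.comp (0 : End' N) (g := fun A : End' N => Th A (cj g c)) h3 K.hasFDerivAt
  have h3 : (fun A : End' N => cj g (Th A c)) =ᶠ[𝓝 0] fun A : End' N => Th (K A) (cj g c) := by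
    have h4 : ∀ᶠ A : End' N in 𝓝 0, IsUnit (1 + A) := by
      have h5 : Filter.Tendsto (fun A : End' N => 1 + A) (𝓝 0) (𝓝 (1 + 0)) :=
        (continuous_const.add continuous_id).tendsto 0
      rw [add_zero] at h5
      exact h5 (Units.nhds 1)
    filter_upwards [h4] with A hA
    obtain ⟨k, hk⟩ := hA
    have hA' : A = (k : End' N) - 1 := by rw [hk]; simp
    have hKA : K A = ((g * k * g⁻¹ : (End' N)ˣ) : End' N) - 1 := by
      rw [hK, hA', mul_sub, sub_mul, mul_one, Units.mul_inv]
      simp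
    rw [hKA, Th_unit, hA', Th_unit, ← cj_mul, ← cj_mul]
    congr 1
    group
  have h4 := (h1.congr_of_eventuallyEq h3.symm).unique h2
  have h5 := congrArg (fun f : End' N →L[ℂ] Coeffs N d => f A) h4
  exact h5

section exponential

variable {𝔸 : Type*} [NormedRing 𝔸] [NormedAlgebra ℂ 𝔸] [CompleteSpace 𝔸]

/-- the exponential as a unit -/
noncomputable def eU (A : 𝔸) : 𝔸ˣ :=
  letI : NormedAlgebra ℚ 𝔸 := NormedAlgebra.restrictScalars ℚ ℂ 𝔸
  ⟨NormedSpace.exp A, NormedSpace.exp (-A), by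
    rw [← NormedSpace.exp_add_of_commute (Commute.neg_right (Commute.refl A)), add_neg_cancel,
      NormedSpace.exp_zero], by
    rw [← NormedSpace.exp_add_of_commute (Commute.neg_left (Commute.refl A)), neg_add_cancel,
      NormedSpace.exp_zero]⟩

theorem eU_val (A : 𝔸) : ((eU A : 𝔸ˣ) : 𝔸) = NormedSpace.exp A := rfl

theorem eU_add (A : 𝔸) (s t : ℂ) : eU ((s + t) • A) = eU (s • A) * eU (t • A) := by
  let _ : NormedAlgebra ℚ 𝔸 := NormedAlgebra.restrictScalars ℚ ℂ 𝔸
  apply Units.ext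
  rw [Units.val_mul, eU_val, eU_val, eU_val, add_smul]
  apply NormedSpace.exp_add_of_commute
  exact ((Commute.refl A).smul_left s).smul_right t

theorem eU_zero_smul (A : 𝔸) : eU ((0 : ℂ) • A) = 1 := by
  apply Units.ext
  rw [eU_val]
  simp

theorem hasDerivAt_exp_sub_one (A : 𝔸) :
    HasDerivAt (fun s : ℂ => NormedSpace.exp (s • A) - 1) A 0 := by
  have := (hasDerivAt_exp_smul_const (𝕂 := ℂ) A 0).sub_const 1
  simpa using this

omit [CompleteSpace 𝔸] in
theorem exp_zero_smul_sub_one (A : 𝔸) : NormedSpace.exp ((0 : ℂ) • A) - 1 = 0 := by simp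

theorem eq_zero_of_eU_bounded (A : 𝔸) (C : ℝ) (h : ∀ t : ℂ, ‖((eU (t • A) : 𝔸ˣ) : 𝔸)‖ ≤ C) :
    A = 0 := by
  have hexp : ∀ t : ℂ, HasDerivAt (fun u : ℂ => NormedSpace.exp (u • A))
      (NormedSpace.exp (t • A) * A) t := hasDerivAt_exp_smul_const A
  have hL : ∀ t : ℂ, NormedSpace.exp (t • A) = NormedSpace.exp ((0 : ℂ) • A) := by
    intro t
    apply Differentiable.apply_eq_apply_of_bounded
      (f := fun t : ℂ => NormedSpace.exp (t • A)) (fun t => (hexp t).differentiableAt)
    rw [isBounded_iff_forall_norm_le]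
    refine ⟨C, ?_⟩
    rintro _ ⟨t, rfl⟩
    exact h t
  have h1 : HasDerivAt (fun u : ℂ => NormedSpace.exp (u • A)) 0 0 := by
    have : (fun u : ℂ => NormedSpace.exp (u • A)) = fun _ => NormedSpace.exp ((0 : ℂ) • A) :=
      funext hL
    rw [this]
    exact hasDerivAt_const _ _
  have h2 := (hexp 0).unique h1
  simpa using h2

end exponential

theorem infL_injective {N d : ℕ} (hd : 2 ≤ d) {c : Coeffs N d} (hc : c ∈ EndCone N d) :
    Function.Injective (infL c) := by
  rw [injective_iff_map_eq_zero]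
  intro A hA
  let f : ℂ → Coeffs N d := fun t => cj (eU (t • A)) c
  have h0 : HasDerivAt (fun s : ℂ => Th (NormedSpace.exp (s • A) - 1) c) 0 0 := by
    have h1 := hasDerivAt_exp_sub_one A
    have h2 : HasFDerivAt (fun A : End' N => Th A c) (infL c)
        (NormedSpace.exp ((0 : ℂ) • A) - 1) := by
      rw [exp_zero_smul_sub_one A]; exact hasFDerivAt_Th c
    have h3 := HasFDerivAt.comp_hasDerivAt (0 : ℂ) h2 h1
    rw [hA] at h3
    exact h3
  have hf : ∀ t, HasDerivAt f 0 t := by
    intro t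
    let C : Coeffs N d →L[ℂ] Coeffs N d := LinearMap.toContinuousLinearMap (cjL (eU (t • A)))
    have h1 : HasDerivAt (fun s : ℂ => C (Th (NormedSpace.exp (s • A) - 1) c)) (C 0) 0 :=
      HasFDerivAt.comp_hasDerivAt (0 : ℂ) C.hasFDerivAt h0
    rw [map_zero] at h1
    have h2 : (fun s : ℂ => C (Th (NormedSpace.exp (s • A) - 1) c)) = fun s => f (t + s) := by
      funext s
      change cj (eU (t • A)) (Th (((eU (s • A) : (End' N)ˣ) : End' N) - 1) c) =
        cj (eU ((t + s) • A)) c
      rw [Th_unit, eU_add, cj_mul]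
    rw [h2] at h1
    have h3 : HasDerivAt (fun s : ℂ => f (t + s)) 0 (t - t) := by rwa [sub_self]
    have h4 := h3.comp_sub_const t t
    simpa using h4
  have hconst : ∀ t : ℂ, cj (eU (t • A)) c = c := by
    intro t
    have h1 := is_const_of_deriv_eq_zero (fun t => (hf t).differentiableAt)
      (fun t => (hf t).deriv) t 0
    have h2 : f 0 = c := by
      change cj (eU ((0 : ℂ) • A)) c = c
      rw [eU_zero_smul, cj_one]
    rw [h2] at h1
    exact h1
  obtain ⟨m, M, hm, hM, hb, -⟩ := exists_bounds hc hc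
  have hb1 := hb.self_of_nhds
  have hb2 : ∀ x, ‖evalAt c x‖ ≤ M * ‖x‖ ^ d := fun x => (hb1 x).2
  have hb3 : ∀ x, m * ‖x‖ ^ d ≤ ‖evalAt c x‖ := fun x => (hb1 x).1
  have hb4 : ∀ t : ℂ, ‖((eU (t • A) : (End' N)ˣ) : End' N)‖ ≤ max 1 (M / m) := by
    intro t
    exact cj_bound hd hm hM hb2 hb3 (hconst t)
  exact eq_zero_of_eU_bounded A _ hb4

end Pool.Agent.Lib.Pa3f63f
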