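import Pool.Agent.Lib.Pa3f63f.Paths

open scoped BigOperators Topology unitInterval

namespace Pool.Agent.Lib.Pa3f63f

attribute [local irreducible] act G0

/-- diagonal maps -/
noncomputable def dg {N : ℕ} : Y N →ₗ[ℂ] End' N where
  toFun a := ContinuousLinearMap.pi fun i => a i • ContinuousLinearMap.proj i
  map_add' a b := by
    apply ContinuousLinearMap.ext
    intro x
    funext i
    change (a i + b i) * x i = a i * x i + b i * x i
    ring
  map_smul' t a := by
    apply ContinuousLinearMap.ext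
    intro x
    funext i
    change (t * a i) * x i = t * (a i * x i)
    ring

theorem dg_apply {N : ℕ} (a x : Y N) (i : Fin (N + 1)) : dg a x i = a i * x i := rfl

/-- invertible diagonal maps -/
noncomputable def dgU {N : ℕ} (a : Y N) (ha : ∀ i, a i ≠ 0) : (End' N)ˣ where
  val := dg a
  inv := dg fun i => (a i)⁻¹
  val_inv := by
    apply ContinuousLinearMap.ext
    intro x
    funext i
    change a i * ((a i)⁻¹ * x i) = x i
    rw [← mul_assoc, mul_inv_cancel₀ (ha i), one_mul]
  inv_val := by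
    apply ContinuousLinearMap.ext
    intro x
    funext i
    change (a i)⁻¹ * (a i * x i) = x i
    rw [← mul_assoc, inv_mul_cancel₀ (ha i), one_mul]

theorem evalAt_cj_dgU {N d : ℕ} (a : Y N) (ha : ∀ i, a i ≠ 0) (c : Coeffs N d) (x : Y N)
    (j : Fin (N + 1)) :
    evalAt (cj (dgU a ha) c) x j = a j * evalAt c (fun i => (a i)⁻¹ * x i) j := by
  rw [evalAt_cj]
  rfl

/-- The chain maps are morphisms. -/
theorem chC_mem_cone {N d : ℕ} (hN : 1 ≤ N) (hd : 2 ≤ d) {a b : ℂ} (ha : a ≠ 0) (hb : b ≠ 0) :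
    chC N d a b ∈ EndCone N d := by
  intro x hx h
  apply hx
  have hj : ∀ j : Fin (N + 1), (if j = 0 then a * x 0 ^ d + b * MvPolynomial.eval x (nxP N d 0)
      else x 0 ^ (d - 1) * x j + MvPolynomial.eval x (nxP N d j)) = 0 := by
    intro j
    rw [← evalAt_chC (by omega), h]; rfl
  by_cases h0 : x 0 = 0
  · -- then all coordinates vanish
    have key : ∀ (k : ℕ) (hk : k < N + 1), x ⟨k, hk⟩ = 0 := by
      intro k
      induction k with
      | zero => intro hk; exact h0
      | succ k ih =>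
        intro hk
        have h1 := hj ⟨k, by omega⟩
        have h2 : MvPolynomial.eval x (nxP N d ⟨k, by omega⟩) = x ⟨k + 1, hk⟩ ^ d := by
          rw [eval_nxP, dif_pos (by simpa using hk)]
        by_cases hk0 : k = 0
        · subst hk0
          rw [if_pos (by rfl)] at h1
          have h3 : MvPolynomial.eval x (nxP N d 0) = x ⟨0 + 1, hk⟩ ^ d := h2
          rw [h0, zero_pow (by omega), mul_zero, zero_add, h3] at h1
          rcases mul_eq_zero.mp h1 with h4 | h4
          · exact absurd h4 hb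
          · exact eq_zero_of_pow_eq_zero h4
        · rw [if_neg (by
            intro h5
            have := congrArg Fin.val h5
            exact hk0 (by simpa using this)), h0, zero_pow (by omega), zero_mul, zero_add,
            h2] at h1
          exact eq_zero_of_pow_eq_zero h1
    funext i
    exact key i.1 i.2
  · -- then the other coordinates vanish, contradiction
    exfalso
    have key : ∀ (k : ℕ) (j : Fin (N + 1)), j ≠ 0 → j.val + k = N → x j = 0 := by
      intro k
      induction k with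
      | zero =>
        intro j hj0 hjk
        have h1 := hj j
        rw [if_neg hj0, eval_nxP, dif_neg (by omega), add_zero] at h1
        exact (mul_eq_zero.mp h1).resolve_left (pow_ne_zero _ h0)
      | succ k ih =>
        intro j hj0 hjk
        have h1 := hj j
        have hlt : j.val + 1 < N + 1 := by omega
        have h2 : x ⟨j.val + 1, hlt⟩ = 0 := ih _ (by
          intro h5
          have := congrArg Fin.val h5
          simp at this) (by simp only; omega)
        rw [if_neg hj0, eval_nxP, dif_pos hlt, h2, zero_pow (by omega), add_zero] at h1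
        exact (mul_eq_zero.mp h1).resolve_left (pow_ne_zero _ h0)
    have h1 := hj 0
    have hlt : (0 : Fin (N + 1)).val + 1 < N + 1 := by simp only [Fin.val_zero]; omega
    have h2 : x ⟨(0 : Fin (N + 1)).val + 1, hlt⟩ = 0 := key (N - 1) _ (by
      intro h5
      have := congrArg Fin.val h5
      simp at this) (by simp only [Fin.val_zero]; omega)
    rw [if_pos rfl, eval_nxP, dif_pos hlt, h2, zero_pow (by omega), mul_zero, add_zero] at h1
    rcases mul_eq_zero.mp h1 with h4 | h4
    · exact ha h4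
    · exact h0 (eq_zero_of_pow_eq_zero h4)

/-- `[f_{u,1}] = [f_{u,u}]` -/
theorem chC_conj {N d : ℕ} (hN : 1 ≤ N) (hd : 2 ≤ d) {u : ℂ} (hu : u ≠ 0) :
    ∃ g : (End' N)ˣ, cj g (chC N d u 1) = chC N d u u := by
  obtain ⟨τ, hτ⟩ := IsAlgClosed.exists_pow_nat_eq u⁻¹ (n := d ^ N) (by positivity)
  have hτ0 : τ ≠ 0 := by
    rintro rfl
    rw [zero_pow (by positivity)] at hτ
    exact inv_ne_zero hu hτ.symm
  let a : Y N := fun i => if i = 0 then 1 else τ ^ (d ^ (N - i.val))
  have ha : ∀ i, a i ≠ 0 := by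
    intro i
    simp only [a]
    split_ifs
    · exact one_ne_zero
    · exact pow_ne_zero _ hτ0
  refine ⟨dgU a ha, ?_⟩
  apply ext_evalAt
  intro x
  funext j
  rw [evalAt_cj_dgU, evalAt_chC (by omega), evalAt_chC (by omega)]
  have ha0 : a 0 = 1 := if_pos rfl
  have hnx : ∀ j : Fin (N + 1), MvPolynomial.eval (fun i => (a i)⁻¹ * x i) (nxP N d j) =
      (if h : j.val + 1 < N + 1 then (τ ^ (d ^ (N - j.val)))⁻¹ * x ⟨j.val + 1, h⟩ ^ d else 0) := by
    intro j
    rw [eval_nxP]
    split_ifs with h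
    · have h1 : a ⟨j.val + 1, h⟩ = τ ^ (d ^ (N - (j.val + 1))) := by
        simp only [a]
        rw [if_neg]
        intro h5
        have := congrArg Fin.val h5
        simp at this
      rw [h1, mul_pow, inv_pow, ← pow_mul, ← pow_succ]
      congr 4
      omega
    · rfl
  by_cases hj : j = 0
  · subst hj
    rw [if_pos rfl, if_pos rfl, hnx, ha0, eval_nxP]
    have hlt : (0 : Fin (N + 1)).val + 1 < N + 1 := by simp only [Fin.val_zero]; omega
    rw [dif_pos hlt, dif_pos hlt]
    have h1 : τ ^ (d ^ (N - (0 : Fin (N + 1)).val)) = u⁻¹ := by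
      simpa using hτ
    rw [h1, inv_inv]
    ring
  · rw [if_neg hj, if_neg hj, hnx, ha0, eval_nxP]
    have h1 : a j = τ ^ (d ^ (N - j.val)) := if_neg hj
    rw [h1]
    have h2 : τ ^ (d ^ (N - j.val)) ≠ 0 := pow_ne_zero _ hτ0
    split_ifs with h
    · field_simp
    · field_simp
      ring

/-- the Fermat (power) map -/
noncomputable def fermat (N d : ℕ) : Coeffs N d :=
  fun j α => MvPolynomial.coeff (toF α) (MvPolynomial.X j ^ d : MvPolynomial (Fin (N + 1)) ℂ)

theorem evalAt_fermat {N d : ℕ} (x : Y N) (j : Fin (N + 1)) :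
    evalAt (fermat N d) x j = x j ^ d := by
  rw [evalAt_apply]
  have h1 : (MvPolynomial.X j ^ d : MvPolynomial (Fin (N + 1)) ℂ).IsHomogeneous d := by
    simpa using (MvPolynomial.isHomogeneous_X ℂ j).pow d
  have h2 : toPoly (fermat N d j) = MvPolynomial.X j ^ d := toPoly_coeff h1
  rw [h2]
  simp

theorem fermat_mem_cone {N d : ℕ} : fermat N d ∈ EndCone N d := by
  intro x hx h
  apply hx
  funext j
  have := congrFun h j
  rw [evalAt_fermat] at this
  exact eq_zero_of_pow_eq_zero this

/-- multiplication of the first coordinate by `u` -/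
noncomputable def fm (N : ℕ) (u : ℂ) : Y N := fun i => if i = 0 then u else 1

theorem fm_ne {N : ℕ} {u : ℂ} (hu : u ≠ 0) (i : Fin (N + 1)) : fm N u i ≠ 0 := by
  unfold fm
  split_ifs
  · exact hu
  · exact one_ne_zero

theorem act_fm_mem {N d : ℕ} {u : ℂ} (hu : u ≠ 0) {c : Coeffs N d} (hc : c ∈ EndCone N d) :
    act 1 (dg (fm N u)) 1 c ∈ EndCone N d :=
  act_mem_cone one_ne_zero (dgU (fm N u) (fm_ne hu)).inv_mul (mul_one _) hc

theorem chC_fm {N d : ℕ} (hd : 1 ≤ d) (u : ℂ) :
    act 1 (dg (fm N u)) 1 (chC N d 1 1) = chC N d u u := by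
  apply ext_evalAt
  intro x
  funext j
  rw [evalAt_act, one_smul, dg_apply, one_apply_eq_self, evalAt_chC hd,
    evalAt_chC hd]
  unfold fm
  by_cases hj : j = 0
  · subst hj
    rw [if_pos rfl, if_pos rfl, if_pos rfl]; ring
  · rw [if_neg hj, if_neg hj, if_neg hj, one_mul]

theorem fermat_fm {N d : ℕ} (hd : 2 ≤ d) {u : ℂ} (hu : u ≠ 0) : ∃ g : (End' N)ˣ,
    cj g (act 1 (dg (fm N u)) 1 (fermat N d)) = fermat N d := by
  obtain ⟨τ, hτ⟩ := IsAlgClosed.exists_pow_nat_eq u (n := d - 1) (by omega)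
  have hτ0 : τ ≠ 0 := by
    rintro rfl
    rw [zero_pow (by omega)] at hτ
    exact hu hτ.symm
  refine ⟨dgU (fm N τ) (fm_ne hτ0), ?_⟩
  apply ext_evalAt
  intro x
  funext j
  rw [evalAt_cj_dgU, evalAt_act, one_smul, dg_apply, one_apply_eq_self,
    evalAt_fermat, evalAt_fermat]
  unfold fm
  by_cases hj : j = 0
  · subst hj
    rw [if_pos rfl, if_pos rfl, ← hτ, mul_pow]
    have h1 : τ ^ d = τ ^ (d - 1) * τ := by
      rw [← pow_succ]; congr 1; omega
    rw [inv_pow, h1]
    have h2 : τ ^ (d - 1) ≠ 0 := pow_ne_zero _ hτ0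
    field_simp
  · rw [if_neg hj, if_neg hj, one_mul, one_mul, inv_one, one_mul]

/-- loops in the moduli space coming from loops in the cone -/
noncomputable def loopM {N d : ℕ} (f : C(Circle, Coeffs N d)) (hf : ∀ u, f u ∈ EndCone N d) :
    C(Circle, Moduli N d) :=
  ⟨fun u => proj ⟨f u, hf u⟩, continuous_proj.comp (f.continuous.subtype_mk hf)⟩

theorem homotopic_loopM {N d : ℕ} (F : C(I × Circle, Coeffs N d))
    (hF : ∀ p, F p ∈ EndCone N d) (f g : C(Circle, Coeffs N d)) (hf : ∀ u, f u ∈ EndCone N d)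
    (hg : ∀ u, g u ∈ EndCone N d) (h0 : ∀ u, F (0, u) = f u) (h1 : ∀ u, F (1, u) = g u) :
    (loopM f hf).Homotopic (loopM g hg) := by
  refine ⟨⟨⟨fun p => proj ⟨F p, hF p⟩, continuous_proj.comp (F.continuous.subtype_mk hF)⟩,
    ?_, ?_⟩⟩
  · intro u
    change proj _ = proj _
    congr 1
    exact Subtype.ext (h0 u)
  · intro u
    change proj _ = proj _
    congr 1
    exact Subtype.ext (h1 u)

theorem nullhomotopic_of_homotopic {X Y : Type*} [TopologicalSpace X] [TopologicalSpace Y]
    {f g : C(X, Y)} (h : f.Homotopic g) (hg : g.Nullhomotopic) : f.Nullhomotopic := by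
  obtain ⟨y, hy⟩ := hg
  exact ⟨y, h.trans hy⟩

/-- the loop `u ↦ f_{u,1}` -/
noncomputable def stdLoop (N d : ℕ) : C(Circle, Coeffs N d) :=
  ⟨fun u => chC N d 0 1 + (u : ℂ) • v0 N d, by fun_prop⟩

theorem stdLoop_apply {N d : ℕ} (u : Circle) : stdLoop N d u = chC N d u 1 :=
  (chC_line (u : ℂ)).symm

theorem stdLoop_mem {N d : ℕ} (hN : 1 ≤ N) (hd : 2 ≤ d) (u : Circle) :
    stdLoop N d u ∈ EndCone N d := by
  rw [stdLoop_apply]
  exact chC_mem_cone hN hd (Circle.coe_ne_zero u) one_ne_zero

/-- The standard meridian is null-homotopic in the moduli space. -/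
theorem nullhomotopic_std {N d : ℕ} (hN : 1 ≤ N) (hd : 2 ≤ d) (D : RData N d) :
    (loopM (stdLoop N d) (stdLoop_mem hN hd)).Nullhomotopic := by
  have h11 : chC N d 1 1 ∈ EndCone N d := chC_mem_cone hN hd one_ne_zero one_ne_zero
  obtain ⟨κ, hκ⟩ := (isPathConnected_cone (by omega) D).joinedIn _ h11 _
    (fermat_mem_cone (N := N) (d := d))
  have hfm : Continuous fun p : I × Circle => (dg (fm N (p.2 : ℂ)) : End' N) := by
    have h1 : Continuous (dg : Y N →ₗ[ℂ] End' N) := LinearMap.continuous_of_finiteDimensional _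
    have h2 : Continuous fun p : I × Circle => fm N (p.2 : ℂ) := by
      apply continuous_pi
      intro i
      unfold fm
      split_ifs
      · exact continuous_subtype_val.comp continuous_snd
      · exact continuous_const
    exact h1.comp h2
  have hFc : Continuous fun p : I × Circle => act 1 (dg (fm N (p.2 : ℂ))) 1 (κ p.1) :=
    continuous_act.comp (continuous_const.prodMk (hfm.prodMk (continuous_const.prodMk
      (κ.continuous.comp continuous_fst))))
  let F : C(I × Circle, Coeffs N d) := ⟨_, hFc⟩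
  have hF : ∀ p, F p ∈ EndCone N d := fun p => act_fm_mem (Circle.coe_ne_zero p.2) (hκ p.1)
  let G : C(I × Circle, Moduli N d) :=
    ⟨fun p => proj ⟨F p, hF p⟩, continuous_proj.comp (F.continuous.subtype_mk hF)⟩
  refine ⟨proj ⟨fermat N d, fermat_mem_cone⟩, ⟨⟨G, ?_, ?_⟩⟩⟩
  · intro u
    change proj _ = proj _
    symm
    rw [proj_eq_iff, rel_iff_cj hd]
    change ∃ g : (End' N)ˣ, cj g (stdLoop N d u) = act 1 (dg (fm N (u : ℂ))) 1 (κ 0)
    rw [κ.source, chC_fm (by omega), stdLoop_apply]
    exact chC_conj hN hd (Circle.coe_ne_zero u)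
  · intro u
    change proj _ = proj _
    rw [proj_eq_iff, rel_iff_cj hd]
    change ∃ g : (End' N)ˣ, cj g (act 1 (dg (fm N (u : ℂ))) 1 (κ 1)) = fermat N d
    rw [κ.target]
    exact fermat_fm hd (Circle.coe_ne_zero u)

end Pool.Agent.Lib.Pa3f63f
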