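import Pool.Agent.Lib.Pa3f63f.Merid

open scoped BigOperators Topology unitInterval

namespace Pool.Agent.Lib.Pa3f63f

attribute [local irreducible] act G0

/-- the loop `u ↦ k + r u v` -/
noncomputable def merLoop {N d : ℕ} (k v : Coeffs N d) (r : ℝ) : C(Circle, Coeffs N d) :=
  ⟨fun u => k + ((r : ℂ) * (u : ℂ)) • v, by fun_prop⟩

theorem merLoop_apply {N d : ℕ} (k v : Coeffs N d) (r : ℝ) (u : Circle) :
    merLoop k v r u = k + ((r : ℂ) * (u : ℂ)) • v := rfl

theorem PL_G0' {N d : ℕ} (D : RData N d) :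
    PL fun q : Coeffs N d × Coeffs N d => G0 D.s q.1 (evalAt q.2 (e0 N)) := by
  apply PL_G0 D.s (fun q : Coeffs N d × Coeffs N d => q.1) _
    (fun q : Coeffs N d × Coeffs N d => evalAt q.2 (e0 N))
  · intro j
    exact PL.linear ((LinearMap.proj j).comp ((evL (e0 N)).comp
      (LinearMap.snd ℂ (Coeffs N d) (Coeffs N d))))
  · intro β m
    exact PL.linear ((MtL D.s β m).comp (LinearMap.fst ℂ (Coeffs N d) (Coeffs N d)))

theorem nullhomotopic_merid {N d : ℕ} (hN : 1 ≤ N) (hd : 2 ≤ d) (D : RData N d)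
    (k v : Coeffs N d) (hk : evalAt k (e0 N) = 0) (hG : G0 D.s k (evalAt v (e0 N)) ≠ 0) :
    ∃ r₀ : ℝ, 0 < r₀ ∧ ∀ r : ℝ, 0 < r → r < r₀ →
      ∃ hmem : ∀ u, merLoop k v r u ∈ EndCone N d, (loopM (merLoop k v r) hmem).Nullhomotopic := by
  have hG' : G0 D.s (chC N d 0 1) (evalAt (v0 N d) (e0 N)) ≠ 0 := by
    rw [evalAt_v0_e0, D.hG]; exact one_ne_zero
  obtain ⟨α, hα⟩ := (PL_G0' D).exists_path (k, v) (chC N d 0 1, v0 N d) hG hG'
  let K : I → Coeffs N d := fun t => k + α t • (chC N d 0 1 - k)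
  let W : I → Coeffs N d := fun t => v + α t • (v0 N d - v)
  have hK : Continuous K := by fun_prop
  have hW : Continuous W := by fun_prop
  have hα' : ∀ t, G0 D.s (K t) (evalAt (W t) (e0 N)) ≠ 0 := hα
  have hK0 : ∀ t, evalAt (K t) (e0 N) = 0 := by
    intro t
    simp only [K]
    rw [evalAt_add, hk, evalAt_smul, evalAt_sub, hk, evalAt_chC_e0 (by omega), zero_smul]
    simp
  have hpair : Continuous fun q : ℂ × I => (K q.2 + q.1 • W q.2, evalAt (W q.2) (e0 N)) := by
    apply Continuous.prodMk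
    · exact (hK.comp continuous_snd).add (continuous_fst.smul (hW.comp continuous_snd))
    · exact continuous_evalAt.comp ((hW.comp continuous_snd).prodMk continuous_const)
  have hcont : Continuous fun q : ℂ × I => G0 D.s (K q.2 + q.1 • W q.2)
      (evalAt (W q.2) (e0 N)) := (continuous_G0 (d := d) D.s).comp hpair
  have hev : ∀ᶠ z in 𝓝 (0 : ℂ), ∀ t ∈ (Set.univ : Set I),
      G0 D.s (K t + z • W t) (evalAt (W t) (e0 N)) ≠ 0 := by
    apply isCompact_univ.eventually_forall_of_forall_eventually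
    intro t _
    apply hcont.continuousAt.eventually_ne
    simp only [zero_smul, add_zero]
    exact hα' t
  obtain ⟨r₀, hr₀, hball⟩ := Metric.eventually_nhds_iff.mp hev
  refine ⟨r₀, hr₀, ?_⟩
  intro r hr hrr
  have hnorm : ∀ u : Circle, dist ((r : ℂ) * (u : ℂ)) 0 < r₀ := by
    intro u
    rw [dist_zero_right, norm_mul, Circle.norm_coe, mul_one, Complex.norm_real,
      Real.norm_of_nonneg hr.le]
    exact hrr
  have hne : ∀ u : Circle, (r : ℂ) * (u : ℂ) ≠ 0 := fun u =>
    mul_ne_zero (by exact_mod_cast hr.ne') (Circle.coe_ne_zero u)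
  have hmem : ∀ (t : I) (u : Circle), K t + ((r : ℂ) * (u : ℂ)) • W t ∈ EndCone N d := by
    intro t u
    apply mem_cone_of_RR D
    rw [RR_line D _ _ (hK0 t)]
    exact mul_ne_zero (hne u) (hball (hnorm u) t trivial)
  have e0' : K 0 = k ∧ W 0 = v := by
    simp [K, W]
  have e1' : K 1 = chC N d 0 1 ∧ W 1 = v0 N d := by
    simp [K, W]
  have hm0 : ∀ u, merLoop k v r u ∈ EndCone N d := by
    intro u
    have := hmem 0 u
    rw [e0'.1, e0'.2] at this
    exact this
  have hm1 : ∀ u, merLoop (chC N d 0 1) (v0 N d) r u ∈ EndCone N d := by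
    intro u
    have := hmem 1 u
    rw [e1'.1, e1'.2] at this
    exact this
  refine ⟨hm0, ?_⟩
  -- first homotopy
  have F1c : Continuous fun p : I × Circle => K p.1 + ((r : ℂ) * (p.2 : ℂ)) • W p.1 := by
    apply Continuous.add (hK.comp continuous_fst)
    exact (continuous_const.mul (continuous_subtype_val.comp continuous_snd)).smul
      (hW.comp continuous_fst)
  have H1 := homotopic_loopM ⟨_, F1c⟩ (fun p => hmem p.1 p.2) (merLoop k v r)
    (merLoop (chC N d 0 1) (v0 N d) r) hm0 hm1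
    (fun u => by
      change K 0 + _ • W 0 = _
      rw [e0'.1, e0'.2]; rfl)
    (fun u => by
      change K 1 + _ • W 1 = _
      rw [e1'.1, e1'.2]; rfl)
  -- second homotopy
  have F2c : Continuous fun p : I × Circle => chC N d 0 1 +
      (((((1 - (p.1 : ℝ)) * r + (p.1 : ℝ) : ℝ) : ℂ)) * (p.2 : ℂ)) • v0 N d := by
    apply continuous_const.add
    apply Continuous.fun_smul _ continuous_const
    apply Continuous.mul
    · apply Complex.continuous_ofReal.comp
      fun_prop
    · exact continuous_subtype_val.comp continuous_snd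
  have F2m : ∀ p : I × Circle, chC N d 0 1 +
      (((((1 - (p.1 : ℝ)) * r + (p.1 : ℝ) : ℝ) : ℂ)) * (p.2 : ℂ)) • v0 N d ∈ EndCone N d := by
    intro p
    rw [← chC_line]
    apply chC_mem_cone hN hd _ one_ne_zero
    apply mul_ne_zero _ (Circle.coe_ne_zero p.2)
    have h1 : 0 < (1 - (p.1 : ℝ)) * r + (p.1 : ℝ) := by
      have h2 := p.1.2.1
      have h3 := p.1.2.2
      rcases eq_or_lt_of_le h2 with h4 | h4
      · rw [← h4]; simpa using hr
      · have : 0 ≤ (1 - (p.1 : ℝ)) * r := mul_nonneg (by linarith) hr.le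
        linarith
    exact_mod_cast h1.ne'
  have H2 := homotopic_loopM ⟨_, F2c⟩ F2m (merLoop (chC N d 0 1) (v0 N d) r) (stdLoop N d)
    hm1 (stdLoop_mem hN hd)
    (fun u => by
      change chC N d 0 1 + (((((1 - ((0 : I) : ℝ)) * r + ((0 : I) : ℝ) : ℝ) : ℂ)) *
        (u : ℂ)) • v0 N d = chC N d 0 1 + _
      simp)
    (fun u => by
      change chC N d 0 1 + (((((1 - ((1 : I) : ℝ)) * r + ((1 : I) : ℝ) : ℝ) : ℂ)) *
        (u : ℂ)) • v0 N d = chC N d 0 1 + _
      simp)
  exact nullhomotopic_of_homotopic (H1.trans H2) (nullhomotopic_std hN hd D)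

/-- The same with a general common zero. -/
theorem nullhomotopic_merid' {N d : ℕ} (hN : 1 ≤ N) (hd : 2 ≤ d) (D : RData N d)
    (k v : Coeffs N d) (g : (End' N)ˣ) (hk : evalAt k ((g : End' N) (e0 N)) = 0)
    (hG : G0 D.s (act 1 1 (g : End' N) k) (evalAt v ((g : End' N) (e0 N))) ≠ 0) :
    ∃ r₀ : ℝ, 0 < r₀ ∧ ∀ r : ℝ, 0 < r → r < r₀ →
      ∃ hmem : ∀ u, merLoop k v r u ∈ EndCone N d, (loopM (merLoop k v r) hmem).Nullhomotopic := by
  have hev : ∀ (c : Coeffs N d) (x : Y N), evalAt (act 1 1 (g : End' N) c) x =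
      evalAt c ((g : End' N) x) := by
    intro c x
    rw [evalAt_act, one_smul, one_apply_eq_self]
  obtain ⟨r₀, hr₀, h⟩ := nullhomotopic_merid hN hd D (act 1 1 (g : End' N) k)
    (act 1 1 (g : End' N) v) (by rw [hev, hk]) (by rw [hev]; exact hG)
  refine ⟨r₀, hr₀, ?_⟩
  intro r hr hrr
  obtain ⟨hm', hnull⟩ := h r hr hrr
  have hlin : ∀ u, merLoop (act 1 1 (g : End' N) k) (act 1 1 (g : End' N) v) r u =
      act 1 1 (g : End' N) (merLoop k v r u) := by
    intro u
    rw [merLoop_apply, merLoop_apply, act_add, act_smul]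
  have hm : ∀ u, merLoop k v r u ∈ EndCone N d := by
    intro u
    have h1 := hm' u
    rw [hlin] at h1
    have h2 := act_mem_cone (s := 1) (g := 1) (h := ((g⁻¹ : (End' N)ˣ) : End' N)) (g' := 1)
      (h' := (g : End' N)) one_ne_zero (mul_one _) (Units.mul_inv g) h1
    rw [act_act, one_mul, one_mul, Units.mul_inv, act_one] at h2
    exact h2
  refine ⟨hm, ?_⟩
  obtain ⟨κ⟩ := units_path g
  have hκc : Continuous fun p : I × Circle => ((κ p.1 : (End' N)ˣ) : End' N) :=
    Units.continuous_val.comp (κ.continuous.comp continuous_fst)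
  have Fc : Continuous fun p : I × Circle =>
      act 1 1 ((κ p.1 : (End' N)ˣ) : End' N) (merLoop k v r p.2) :=
    continuous_act.comp (continuous_const.prodMk (continuous_const.prodMk (hκc.prodMk
      ((merLoop k v r).continuous.comp continuous_snd))))
  have Fm : ∀ p : I × Circle, act 1 1 ((κ p.1 : (End' N)ˣ) : End' N) (merLoop k v r p.2) ∈
      EndCone N d := by
    intro p
    exact act_mem_cone (s := 1) (g := 1) (g' := 1)
      (h' := (((κ p.1)⁻¹ : (End' N)ˣ) : End' N)) one_ne_zero (mul_one _)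
      (Units.inv_mul (κ p.1)) (hm p.2)
  have H := homotopic_loopM ⟨_, Fc⟩ Fm (merLoop k v r)
    (merLoop (act 1 1 (g : End' N) k) (act 1 1 (g : End' N) v) r) hm hm'
    (fun u => by
      change act 1 1 ((κ 0 : (End' N)ˣ) : End' N) (merLoop k v r u) = _
      rw [κ.source, Units.val_one, act_one])
    (fun u => by
      change act 1 1 ((κ 1 : (End' N)ˣ) : End' N) (merLoop k v r u) = _
      rw [κ.target, hlin])
  exact nullhomotopic_of_homotopic H hnull

/-- A point is good if all meridians of the lines through it and `w` can be controlled. -/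
def Good {N d : ℕ} (D : RData N d) (w b : Coeffs N d) : Prop :=
  ∀ ζ : ℂ, b + ζ • w ∉ EndCone N d → ∃ g : (End' N)ˣ,
    evalAt (b + ζ • w) ((g : End' N) (e0 N)) = 0 ∧
    G0 D.s (act 1 1 (g : End' N) (b + ζ • w)) (evalAt w ((g : End' N) (e0 N))) ≠ 0

/-- the line through `b` and `w` -/
noncomputable def ln {N d : ℕ} (b w : Coeffs N d) (z : ℂ) : Coeffs N d := (1 - z) • b + z • w

theorem ln_zero {N d : ℕ} (b w : Coeffs N d) : ln b w 0 = b := by simp [ln]

theorem ln_one {N d : ℕ} (b w : Coeffs N d) : ln b w 1 = w := by simp [ln]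

theorem ln_add {N d : ℕ} (b w : Coeffs N d) (z z' : ℂ) :
    ln b w (z + z') = ln b w z + z' • (w - b) := by
  unfold ln
  module

theorem line_merid {N d : ℕ} (hN : 1 ≤ N) (hd : 2 ≤ d) (D : RData N d) {w b : Coeffs N d}
    (hw : w ∈ EndCone N d) (hb : Good D w b) {z₁ : ℂ} (hz : ln b w z₁ ∉ EndCone N d) :
    ∃ r₀ : ℝ, 0 < r₀ ∧ ∀ r : ℝ, 0 < r → r < r₀ →
      ∃ hmem : ∀ u, merLoop (ln b w z₁) (w - b) r u ∈ EndCone N d,
        (loopM (merLoop (ln b w z₁) (w - b) r) hmem).Nullhomotopic := by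
  have hz1 : 1 - z₁ ≠ 0 := by
    intro h
    have : z₁ = 1 := by linear_combination -h
    rw [this, ln_one] at hz
    exact hz hw
  set ζ : ℂ := z₁ / (1 - z₁) with hζ
  have hln : ln b w z₁ = (1 - z₁) • (b + ζ • w) := by
    unfold ln
    rw [smul_add, smul_smul, hζ, mul_div_cancel₀ _ hz1]
  have hbad : b + ζ • w ∉ EndCone N d := by
    intro h
    apply hz
    rw [hln]
    exact smul_mem_cone hz1 h
  obtain ⟨g, hg0, hgG⟩ := hb ζ hbad
  apply nullhomotopic_merid' hN hd D _ _ g
  · rw [hln, evalAt_smul, hg0, smul_zero]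
  · have h1 : evalAt b ((g : End' N) (e0 N)) = -ζ • evalAt w ((g : End' N) (e0 N)) := by
      rw [evalAt_add, evalAt_smul] at hg0
      rw [neg_smul]
      exact eq_neg_of_add_eq_zero_left hg0
    have h2 : evalAt (w - b) ((g : End' N) (e0 N)) =
        (1 - z₁)⁻¹ • evalAt w ((g : End' N) (e0 N)) := by
      rw [evalAt_sub, h1, neg_smul, sub_neg_eq_add]
      have : (1 - z₁)⁻¹ = 1 + ζ := by
        rw [hζ]; field_simp; ring
      rw [this, add_smul, one_smul]
    rw [h2, hln, act_smul, G0_smul_right]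
    exact mul_ne_zero (inv_ne_zero hz1) (G0_smul_left D.s _ _ hz1 _ hgG)

end Pool.Agent.Lib.Pa3f63f
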