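import Mathlib

open scoped Topology BigOperators

namespace Pool.Agent.Lib.Pa3f63f

/-- `f` is polynomial along complex lines. -/
def PL {V : Type*} [AddCommGroup V] [Module ℂ V] (f : V → ℂ) : Prop :=
  ∀ x v, ∃ q : Polynomial ℂ, ∀ z : ℂ, f (x + z • v) = q.eval z

section

variable {V : Type*} [AddCommGroup V] [Module ℂ V]

theorem PL.const (a : ℂ) : PL fun _ : V => a := fun _ _ => ⟨Polynomial.C a, by simp⟩

theorem PL.add {f g : V → ℂ} (hf : PL f) (hg : PL g) : PL fun x => f x + g x := by
  intro x v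
  obtain ⟨p, hp⟩ := hf x v
  obtain ⟨q, hq⟩ := hg x v
  exact ⟨p + q, fun z => by beta_reduce; rw [hp, hq, Polynomial.eval_add]⟩

theorem PL.mul {f g : V → ℂ} (hf : PL f) (hg : PL g) : PL fun x => f x * g x := by
  intro x v
  obtain ⟨p, hp⟩ := hf x v
  obtain ⟨q, hq⟩ := hg x v
  exact ⟨p * q, fun z => by beta_reduce; rw [hp, hq, Polynomial.eval_mul]⟩

theorem PL.pow {f : V → ℂ} (hf : PL f) (n : ℕ) : PL fun x => f x ^ n := by
  intro x v
  obtain ⟨p, hp⟩ := hf x v
  exact ⟨p ^ n, fun z => by beta_reduce; rw [hp, Polynomial.eval_pow]⟩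

theorem PL.sum {ι : Type*} (s : Finset ι) {f : ι → V → ℂ} (hf : ∀ i ∈ s, PL (f i)) :
    PL fun x => ∑ i ∈ s, f i x := by
  classical
  induction s using Finset.induction_on with
  | empty => simpa using PL.const 0
  | insert a s ha ih =>
    simp only [Finset.sum_insert ha]
    exact (hf a (Finset.mem_insert_self a s)).add
      (ih fun i hi => hf i (Finset.mem_insert_of_mem hi))

theorem PL.prod {ι : Type*} (s : Finset ι) {f : ι → V → ℂ} (hf : ∀ i ∈ s, PL (f i)) :
    PL fun x => ∏ i ∈ s, f i x := by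
  classical
  induction s using Finset.induction_on with
  | empty => simpa using PL.const 1
  | insert a s ha ih =>
    simp only [Finset.prod_insert ha]
    exact (hf a (Finset.mem_insert_self a s)).mul
      (ih fun i hi => hf i (Finset.mem_insert_of_mem hi))

theorem PL.linear (L : V →ₗ[ℂ] ℂ) : PL fun x => L x := by
  intro x v
  refine ⟨Polynomial.C (L x) + Polynomial.X * Polynomial.C (L v), fun z => ?_⟩
  beta_reduce
  rw [map_add, map_smul, smul_eq_mul, Polynomial.eval_add, Polynomial.eval_C,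
    Polynomial.eval_mul, Polynomial.eval_X, Polynomial.eval_C]

theorem PL.det {n : Type*} [Fintype n] [DecidableEq n] {M : V → Matrix n n ℂ}
    (hM : ∀ i j, PL fun x => M x i j) : PL fun x => (M x).det := by
  have h : (fun x => (M x).det) = fun x => ∑ τ : Equiv.Perm n,
      ((Equiv.Perm.sign τ : ℤ) : ℂ) * ∏ i, M x (τ i) i := by
    funext x
    rw [Matrix.det_apply']
  rw [h]
  apply PL.sum
  intro τ _
  apply PL.mul (PL.const _)
  apply PL.prod
  intro i _
  exact hM _ _

theorem PL.comp_linear {V' : Type*} [AddCommGroup V'] [Module ℂ V'] {f : V' → ℂ} (hf : PL f)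
    (L : V →ₗ[ℂ] V') (a : V') : PL fun x => f (L x + a) := by
  intro x v
  obtain ⟨q, hq⟩ := hf (L x + a) (L v)
  refine ⟨q, fun z => ?_⟩
  beta_reduce
  rw [← hq z, map_add, map_smul]
  congr 1
  abel

theorem PL.finite_zeros {f : V → ℂ} (hf : PL f) (x y : V) (hx : f x ≠ 0) :
    {z : ℂ | f (y + z • (x - y)) = 0}.Finite := by
  obtain ⟨q, hq⟩ := hf y (x - y)
  have hq0 : q ≠ 0 := by
    rintro rfl
    have := hq 1
    rw [one_smul, add_sub_cancel, Polynomial.eval_zero] at this
    exact hx this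
  apply (q.roots.toFinset.finite_toSet).subset
  intro z hz
  simp only [Finset.mem_coe, Multiset.mem_toFinset, Polynomial.mem_roots hq0,
    Polynomial.IsRoot.def]
  rw [← hq z]
  exact hz

theorem PL.finite_zeros' {f : V → ℂ} (hf : PL f) (x v : V) (z₀ : ℂ) (hx : f (x + z₀ • v) ≠ 0) :
    {z : ℂ | f (x + z • v) = 0}.Finite := by
  obtain ⟨q, hq⟩ := hf x v
  have hq0 : q ≠ 0 := by
    rintro rfl
    have := hq z₀
    rw [Polynomial.eval_zero] at this
    exact hx this
  apply (q.roots.toFinset.finite_toSet).subset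
  intro z hz
  simp only [Finset.mem_coe, Multiset.mem_toFinset, Polynomial.mem_roots hq0,
    Polynomial.IsRoot.def]
  rw [← hq z]
  exact hz

/-- Two points of a Zariski-open set are joined by a path inside a complex line. -/
theorem PL.exists_path {f : V → ℂ} (hf : PL f) (x y : V) (hx : f x ≠ 0) (hy : f y ≠ 0) :
    ∃ α : Path (0 : ℂ) 1, ∀ t, f (x + α t • (y - x)) ≠ 0 := by
  have h1 : IsPathConnected {z : ℂ | f (x + z • (y - x)) = 0}ᶜ := by
    apply (hf.finite_zeros y x hy).countable.isPathConnected_compl_of_one_lt_rank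
    rw [Complex.rank_real_complex]
    exact Cardinal.one_lt_two
  obtain ⟨α, hα⟩ := h1.joinedIn 0 (by simpa using hx) 1 (by simpa using hy)
  exact ⟨α, hα⟩

end

/-- The zero set of a function polynomial along lines is a null set, unless it is everything. -/
theorem PL.null {V : Type*} [NormedAddCommGroup V] [NormedSpace ℂ V] [NormedSpace ℝ V]
    [IsScalarTower ℝ ℂ V]
    [FiniteDimensional ℝ V] [MeasurableSpace V] [BorelSpace V] (μ : MeasureTheory.Measure V)
    [μ.IsAddHaarMeasure] {f : V → ℂ} (hf : PL f) (hfc : Continuous f) (x₀ : V)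
    (hx₀ : f x₀ ≠ 0) : μ {x | f x = 0} = 0 := by
  -- translate
  let g : V → ℂ := fun x => f (x₀ + x)
  have hgc : Continuous g := hfc.comp (continuous_const.add continuous_id)
  have hg0 : g 0 ≠ 0 := by simpa [g] using hx₀
  have hsec : ∀ x : V, {t : ℝ | g (t • x) = 0}.Finite := by
    intro x
    have h1 : {z : ℂ | f (x₀ + z • x) = 0}.Finite :=
      hf.finite_zeros' x₀ x 0 (by simpa using hx₀)
    have h2 := h1.preimage (f := fun t : ℝ => (t : ℂ)) (Complex.ofReal_injective.injOn)
    apply h2.subset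
    intro t ht
    have h3 : ((t : ℂ)) • x = t • x := by
      rw [← algebraMap_smul ℂ t x]
      rfl
    simp only [Set.mem_preimage, Set.mem_ofPred_eq, h3]
    exact ht
  let T : Set (V × ℝ) := {p | g (p.2 • p.1) = 0}
  have hT : MeasurableSet T := by
    apply IsClosed.measurableSet
    apply isClosed_eq _ continuous_const
    exact hgc.comp (continuous_snd.smul continuous_fst)
  have h1 : (μ.prod MeasureTheory.volume) T = 0 := by
    rw [MeasureTheory.Measure.measure_prod_null hT]
    apply Filter.Eventually.of_forall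
    intro x
    exact (hsec x).measure_zero _
  have h2 : (MeasureTheory.volume.prod μ) (Prod.swap ⁻¹' T : Set (ℝ × V)) = 0 := by
    rw [← MeasureTheory.Measure.prod_swap, MeasureTheory.Measure.map_apply measurable_swap
      (measurable_swap hT)]
    exact h1
  have h3 := MeasureTheory.Measure.measure_ae_null_of_prod_null h2
  have h4 : ∃ t : ℝ, t ≠ 0 ∧ μ (Prod.mk t ⁻¹' (Prod.swap ⁻¹' T : Set (ℝ × V))) = 0 := by
    have h5 : ∀ᵐ t : ℝ, t ≠ 0 := by
      have : MeasureTheory.volume ({0} : Set ℝ) = 0 := MeasureTheory.measure_singleton 0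
      exact MeasureTheory.measure_eq_zero_iff_ae_notMem.mp this
    obtain ⟨t, ht, ht'⟩ := (h5.and h3).exists
    exact ⟨t, ht, ht'⟩
  obtain ⟨t, ht0, ht⟩ := h4
  have h6 : (Prod.mk t ⁻¹' (Prod.swap ⁻¹' T : Set (ℝ × V))) =
      (fun x : V => t • x) ⁻¹' {x | g x = 0} := rfl
  rw [h6, MeasureTheory.Measure.addHaar_preimage_smul μ ht0] at ht
  have h7 : μ {x | g x = 0} = 0 := by
    rcases mul_eq_zero.mp ht with h | h
    · exfalso
      rw [ENNReal.ofReal_eq_zero] at h
      have : 0 < |(t ^ Module.finrank ℝ V)⁻¹| := by positivity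
      linarith
    · exact h
  have h8 : {x | f x = 0} = (fun x => -x₀ + x) ⁻¹' {x | g x = 0} := by
    ext x
    simp [g]
  rw [h8, MeasureTheory.measure_preimage_add]
  exact h7

end Pool.Agent.Lib.Pa3f63f
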