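import Mathlib

open scoped Topology unitInterval

namespace Pool.Agent.Lib.Pa3f63f

/-- The boundary of a continuous square. -/
theorem square {Y : Type*} [TopologicalSpace Y] (F : C(I × I, Y)) {a b c d : Y}
    (p : Path a b) (q : Path b d) (r : Path a c) (s : Path c d)
    (hp : ∀ t, F (t, 0) = p t) (hq : ∀ t, F (1, t) = q t) (hr : ∀ t, F (0, t) = r t)
    (hs : ∀ t, F (t, 1) = s t) : (p.trans q).Homotopic (r.trans s) := by
  let π : ℝ × ℝ → I × I := Prod.map (Set.projIcc 0 1 zero_le_one) (Set.projIcc 0 1 zero_le_one)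
  have hπ : Continuous π := continuous_projIcc.prodMap continuous_projIcc
  have hπI : ∀ (x y : I), π ((x : ℝ), (y : ℝ)) = (x, y) := by
    intro x y
    simp [π]
  let G : C(ℝ × ℝ, Y) := ⟨F ∘ π, F.continuous.comp hπ⟩
  have hG : ∀ (x y : I), G ((x : ℝ), (y : ℝ)) = F (x, y) := by
    intro x y
    change F (π _) = _
    rw [hπI]
  let P : Path (((0 : ℝ), (0 : ℝ)) : ℝ × ℝ) (((1 : ℝ), (0 : ℝ)) : ℝ × ℝ) :=
    ⟨⟨fun t => ((t : ℝ), 0), by fun_prop⟩, by simp, by simp⟩
  let Q : Path (((1 : ℝ), (0 : ℝ)) : ℝ × ℝ) (((1 : ℝ), (1 : ℝ)) : ℝ × ℝ) :=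
    ⟨⟨fun t => (1, (t : ℝ)), by fun_prop⟩, by simp, by simp⟩
  let R : Path (((0 : ℝ), (0 : ℝ)) : ℝ × ℝ) (((0 : ℝ), (1 : ℝ)) : ℝ × ℝ) :=
    ⟨⟨fun t => (0, (t : ℝ)), by fun_prop⟩, by simp, by simp⟩
  let S : Path (((0 : ℝ), (1 : ℝ)) : ℝ × ℝ) (((1 : ℝ), (1 : ℝ)) : ℝ × ℝ) :=
    ⟨⟨fun t => ((t : ℝ), 1), by fun_prop⟩, by simp, by simp⟩
  have h := (SimplyConnectedSpace.paths_homotopic (P.trans Q) (R.trans S)).map G
  have ha : a = G ((0 : ℝ), (0 : ℝ)) := by
    have h1 := hG 0 0
    have h2 := hp 0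
    rw [p.source] at h2
    rw [← h2, ← h1]; simp
  have hb : b = G ((1 : ℝ), (0 : ℝ)) := by
    have h1 := hG 1 0
    have h2 := hp 1
    rw [p.target] at h2
    rw [← h2, ← h1]; simp
  have hc : c = G ((0 : ℝ), (1 : ℝ)) := by
    have h1 := hG 0 1
    have h2 := hr 1
    rw [r.target] at h2
    rw [← h2, ← h1]; simp
  have hd : d = G ((1 : ℝ), (1 : ℝ)) := by
    have h1 := hG 1 1
    have h2 := hs 1
    rw [s.target] at h2
    rw [← h2, ← h1]; simp
  have h' := h.pathCast ha hd
  have e1 : ((P.trans Q).map G.continuous).cast ha hd = p.trans q := by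
    rw [Path.map_trans, Path.cast_trans _ _ ha hb hd]
    congr 1
    · ext t
      change G ((t : ℝ), 0) = p t
      have := hG t 0
      rw [← hp t, ← this]; simp
    · ext t
      change G (1, (t : ℝ)) = q t
      have := hG 1 t
      rw [← hq t, ← this]; simp
  have e2 : ((R.trans S).map G.continuous).cast ha hd = r.trans s := by
    rw [Path.map_trans, Path.cast_trans _ _ ha hc hd]
    congr 1
    · ext t
      change G (0, (t : ℝ)) = r t
      have := hG 0 t
      rw [← hr t, ← this]; simp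
    · ext t
      change G ((t : ℝ), 1) = s t
      have := hG t 1
      rw [← hs t, ← this]; simp
  rw [e1, e2] at h'
  exact h'

/-- Local-to-global principle for classes of paths to a base point. -/
theorem local_to_global {X Y : Type*} [TopologicalSpace X] [TopologicalSpace Y] (f : C(X, Y))
    (y₀ : Y) (C : ∀ x, Path.Homotopic.Quotient (f x) y₀)
    (hloc : ∀ x, ∃ U ∈ 𝓝 x, ∀ (a b : X) (γ : Path a b), (∀ t, γ t ∈ U) →
      (Path.Homotopic.Quotient.mk (γ.map f.continuous)).trans (C b) = C a)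
    (a b : X) (γ : Path a b) :
    (Path.Homotopic.Quotient.mk (γ.map f.continuous)).trans (C b) = C a := by
  choose U hU hUC using hloc
  obtain ⟨t, ht0, htm, ⟨n, hn⟩, hcov⟩ := exists_monotone_Icc_subset_open_cover_unitInterval
    (c := fun x : X => γ ⁻¹' interior (U x))
    (fun x => isOpen_interior.preimage γ.continuous) (by
      intro s _
      rw [Set.mem_iUnion]
      exact ⟨γ s, mem_interior_iff_mem_nhds.mpr (hU (γ s))⟩)
  have key : ∀ m, (Path.Homotopic.Quotient.mk ((γ.subpath 0 (t m)).map f.continuous)).trans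
      (C (γ (t m))) = C (γ 0) := by
    intro m
    induction m with
    | zero =>
      rw [ht0]
      apply hUC (γ 0)
      intro s
      rw [Path.subpath_self]
      exact mem_of_mem_nhds (hU (γ 0))
    | succ m ih =>
      obtain ⟨x, hx⟩ := hcov m
      have h1 := hUC x _ _ (γ.subpath (t m) (t (m + 1))) (by
        intro s
        have h2 : γ.subpath (t m) (t (m + 1)) s ∈ Set.range (γ.subpath (t m) (t (m + 1))) :=
          ⟨s, rfl⟩
        rw [Path.range_subpath_of_le _ _ _ (htm (Nat.le_succ m))] at h2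
        obtain ⟨r, hr, hr'⟩ := h2
        rw [← hr']
        exact interior_subset (hx hr))
      have h2 : Path.Homotopic.Quotient.mk ((γ.subpath 0 (t (m + 1))).map f.continuous) =
          (Path.Homotopic.Quotient.mk ((γ.subpath 0 (t m)).map f.continuous)).trans
          (Path.Homotopic.Quotient.mk ((γ.subpath (t m) (t (m + 1))).map f.continuous)) := by
        rw [← Path.Homotopic.Quotient.mk_trans, ← Path.map_trans]
        exact (Path.Homotopic.Quotient.eq.mpr
          (Path.Homotopic.map ⟨Path.Homotopy.subpathTransSubpath γ 0 (t m) (t (m + 1))⟩ f)).symm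
      rw [h2, Path.Homotopic.Quotient.trans_assoc, h1, ih]
  have h1 := key n
  rw [hn n le_rfl, Path.subpath_zero_one] at h1
  have h2 : ∀ (a' b' : X) (ha : a' = a) (hb : b' = b),
      (Path.Homotopic.Quotient.mk ((γ.cast ha hb).map f.continuous)).trans (C b') = C a' →
      (Path.Homotopic.Quotient.mk (γ.map f.continuous)).trans (C b) = C a := by
    intro a' b' ha hb
    subst ha hb
    intro h
    exact h
  exact h2 _ _ _ _ h1

/-- Two paths with the same end points inside a subset that contracts in the ambient space are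
homotopic. -/
theorem homotopic_of_contraction {Y : Type*} [TopologicalSpace Y] (U : Set Y)
    (H : U × I → Y) (hH : Continuous H) (hH0 : ∀ u, H (u, 0) = u) (y₀ : Y)
    (hH1 : ∀ u, H (u, 1) = y₀) {a b : Y} (p q : Path a b) (hp : ∀ t, p t ∈ U)
    (hq : ∀ t, q t ∈ U) : p.Homotopic q := by
  have ha : a ∈ U := by have := hp 0; rwa [p.source] at this
  have hb : b ∈ U := by have := hp 1; rwa [p.target] at this
  let r : Path a y₀ := ⟨⟨fun t => H (⟨a, ha⟩, t), by fun_prop⟩, hH0 _, hH1 _⟩
  let s : Path b y₀ := ⟨⟨fun t => H (⟨b, hb⟩, t), by fun_prop⟩, hH0 _, hH1 _⟩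
  have key : ∀ p : Path a b, (∀ t, p t ∈ U) → (p.trans s).Homotopic r := by
    intro p hp
    have hc : Continuous fun x : I × I => H (⟨p x.1, hp x.1⟩, x.2) :=
      hH.comp (((p.continuous.comp continuous_fst).subtype_mk _).prodMk continuous_snd)
    have h1 := square ⟨fun x : I × I => H (⟨p x.1, hp x.1⟩, x.2), hc⟩ p s r (Path.refl y₀)
      (fun t => hH0 _) (fun t => by
        change H (⟨p 1, hp 1⟩, t) = H (⟨b, hb⟩, t)
        congr 2
        exact Subtype.ext p.target) (fun t => by
        change H (⟨p 0, hp 0⟩, t) = H (⟨a, ha⟩, t)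
        congr 2
        exact Subtype.ext p.source) (fun t => hH1 _)
    exact h1.trans ⟨Path.Homotopy.transRefl r⟩
  have h1 := (key p hp).trans (key q hq).symm
  rw [← Path.Homotopic.Quotient.eq] at h1 ⊢
  rw [Path.Homotopic.Quotient.mk_trans, Path.Homotopic.Quotient.mk_trans] at h1
  have h2 := congrArg (fun z => Path.Homotopic.Quotient.trans z
    (Path.Homotopic.Quotient.mk s).symm) h1
  simp only [Path.Homotopic.Quotient.trans_assoc, Path.Homotopic.Quotient.trans_symm,
    Path.Homotopic.Quotient.trans_refl] at h2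
  exact h2

end Pool.Agent.Lib.Pa3f63f
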