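import Pool.Agent.Lib.Pa3f63f.Res
import Pool.Agent.Lib.Pa3f63f.Conj
import Pool.Agent.Lib.Pa3f63f.Fill
import Pool.Agent.Lib.Pa3f63f.Topo

open scoped BigOperators Topology unitInterval

namespace Pool.Agent.Lib.Pa3f63f

attribute [local irreducible] act G0

/-- the determinant of an endomorphism -/
noncomputable def dt {N : ℕ} (A : End' N) : ℂ := (LinearMap.toMatrix' (A : Y N →ₗ[ℂ] Y N)).det

theorem PL_dt {N : ℕ} : PL (dt : End' N → ℂ) := by
  classical
  apply PL.det (M := fun A : End' N => LinearMap.toMatrix' (A : Y N →ₗ[ℂ] Y N))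
  intro i j
  let L : End' N →ₗ[ℂ] ℂ :=
    { toFun := fun A => A (Pi.single j 1) i
      map_add' := fun A B => rfl
      map_smul' := fun t A => rfl }
  have := PL.linear L
  convert this using 1
  funext A
  rw [LinearMap.toMatrix'_apply]
  rfl

theorem isUnit_of_dt {N : ℕ} {A : End' N} (h : dt A ≠ 0) : IsUnit A := by
  have h1 : IsUnit (LinearMap.toMatrix' (A : Y N →ₗ[ℂ] Y N)) :=
    (Matrix.isUnit_iff_isUnit_det _).mpr (isUnit_iff_ne_zero.mpr h)
  obtain ⟨B, hAB, hBA⟩ := isUnit_iff_exists.mp h1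
  rw [isUnit_iff_exists]
  refine ⟨LinearMap.toContinuousLinearMap (Matrix.toLin' B), ?_, ?_⟩
  · apply ContinuousLinearMap.ext
    intro x
    change (A : Y N →ₗ[ℂ] Y N) (Matrix.toLin' B x) = x
    have := congrArg Matrix.toLin' hAB
    rw [Matrix.toLin'_mul, Matrix.toLin'_toMatrix', Matrix.toLin'_one] at this
    exact LinearMap.congr_fun this x
  · apply ContinuousLinearMap.ext
    intro x
    change Matrix.toLin' B ((A : Y N →ₗ[ℂ] Y N) x) = x
    have := congrArg Matrix.toLin' hBA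
    rw [Matrix.toLin'_mul, Matrix.toLin'_toMatrix', Matrix.toLin'_one] at this
    exact LinearMap.congr_fun this x

theorem dt_of_unit {N : ℕ} (g : (End' N)ˣ) : dt (g : End' N) ≠ 0 := by
  have h1 : ((g : End' N) : Y N →ₗ[ℂ] Y N) * (((g⁻¹ : (End' N)ˣ) : End' N) : Y N →ₗ[ℂ] Y N) = 1 := by
    apply LinearMap.ext
    intro x
    exact congrArg (fun f : End' N => f x) (Units.mul_inv g)
  have h2 := congrArg (fun f => (LinearMap.toMatrix' f).det) h1
  simp only [LinearMap.toMatrix'_mul, Matrix.det_mul, LinearMap.toMatrix'_one,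
    Matrix.det_one] at h2
  exact left_ne_zero_of_mul_eq_one h2

/-- The group of invertible linear maps is path connected. -/
theorem units_path {N : ℕ} (g : (End' N)ˣ) : Nonempty (Path (1 : (End' N)ˣ) g) := by
  have h1 : dt (1 : End' N) ≠ 0 := by
    have := dt_of_unit (1 : (End' N)ˣ)
    rwa [Units.val_one] at this
  obtain ⟨α, hα⟩ := PL_dt.exists_path (1 : End' N) (g : End' N) h1 (dt_of_unit g)
  have hu := fun t => isUnit_of_dt (hα t)
  refine ⟨⟨⟨fun t => (hu t).unit, ?_⟩, ?_, ?_⟩⟩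
  · rw [(Units.isOpenEmbedding_val (R := End' N)).isInducing.continuous_iff]
    change Continuous fun t => (1 : End' N) + α t • ((g : End' N) - 1)
    exact continuous_const.add (α.continuous.smul continuous_const)
  · apply Units.ext
    change (1 : End' N) + α 0 • ((g : End' N) - 1) = 1
    rw [α.source]
    have : (0 : ℂ) • ((g : End' N) - 1) = 0 := zero_smul ℂ ((g : End' N) - 1)
    rw [this, add_zero]
  · apply Units.ext
    change (1 : End' N) + α 1 • ((g : End' N) - 1) = g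
    rw [α.target]
    have : (1 : ℂ) • ((g : End' N) - 1) = (g : End' N) - 1 := one_smul ℂ ((g : End' N) - 1)
    rw [this, add_sub_cancel]

/-- The algebraic data used to detect the complement of the cone. -/
structure RData (N d : ℕ) where
  /-- the degree -/
  e : ℕ
  /-- the multipliers -/
  s : Mono N e → Fin (N + 1) → MvPolynomial (Fin (N + 1)) ℂ
  hde : d ≤ e
  hom : ∀ m j, (s m j).IsHomogeneous (e - d)
  hG : G0 s (chC N d 0 1) (e0 N) = 1

theorem nonempty_RData {N d : ℕ} (hN : 1 ≤ N) (hd : 2 ≤ d) : Nonempty (RData N d) := by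
  obtain ⟨e, hde, s, h1, h2, h3, -⟩ := exists_syz hN hd
  exact ⟨⟨e, s, hde, h1, G0_chain (by omega) s h2 h3⟩⟩

/-- the resultant-like polynomial -/
noncomputable def RR {N d : ℕ} (D : RData N d) (f : Coeffs N d) : ℂ := (Mt D.s f).det

theorem mem_cone_of_RR {N d : ℕ} (D : RData N d) {f : Coeffs N d} (h : RR D f ≠ 0) :
    f ∈ EndCone N d := fun p hp hf => h (det_Mt_eq_zero D.s D.hde D.hom f p hp hf)

theorem PL_RR {N d : ℕ} (D : RData N d) : PL (RR D) := PL_det_Mt D.s

theorem continuous_RR {N d : ℕ} (D : RData N d) : Continuous (RR D) := continuous_det_Mt D.s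

theorem RR_line {N d : ℕ} (D : RData N d) (k v : Coeffs N d) (hk : evalAt k (e0 N) = 0) (z : ℂ) :
    RR D (k + z • v) = z * G0 D.s (k + z • v) (evalAt v (e0 N)) :=
  det_Mt_line D.s D.hde D.hom k v hk z

theorem chC_line {N d : ℕ} (z : ℂ) : chC N d z 1 = chC N d 0 1 + z • v0 N d := by
  have := chC_add (N := N) (d := d) 0 z 1
  rwa [zero_add] at this

/-- a good base point -/
theorem exists_base {N d : ℕ} (hd : 1 ≤ d) (D : RData N d) : ∃ t : ℂ, t ≠ 0 ∧
    RR D (chC N d t 1) ≠ 0 := by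
  have h0 : Continuous fun z : ℂ => (chC N d 0 1 + z • v0 N d, e0 N) := by fun_prop
  have h1 : Continuous fun z : ℂ => G0 D.s (chC N d 0 1 + z • v0 N d) (e0 N) :=
    (continuous_G0 (d := d) D.s).comp h0
  have h2 : G0 D.s (chC N d 0 1 + (0 : ℂ) • v0 N d) (e0 N) ≠ 0 := by
    rw [zero_smul, add_zero, D.hG]
    exact one_ne_zero
  have h3 : ∀ᶠ z in 𝓝 (0 : ℂ), G0 D.s (chC N d 0 1 + z • v0 N d) (e0 N) ≠ 0 :=
    h1.continuousAt.eventually_ne h2
  have h4 : ∀ᶠ z in 𝓝[≠] (0 : ℂ), G0 D.s (chC N d 0 1 + z • v0 N d) (e0 N) ≠ 0 ∧ z ≠ 0 :=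
    (h3.filter_mono nhdsWithin_le_nhds).and self_mem_nhdsWithin
  obtain ⟨t, ht, ht0⟩ := h4.exists
  refine ⟨t, ht0, ?_⟩
  rw [chC_line, RR_line D _ _ (by rw [evalAt_chC_e0 hd, zero_smul]), evalAt_v0_e0]
  exact mul_ne_zero ht0 ht

/-- Points off the zero set of `RR` are dense. -/
theorem exists_near {N d : ℕ} (D : RData N d) {w : Coeffs N d} (hw : RR D w ≠ 0)
    (U : Set (Coeffs N d)) (hU : IsOpen U) {c : Coeffs N d} (hc : c ∈ U) :
    ∃ c' ∈ U, RR D c' ≠ 0 := by
  have hfin := (PL_RR D).finite_zeros w c hw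
  have hdense : Dense {z : ℂ | RR D (c + z • (w - c)) = 0}ᶜ :=
    hfin.countable.dense_compl ℂ
  have hcont : Continuous fun z : ℂ => c + z • (w - c) := by fun_prop
  obtain ⟨z, hz, hz'⟩ := hdense.inter_open_nonempty _ (hU.preimage hcont)
    ⟨0, by simpa using hc⟩
  exact ⟨_, hz, hz'⟩

theorem isPathConnected_cone {N d : ℕ} (hd : 1 ≤ d) (D : RData N d) :
    IsPathConnected (EndCone N d) := by
  obtain ⟨t, -, hw⟩ := exists_base hd D
  set w := chC N d t 1
  refine ⟨w, mem_cone_of_RR D hw, ?_⟩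
  intro c hc
  obtain ⟨ε, hε, hball⟩ := Metric.isOpen_iff.mp (isOpen_cone N d) c hc
  obtain ⟨c', hc', hR⟩ := exists_near D hw _ Metric.isOpen_ball (Metric.mem_ball_self hε (x := c))
  have h1 : JoinedIn (EndCone N d) c' c := by
    apply JoinedIn.mono _ hball
    exact ((convex_ball c ε).isPathConnected ⟨c, Metric.mem_ball_self hε⟩).joinedIn _ hc' _
      (Metric.mem_ball_self hε)
  obtain ⟨α, hα⟩ := (PL_RR D).exists_path w c' hw hR
  have h2 : JoinedIn (EndCone N d) w c' := by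
    refine ⟨⟨⟨fun s => w + α s • (c' - w), by fun_prop⟩, by simp, by simp⟩, ?_⟩
    intro s
    exact mem_cone_of_RR D (hα s)
  exact h2.trans h1

end Pool.Agent.Lib.Pa3f63f
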