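import Pool.Agent.Lib.Pa3f63f.Cone

open scoped BigOperators Topology

namespace Pool.Agent.Lib.Pa3f63f

theorem opNorm_le_of_pow {N : ℕ} (g : End' N) (d : ℕ) (hd : d ≠ 0) (C : ℝ) (hC : 0 ≤ C)
    (h : ∀ x, ‖g x‖ ^ d ≤ C * ‖x‖ ^ d) : ‖g‖ ^ d ≤ C := by
  have h1 : ‖g‖ ≤ C ^ ((d : ℝ)⁻¹) := by
    apply ContinuousLinearMap.opNorm_le_bound _ (by positivity)
    intro x
    have h2 := h x
    have h3 : ‖g x‖ ^ d ≤ (C ^ ((d : ℝ)⁻¹) * ‖x‖) ^ d := by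
      rw [mul_pow, Real.rpow_inv_natCast_pow hC hd]
      exact h2
    exact (pow_le_pow_iff_left₀ (norm_nonneg _) (by positivity) hd).mp h3
  calc ‖g‖ ^ d ≤ (C ^ ((d : ℝ)⁻¹)) ^ d := pow_le_pow_left₀ (norm_nonneg _) h1 _
    _ = C := Real.rpow_inv_natCast_pow hC hd

/-- The basic properness estimate, for normalised `g`. -/
theorem proper_estimate {N d : ℕ} (hd : 2 ≤ d) {c c' : Coeffs N d} {m M : ℝ} (hm : 0 < m)
    (hM : 0 < M) (h1 : ∀ x, m * ‖x‖ ^ d ≤ ‖evalAt c x‖) (h2 : ∀ x, ‖evalAt c x‖ ≤ M * ‖x‖ ^ d)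
    (h1' : ∀ x, m * ‖x‖ ^ d ≤ ‖evalAt c' x‖) (h2' : ∀ x, ‖evalAt c' x‖ ≤ M * ‖x‖ ^ d)
    {s : ℂ} {g h : End' N} (hs : s ≠ 0) (hgh : g * h = 1) (hhg : h * g = 1)
    (hg1 : ‖g‖ = 1) (hact : act s g h c = c') :
    m / M ≤ ‖s‖ ∧ ‖s‖ ≤ M / m ∧ ‖h‖ ≤ (M / m) ^ 2 ∧ 1 ≤ ‖h‖ := by
  have hd0 : d ≠ 0 := by omega
  have key : ∀ x, evalAt c' (g x) = s • g (evalAt c x) := by
    intro x
    rw [← hact, evalAt_act]
    have : h (g x) = x := congrArg (fun f : End' N => f x) hhg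
    rw [this]
  have hsn : 0 < ‖s‖ := norm_pos_iff.mpr hs
  have hh1 : 1 ≤ ‖h‖ := by
    have : ‖(1 : End' N)‖ ≤ ‖g‖ * ‖h‖ := by
      rw [← hgh]; exact norm_mul_le _ _
    rw [hg1, one_mul, norm_one] at this
    exact this
  have hh0 : 0 < ‖h‖ := by linarith
  have a1 : ‖g‖ ^ d ≤ ‖s‖ * M / m := by
    apply opNorm_le_of_pow g d hd0 _ (by positivity)
    intro x
    have e1 := h1' (g x)
    rw [key, norm_smul] at e1
    have e2 : ‖g (evalAt c x)‖ ≤ ‖evalAt c x‖ := by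
      have := g.le_opNorm (evalAt c x)
      rwa [hg1, one_mul] at this
    have e3 := h2 x
    rw [div_mul_eq_mul_div, le_div_iff₀ hm]
    calc ‖g x‖ ^ d * m = m * ‖g x‖ ^ d := mul_comm _ _
      _ ≤ ‖s‖ * ‖g (evalAt c x)‖ := e1
      _ ≤ ‖s‖ * (M * ‖x‖ ^ d) := by
          apply mul_le_mul_of_nonneg_left (e2.trans e3) (norm_nonneg _)
      _ = ‖s‖ * M * ‖x‖ ^ d := by ring
  rw [hg1, one_pow] at a1
  have b1 : m / M ≤ ‖s‖ := by
    rw [div_le_iff₀ hM]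
    rw [le_div_iff₀ hm] at a1
    linarith
  have a2 : ‖h‖ ^ d ≤ M * ‖h‖ / (‖s‖ * m) := by
    apply opNorm_le_of_pow h d hd0 _ (by positivity)
    intro y
    have hy : g (h y) = y := congrArg (fun f : End' N => f y) hgh
    have e1 := key (h y)
    rw [hy] at e1
    have e2 := h2' y
    rw [e1, norm_smul] at e2
    have e3 : ‖evalAt c (h y)‖ ≤ ‖h‖ * ‖g (evalAt c (h y))‖ := by
      have : h (g (evalAt c (h y))) = evalAt c (h y) :=
        congrArg (fun f : End' N => f (evalAt c (h y))) hhg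
      conv_lhs => rw [← this]
      exact h.le_opNorm _
    have e4 := h1 (h y)
    rw [div_mul_eq_mul_div, le_div_iff₀ (by positivity)]
    calc ‖h y‖ ^ d * (‖s‖ * m) = ‖s‖ * (m * ‖h y‖ ^ d) := by ring
      _ ≤ ‖s‖ * (‖h‖ * ‖g (evalAt c (h y))‖) :=
          mul_le_mul_of_nonneg_left (e4.trans e3) (norm_nonneg _)
      _ = ‖h‖ * (‖s‖ * ‖g (evalAt c (h y))‖) := by ring
      _ ≤ ‖h‖ * (M * ‖y‖ ^ d) := mul_le_mul_of_nonneg_left e2 (norm_nonneg _)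
      _ = M * ‖h‖ * ‖y‖ ^ d := by ring
  have a3 : ‖s‖ * m * ‖h‖ ^ (d - 1) ≤ M := by
    rw [le_div_iff₀ (by positivity)] at a2
    have e1 : ‖h‖ ^ d = ‖h‖ ^ (d - 1) * ‖h‖ := by
      rw [← pow_succ]; congr 1; omega
    rw [e1] at a2
    have e2 : ‖s‖ * m * ‖h‖ ^ (d - 1) * ‖h‖ ≤ M * ‖h‖ := by nlinarith
    exact le_of_mul_le_mul_right e2 hh0
  have a4 : ‖h‖ ≤ ‖h‖ ^ (d - 1) := by
    calc ‖h‖ = ‖h‖ ^ 1 := (pow_one _).symm
      _ ≤ ‖h‖ ^ (d - 1) := pow_le_pow_right₀ hh1 (by omega)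
  have a5 : ‖s‖ * m * ‖h‖ ≤ M :=
    (mul_le_mul_of_nonneg_left a4 (by positivity)).trans a3
  refine ⟨b1, ?_, ?_, hh1⟩
  · rw [le_div_iff₀ hm]
    calc ‖s‖ * m = ‖s‖ * m * 1 := (mul_one _).symm
      _ ≤ ‖s‖ * m * ‖h‖ := mul_le_mul_of_nonneg_left hh1 (by positivity)
      _ ≤ M := a5
  · have e1 : m / M * m * ‖h‖ ≤ M := by
      refine le_trans ?_ a5
      have : m / M * m ≤ ‖s‖ * m := mul_le_mul_of_nonneg_right b1 hm.le
      exact mul_le_mul_of_nonneg_right this hh0.le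
    rw [div_pow, le_div_iff₀ (by positivity)]
    have e2 : m / M * m * ‖h‖ * M ≤ M * M := mul_le_mul_of_nonneg_right e1 hM.le
    have e3 : m / M * m * ‖h‖ * M = ‖h‖ * m ^ 2 := by
      field_simp
    nlinarith

theorem scale_mul {N : ℕ} {μ : ℂ} (hμ : μ ≠ 0) {g h : End' N} (hgh : g * h = 1) :
    (μ • g) * (μ⁻¹ • h) = 1 := by
  apply ContinuousLinearMap.ext
  intro x
  change μ • g (μ⁻¹ • h x) = x
  rw [map_smul, smul_smul, mul_inv_cancel₀ hμ, one_smul]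
  exact congrArg (fun f : End' N => f x) hgh

theorem scale_mul' {N : ℕ} {μ : ℂ} (hμ : μ ≠ 0) {g h : End' N} (hhg : h * g = 1) :
    (μ⁻¹ • h) * (μ • g) = 1 := by
  apply ContinuousLinearMap.ext
  intro x
  change μ⁻¹ • h (μ • g x) = x
  rw [map_smul, smul_smul, inv_mul_cancel₀ hμ, one_smul]
  exact congrArg (fun f : End' N => f x) hhg

theorem act_scale {N d : ℕ} (hd : 2 ≤ d) (s : ℂ) (g h : End' N) {μ : ℂ} (hμ : μ ≠ 0)
    (c : Coeffs N d) : act (s * μ ^ (d - 1)) (μ • g) (μ⁻¹ • h) c = act s g h c := by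
  apply ext_evalAt
  intro x
  rw [evalAt_act, evalAt_act]
  have h1 : (μ⁻¹ • h) x = μ⁻¹ • h x := rfl
  rw [h1, evalAt_smul_arg]
  have h2 : (μ • g) ((μ⁻¹) ^ d • evalAt c (h x)) = (μ * (μ⁻¹) ^ d) • g (evalAt c (h x)) := by
    change μ • g _ = _
    rw [map_smul, smul_smul]
  rw [h2, smul_smul]
  congr 1
  have e1 : μ ^ d = μ ^ (d - 1) * μ := by
    rw [← pow_succ]; congr 1; omega
  have : μ ^ (d - 1) * μ * (μ⁻¹) ^ d = 1 := by
    rw [← e1, ← mul_pow, mul_inv_cancel₀ hμ, one_pow]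
  calc s * μ ^ (d - 1) * (μ * μ⁻¹ ^ d) = s * (μ ^ (d - 1) * μ * (μ⁻¹) ^ d) := by ring
    _ = s := by rw [this, mul_one]

/-- locally uniform two-sided bounds -/
theorem exists_bounds {N d : ℕ} {c c' : Coeffs N d} (hc : c ∈ EndCone N d)
    (hc' : c' ∈ EndCone N d) : ∃ m M : ℝ, 0 < m ∧ 0 < M ∧
      (∀ᶠ v in 𝓝 c, ∀ x : Y N, m * ‖x‖ ^ d ≤ ‖evalAt v x‖ ∧ ‖evalAt v x‖ ≤ M * ‖x‖ ^ d) ∧
      (∀ᶠ v in 𝓝 c', ∀ x : Y N, m * ‖x‖ ^ d ≤ ‖evalAt v x‖ ∧ ‖evalAt v x‖ ≤ M * ‖x‖ ^ d) := by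
  obtain ⟨m, hm, h1⟩ := exists_lower hc
  obtain ⟨m', hm', h1'⟩ := exists_lower hc'
  set K : ℝ := (Fintype.card (Mono N d)) * (‖c‖ + ‖c'‖ + 1) + 1 with hK
  have hKpos : 0 < K := by positivity
  have up : ∀ c₀ : Coeffs N d, ‖c₀‖ ≤ ‖c‖ + ‖c'‖ → ∀ᶠ v in 𝓝 c₀, ∀ x : Y N,
      ‖evalAt v x‖ ≤ K * ‖x‖ ^ d := by
    intro c₀ h0
    have : ∀ᶠ v in 𝓝 c₀, ‖v‖ < ‖c‖ + ‖c'‖ + 1 :=
      continuous_norm.continuousAt.eventually (gt_mem_nhds (by linarith))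
    filter_upwards [this] with v hv x
    refine (norm_evalAt_le v x).trans ?_
    apply mul_le_mul_of_nonneg_right _ (by positivity)
    rw [hK]
    have : (Fintype.card (Mono N d) : ℝ) * ‖v‖ ≤
        (Fintype.card (Mono N d)) * (‖c‖ + ‖c'‖ + 1) :=
      mul_le_mul_of_nonneg_left hv.le (by positivity)
    linarith
  refine ⟨min m m', K, lt_min hm hm', hKpos, ?_, ?_⟩
  · filter_upwards [h1, up c (by linarith [norm_nonneg c'])] with v hv hv' x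
    refine ⟨le_trans ?_ (hv x), hv' x⟩
    exact mul_le_mul_of_nonneg_right (min_le_left _ _) (by positivity)
  · filter_upwards [h1', up c' (by linarith [norm_nonneg c])] with v hv hv' x
    refine ⟨le_trans ?_ (hv x), hv' x⟩
    exact mul_le_mul_of_nonneg_right (min_le_right _ _) (by positivity)

/-- Sequential properness of the action on the cone. -/
theorem proper_seq {N d : ℕ} (hd : 2 ≤ d) {c c' : Coeffs N d} (hc : c ∈ EndCone N d)
    (hc' : c' ∈ EndCone N d) {u u' : ℕ → Coeffs N d}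
    (hu : Filter.Tendsto u Filter.atTop (𝓝 c)) (hu' : Filter.Tendsto u' Filter.atTop (𝓝 c'))
    (s : ℕ → ℂ) (g h : ℕ → End' N) (hs : ∀ k, s k ≠ 0) (hgh : ∀ k, g k * h k = 1)
    (hhg : ∀ k, h k * g k = 1) (hact : ∀ k, act (s k) (g k) (h k) (u k) = u' k) :
    ∃ (s₀ : ℂ) (g₀ h₀ : End' N), s₀ ≠ 0 ∧ g₀ * h₀ = 1 ∧ h₀ * g₀ = 1 ∧
      ∃ (φ : ℕ → ℕ) (s' : ℕ → ℂ) (g' h' : ℕ → End' N), StrictMono φ ∧
        (∀ k, s' k ≠ 0 ∧ g' k * h' k = 1 ∧ h' k * g' k = 1 ∧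
          ∀ v : Coeffs N d, act (s' k) (g' k) (h' k) v = act (s (φ k)) (g (φ k)) (h (φ k)) v) ∧
        Filter.Tendsto s' Filter.atTop (𝓝 s₀) ∧ Filter.Tendsto g' Filter.atTop (𝓝 g₀) ∧
        Filter.Tendsto h' Filter.atTop (𝓝 h₀) := by
  obtain ⟨m, M, hm, hM, hb, hb'⟩ := exists_bounds hc hc'
  -- normalise
  have hgn : ∀ k, (‖g k‖ : ℂ) ≠ 0 := by
    intro k h0
    have h1 : ‖g k‖ = 0 := by exact_mod_cast h0
    have h2 : g k = 0 := norm_eq_zero.mp h1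
    have h3 := hgh k
    rw [h2, zero_mul] at h3
    exact zero_ne_one h3
  set μ : ℕ → ℂ := fun k => ((‖g k‖ : ℂ))⁻¹ with hμdef
  have hμ : ∀ k, μ k ≠ 0 := fun k => inv_ne_zero (hgn k)
  let S : ℕ → ℂ := fun k => s k * μ k ^ (d - 1)
  let G : ℕ → End' N := fun k => μ k • g k
  let H : ℕ → End' N := fun k => (μ k)⁻¹ • h k
  have hS : ∀ k, S k ≠ 0 := fun k => mul_ne_zero (hs k) (pow_ne_zero _ (hμ k))
  have hGH : ∀ k, G k * H k = 1 := by
    intro k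
    exact scale_mul (hμ k) (hgh k)
  have hHG : ∀ k, H k * G k = 1 := by
    intro k
    exact scale_mul' (hμ k) (hhg k)
  have hG1 : ∀ k, ‖G k‖ = 1 := by
    intro k
    simp only [G, hμdef, norm_smul, norm_inv, Complex.norm_real, norm_norm]
    apply inv_mul_cancel₀
    have := hgn k
    exact_mod_cast this
  have hActs : ∀ k v, act (S k) (G k) (H k) v = act (s k) (g k) (h k) (v : Coeffs N d) :=
    fun k v => act_scale hd _ _ _ (hμ k) v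
  have ev1 : ∀ᶠ k in Filter.atTop, m / M ≤ ‖S k‖ ∧ ‖S k‖ ≤ M / m ∧ ‖H k‖ ≤ (M / m) ^ 2 ∧
      1 ≤ ‖H k‖ := by
    filter_upwards [hu.eventually hb, hu'.eventually hb'] with k hk hk'
    exact proper_estimate hd hm hM (fun x => (hk x).1) (fun x => (hk x).2)
      (fun x => (hk' x).1) (fun x => (hk' x).2) (hS k) (hGH k) (hHG k) (hG1 k)
      (by rw [hActs, hact])
  obtain ⟨k₀, hk₀⟩ := Filter.eventually_atTop.mp ev1
  -- compactness
  let K : Set (ℂ × End' N × End' N) :=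
    Metric.closedBall 0 (M / m) ×ˢ (Metric.closedBall 0 1 ×ˢ Metric.closedBall 0 ((M / m) ^ 2))
  have hprop : ProperSpace (End' N) := FiniteDimensional.proper ℂ (End' N)
  have hK : IsCompact K :=
    (isCompact_closedBall _ _).prod ((isCompact_closedBall _ _).prod (isCompact_closedBall _ _))
  have hmem : ∀ k, (S (k + k₀), G (k + k₀), H (k + k₀)) ∈ K := by
    intro k
    have := hk₀ (k + k₀) (by omega)
    simp only [K, Set.mem_prod, mem_closedBall_zero_iff]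
    exact ⟨this.2.1, (hG1 _).le, this.2.2.1⟩
  obtain ⟨⟨s₀, g₀, h₀⟩, -, φ, hφ, hlim⟩ := hK.tendsto_subseq hmem
  have l1 : Filter.Tendsto (fun k => S (φ k + k₀)) Filter.atTop (𝓝 s₀) :=
    (continuous_fst.tendsto _).comp hlim
  have l2 : Filter.Tendsto (fun k => G (φ k + k₀)) Filter.atTop (𝓝 g₀) :=
    ((continuous_fst.comp continuous_snd).tendsto _).comp hlim
  have l3 : Filter.Tendsto (fun k => H (φ k + k₀)) Filter.atTop (𝓝 h₀) :=
    ((continuous_snd.comp continuous_snd).tendsto _).comp hlim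
  refine ⟨s₀, g₀, h₀, ?_, ?_, ?_, fun k => φ k + k₀, fun k => S (φ k + k₀),
    fun k => G (φ k + k₀), fun k => H (φ k + k₀), ?_, ?_, l1, l2, l3⟩
  · have h1 : m / M ≤ ‖s₀‖ := by
      apply ge_of_tendsto l1.norm
      filter_upwards with k
      exact (hk₀ _ (by omega)).1
    intro h0
    rw [h0, norm_zero] at h1
    have : 0 < m / M := by positivity
    linarith
  · have h1 := l2.mul l3
    have h2 : (fun k => G (φ k + k₀) * H (φ k + k₀)) = fun _ => (1 : End' N) := by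
      funext k; exact hGH _
    rw [h2] at h1
    exact tendsto_nhds_unique h1 tendsto_const_nhds
  · have h1 := l3.mul l2
    have h2 : (fun k => H (φ k + k₀) * G (φ k + k₀)) = fun _ => (1 : End' N) := by
      funext k; exact hHG _
    rw [h2] at h1
    exact tendsto_nhds_unique h1 tendsto_const_nhds
  · intro a b hab
    exact Nat.add_lt_add_right (hφ hab) _
  · intro k
    exact ⟨hS _, hGH _, hHG _, fun v => hActs _ v⟩

end Pool.Agent.Lib.Pa3f63f
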