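import Pool.Agent.Lib.Pa3f63f.Syz
import Pool.Agent.Lib.Pa3f63f.PL
import Pool.Agent.Lib.Pa3f63f.Cone

open scoped BigOperators Matrix

namespace Pool.Agent.Lib.Pa3f63f

open MvPolynomial

theorem toPoly_add {N d : ℕ} (c c' : Mono N d → ℂ) : toPoly (c + c') = toPoly c + toPoly c' := by
  unfold toPoly
  rw [← Finset.sum_add_distrib]
  exact Finset.sum_congr rfl fun α _ => by rw [Pi.add_apply, map_add]

theorem toPoly_smul {N d : ℕ} (t : ℂ) (c : Mono N d → ℂ) : toPoly (t • c) = t • toPoly c := by
  unfold toPoly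
  rw [Finset.smul_sum]
  exact Finset.sum_congr rfl fun α _ => by rw [Pi.smul_apply, map_smul]

section

variable {N d e : ℕ} (s : Mono N e → Fin (N + 1) → MvPolynomial (Fin (N + 1)) ℂ)

/-- entries of the resultant matrix -/
noncomputable def MtL (β m : Mono N e) : Coeffs N d →ₗ[ℂ] ℂ where
  toFun f := coeff (toF β) (∑ j, s m j * toPoly (f j))
  map_add' f g := by
    rw [← coeff_add, ← Finset.sum_add_distrib]
    congr 1
    exact Finset.sum_congr rfl fun j _ => by rw [Pi.add_apply, toPoly_add, mul_add]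
  map_smul' t f := by
    rw [RingHom.id_apply, ← coeff_smul, Finset.smul_sum]
    congr 1
    exact Finset.sum_congr rfl fun j _ => by rw [Pi.smul_apply, toPoly_smul, mul_smul_comm]

/-- the resultant matrix -/
noncomputable def Mt (f : Coeffs N d) : Matrix (Mono N e) (Mono N e) ℂ :=
  Matrix.of fun β m => MtL s β m f

theorem Mt_apply (f : Coeffs N d) (β m : Mono N e) :
    Mt s f β m = coeff (toF β) (∑ j, s m j * toPoly (f j)) := rfl

theorem vecMul_Mt (hde : d ≤ e) (hs : ∀ m j, (s m j).IsHomogeneous (e - d)) (f : Coeffs N d)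
    (p : Fin (N + 1) → ℂ) (m : Mono N e) :
    ∑ β : Mono N e, (∏ i, p i ^ (β.1 i)) * Mt s f β m = ∑ j, eval p (s m j) * evalAt f p j := by
  have h1 : (∑ j, s m j * toPoly (f j)).IsHomogeneous e := by
    apply IsHomogeneous.sum
    intro j _
    have := (hs m j).mul (toPoly_isHomogeneous (f j))
    rwa [Nat.sub_add_cancel hde] at this
  have h2 := eval_homogeneous h1 p
  rw [map_sum] at h2
  simp only [map_mul, ← evalAt_apply] at h2
  rw [h2]
  exact Finset.sum_congr rfl fun β _ => by rw [Mt_apply, mul_comm]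

theorem Mt_row (hde : d ≤ e) (hs : ∀ m j, (s m j).IsHomogeneous (e - d)) (f : Coeffs N d)
    (m : Mono N e) : Mt s f (b0 N e) m = ∑ j, eval (e0 N) (s m j) * evalAt f (e0 N) j := by
  classical
  rw [← vecMul_Mt s hde hs]
  simp only [prod_e0, ite_mul, one_mul, zero_mul]
  rw [Finset.sum_ite_eq' Finset.univ (b0 N e), if_pos (Finset.mem_univ _)]

theorem det_Mt_eq_zero (hde : d ≤ e) (hs : ∀ m j, (s m j).IsHomogeneous (e - d))
    (f : Coeffs N d) (p : Fin (N + 1) → ℂ) (hp : p ≠ 0) (hf : evalAt f p = 0) :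
    (Mt s f).det = 0 := by
  classical
  rw [← Matrix.exists_vecMul_eq_zero_iff]
  refine ⟨fun β => ∏ i, p i ^ (β.1 i), ?_, ?_⟩
  · intro h
    obtain ⟨i, hi⟩ := Function.ne_iff.mp hp
    have h1 := congrFun h (ofF (Finsupp.single i e) (by simp))
    simp only [Pi.zero_apply] at h1
    rw [Finset.prod_eq_zero_iff] at h1
    obtain ⟨j, -, hj⟩ := h1
    have h2 : (ofF (Finsupp.single i e) (by simp) : Mono N e).1 j = Finsupp.single i e j := rfl
    rw [h2] at hj
    by_cases hij : j = i
    · subst hij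
      rw [Finsupp.single_eq_same] at hj
      exact hi (eq_zero_of_pow_eq_zero hj)
    · rw [Finsupp.single_eq_of_ne hij, pow_zero] at hj
      exact one_ne_zero hj
  · funext m
    have := vecMul_Mt s hde hs f p m
    rw [hf] at this
    simp only [Pi.zero_apply, mul_zero, Finset.sum_const_zero] at this
    exact this

/-- the reduced determinant -/
noncomputable def G0 (k : Coeffs N d) (y : Fin (N + 1) → ℂ) : ℂ :=
  ((Mt s k).updateRow (b0 N e) (fun m => ∑ j, eval (e0 N) (s m j) * y j)).det

theorem det_Mt_line (hde : d ≤ e) (hs : ∀ m j, (s m j).IsHomogeneous (e - d))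
    (k v : Coeffs N d) (hk : evalAt k (e0 N) = 0) (z : ℂ) :
    (Mt s (k + z • v)).det = z * G0 s (k + z • v) (evalAt v (e0 N)) := by
  classical
  rw [G0, ← Matrix.det_updateRow_smul]
  congr 1
  ext β m
  by_cases hβ : β = b0 N e
  · subst hβ
    rw [Matrix.updateRow_self, Mt_row s hde hs, evalAt_add, hk, zero_add, evalAt_smul]
    simp only [Pi.smul_apply, smul_eq_mul, Finset.mul_sum]
    exact Finset.sum_congr rfl fun j _ => by ring
  · rw [Matrix.updateRow_ne hβ]

theorem G0_smul_right (k : Coeffs N d) (t : ℂ) (y : Fin (N + 1) → ℂ) :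
    G0 s k (t • y) = t * G0 s k y := by
  classical
  rw [G0, G0, ← Matrix.det_updateRow_smul]
  congr 2
  funext m
  simp only [Pi.smul_apply, smul_eq_mul, Finset.mul_sum]
  exact Finset.sum_congr rfl fun j _ => by ring

theorem G0_add_right (k : Coeffs N d) (y y' : Fin (N + 1) → ℂ) :
    G0 s k (y + y') = G0 s k y + G0 s k y' := by
  classical
  rw [G0, G0, G0, ← Matrix.det_updateRow_add]
  congr 2
  funext m
  simp only [Pi.add_apply, mul_add, Finset.sum_add_distrib]

/-- scaling in the first argument -/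
theorem G0_smul_left (k : Coeffs N d) (t : ℂ) (ht : t ≠ 0) (y : Fin (N + 1) → ℂ)
    (h : G0 s k y ≠ 0) : G0 s (t • k) y ≠ 0 := by
  classical
  have h1 : (Mt s (t • k)).updateRow (b0 N e) (fun m => ∑ j, eval (e0 N) (s m j) * (t • y) j) =
      t • ((Mt s k).updateRow (b0 N e) (fun m => ∑ j, eval (e0 N) (s m j) * y j)) := by
    ext β m
    by_cases hβ : β = b0 N e
    · subst hβ
      rw [Matrix.updateRow_self, Matrix.smul_apply, Matrix.updateRow_self]
      simp only [Pi.smul_apply, smul_eq_mul, Finset.mul_sum]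
      exact Finset.sum_congr rfl fun j _ => by ring
    · rw [Matrix.updateRow_ne hβ, Matrix.smul_apply, Matrix.updateRow_ne hβ]
      exact (MtL s β m).map_smul t k
  have h2 : G0 s (t • k) (t • y) = t ^ Fintype.card (Mono N e) * G0 s k y := by
    rw [G0, h1, Matrix.det_smul, G0]
  rw [G0_smul_right] at h2
  intro h3
  rw [h3, mul_zero] at h2
  have h4 : t ^ Fintype.card (Mono N e) * G0 s k y ≠ 0 :=
    mul_ne_zero (pow_ne_zero _ ht) h
  exact h4 h2.symm

theorem PL_det_Mt : PL fun f : Coeffs N d => (Mt s f).det := by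
  classical
  apply PL.det
  intro β m
  exact PL.linear (MtL s β m)

theorem PL_G0 {V : Type*} [AddCommGroup V] [Module ℂ V] (K : V → Coeffs N d)
    (hK : ∀ β m, PL fun x => Mt s (K x) β m) (y : V → Fin (N + 1) → ℂ)
    (hy : ∀ j, PL fun x => y x j) : PL fun x => G0 s (K x) (y x) := by
  classical
  apply PL.det
  intro β m
  by_cases hβ : β = b0 N e
  · subst hβ
    simp only [Matrix.updateRow_self]
    exact PL.sum _ fun j _ => (PL.const _).mul (hy j)
  · simp only [Matrix.updateRow_ne hβ]
    exact hK β m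

theorem continuous_Mt : Continuous (Mt s : Coeffs N d → _) := by
  apply continuous_pi
  intro β
  apply continuous_pi
  intro m
  exact LinearMap.continuous_of_finiteDimensional (MtL s β m)

theorem continuous_det_Mt : Continuous fun f : Coeffs N d => (Mt s f).det := by
  classical
  exact (continuous_Mt s).matrix_det

theorem continuous_G0 : Continuous fun q : Coeffs N d × (Fin (N + 1) → ℂ) => G0 s q.1 q.2 := by
  classical
  unfold G0
  apply Continuous.matrix_det
  apply Continuous.matrix_updateRow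
  · exact (continuous_Mt s).comp continuous_fst
  · fun_prop

end

/-! ### The chain maps -/

/-- the chain map as a coefficient vector -/
noncomputable def chC (N d : ℕ) (a b : ℂ) : Coeffs N d :=
  fun j α => coeff (toF α) (chP N d a b j)

/-- the direction of variation -/
noncomputable def v0 (N d : ℕ) : Coeffs N d :=
  fun j α => coeff (toF α) (if j = 0 then X 0 ^ d else 0 : MvPolynomial (Fin (N + 1)) ℂ)

theorem toPoly_chC {N d : ℕ} (hd : 1 ≤ d) (a b : ℂ) (j : Fin (N + 1)) :
    toPoly (chC N d a b j) = chP N d a b j := toPoly_coeff (chP_hom N d hd a b j)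

theorem chC_add {N d : ℕ} (a a' b : ℂ) : chC N d (a + a') b = chC N d a b + a' • v0 N d := by
  funext j α
  simp only [chC, v0, Pi.add_apply, Pi.smul_apply]
  rw [← coeff_smul, ← coeff_add]
  congr 1
  unfold chP
  split_ifs with h
  · rw [map_add, MvPolynomial.smul_eq_C_mul]; ring
  · rw [smul_zero, add_zero]

theorem evalAt_v0 {N d : ℕ} (x : Fin (N + 1) → ℂ) (j : Fin (N + 1)) :
    evalAt (v0 N d) x j = if j = 0 then x 0 ^ d else 0 := by
  rw [evalAt_apply]
  have h1 : (if j = 0 then X 0 ^ d else 0 : MvPolynomial (Fin (N + 1)) ℂ).IsHomogeneous d := by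
    split_ifs
    · simpa using (isHomogeneous_X ℂ (0 : Fin (N + 1))).pow d
    · exact isHomogeneous_zero _ _ _
  have h2 : toPoly (v0 N d j) = if j = 0 then X 0 ^ d else 0 := toPoly_coeff h1
  rw [h2]
  split_ifs <;> simp

theorem evalAt_chC {N d : ℕ} (hd : 1 ≤ d) (a b : ℂ) (x : Fin (N + 1) → ℂ) (j : Fin (N + 1)) :
    evalAt (chC N d a b) x j = if j = 0 then a * x 0 ^ d + b * eval x (nxP N d 0)
      else x 0 ^ (d - 1) * x j + eval x (nxP N d j) := by
  rw [evalAt_apply, toPoly_chC hd, chP]
  split_ifs <;> simp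

theorem eval_nxP {N d : ℕ} (x : Fin (N + 1) → ℂ) (j : Fin (N + 1)) :
    eval x (nxP N d j) = if h : j.val + 1 < N + 1 then x ⟨j.val + 1, h⟩ ^ d else 0 := by
  unfold nxP
  split_ifs <;> simp

theorem evalAt_v0_e0 {N d : ℕ} : evalAt (v0 N d) (e0 N) = e0 N := by
  funext j
  rw [evalAt_v0]
  by_cases hj : j = 0
  · subst hj; simp [e0]
  · rw [if_neg hj, e0, Pi.single_eq_of_ne hj]

theorem evalAt_chC_e0 {N d : ℕ} (hd : 1 ≤ d) (a b : ℂ) :
    evalAt (chC N d a b) (e0 N) = a • e0 N := by
  have h1 : ∀ j, eval (e0 N) (nxP N d j) = 0 := by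
    intro j
    rw [eval_nxP]
    split_ifs with h
    · rw [e0, Pi.single_eq_of_ne, zero_pow (by omega)]
      intro h0
      have := congrArg Fin.val h0
      simp at this
    · rfl
  funext j
  rw [evalAt_chC hd, h1, h1]
  by_cases hj : j = 0
  · subst hj; simp [e0]
  · rw [if_neg hj, Pi.smul_apply, e0, Pi.single_eq_of_ne hj]
    simp

/-- The reduced determinant at the degenerate chain map is `1`. -/
theorem G0_chain {N d e : ℕ} (hd : 1 ≤ d)
    (s : Mono N e → Fin (N + 1) → MvPolynomial (Fin (N + 1)) ℂ)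
    (h1 : ∀ m, m ≠ b0 N e → ∑ j, s m j * chP N d 0 1 j = monomial (toF m) 1 ∧
        eval (e0 N) (s m 0) = 0)
    (h2 : s (b0 N e) 0 = X 0 ^ (e - d)) : G0 s (chC N d 0 1) (e0 N) = 1 := by
  classical
  let u : Mono N e → ℂ := fun β => if β = b0 N e then 0 else Mt s (chC N d 0 1) β (b0 N e)
  let v : Mono N e → ℂ := fun m => if m = b0 N e then 1 else 0
  have key : (Mt s (chC N d 0 1)).updateRow (b0 N e)
      (fun m => ∑ j, eval (e0 N) (s m j) * e0 N j) =
      1 + Matrix.replicateCol Unit u * Matrix.replicateRow Unit v := by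
    ext β m
    rw [Matrix.add_apply, Matrix.mul_apply]
    simp only [Finset.univ_unique, Finset.sum_singleton, Matrix.replicateCol_apply,
      Matrix.replicateRow_apply]
    have hrow : ∑ j, eval (e0 N) (s m j) * e0 N j = eval (e0 N) (s m 0) := by
      rw [Finset.sum_eq_single 0]
      · simp [e0]
      · intro j _ hj
        rw [e0, Pi.single_eq_of_ne hj, mul_zero]
      · simp
    by_cases hβ : β = b0 N e
    · subst hβ
      rw [Matrix.updateRow_self, hrow]
      by_cases hm : m = b0 N e
      · subst hm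
        rw [h2]
        simp [u, v, e0]
      · rw [(h1 m hm).2, Matrix.one_apply_ne (Ne.symm hm)]
        simp [u]
    · rw [Matrix.updateRow_ne hβ]
      by_cases hm : m = b0 N e
      · subst hm
        rw [Matrix.one_apply_ne hβ]
        simp [u, v, hβ]
      · rw [Mt_apply]
        simp only [toPoly_chC hd]
        rw [(h1 m hm).1, coeff_monomial]
        simp only [v, if_neg hm, mul_zero, add_zero]
        by_cases hβm : β = m
        · subst hβm
          simp
        · rw [Matrix.one_apply_ne hβm, if_neg]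
          intro h
          exact hβm (toF_injective h).symm
  have huv : v ⬝ᵥ u = 0 := by
    apply Finset.sum_eq_zero
    intro β _
    by_cases hβ : β = b0 N e
    · simp [u, hβ]
    · simp [v, hβ]
  rw [G0, key, Matrix.det_one_add_replicateCol_mul_replicateRow, huv, add_zero]

end Pool.Agent.Lib.Pa3f63f
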