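import Pool.Agent.Lib.Pa3f63f.Infl

open scoped BigOperators Topology

namespace Pool.Agent.Lib.Pa3f63f

attribute [local irreducible] act Th cj

theorem exists_chart {N d : ℕ} (hd : 2 ≤ d) {c : Coeffs N d} (hc : c ∈ EndCone N d)
    (W : Submodule ℂ (Coeffs N d)) (hW : IsCompl (LinearMap.range (infL c).toLinearMap) W) :
    ∃ Φ : OpenPartialHomeomorph (End' N × W) (Coeffs N d), ((0 : End' N), (0 : W)) ∈ Φ.source ∧
      ∀ q, Φ q = Th q.1 (c + (q.2 : Coeffs N d)) := by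
  let L : (End' N × W) →ₗ[ℂ] Coeffs N d := (infL c).toLinearMap.coprod W.subtype
  have hinj : Function.Injective L := by
    rw [injective_iff_map_eq_zero]
    rintro ⟨A, w⟩ h
    have h1 : infL c A + (w : Coeffs N d) = 0 := by
      simpa [L] using h
    have h2 : infL c A ∈ W := by
      have : infL c A = -(w : Coeffs N d) := eq_neg_of_add_eq_zero_left h1
      rw [this]; exact W.neg_mem w.2
    have h3 : infL c A ∈ LinearMap.range (infL c).toLinearMap := ⟨A, rfl⟩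
    have h4 : infL c A = 0 := by
      have := hW.disjoint.le_bot ⟨h3, h2⟩
      simpa using this
    have h5 : A = 0 := infL_injective hd hc (by rw [h4, map_zero])
    rw [h4, zero_add] at h1
    have h6 : w = 0 := Subtype.ext h1
    rw [h5, h6]; rfl
  have hsurj : Function.Surjective L := by
    intro v
    have h1 : v ∈ LinearMap.range (infL c).toLinearMap ⊔ W := by
      rw [hW.sup_eq_top]; trivial
    obtain ⟨_, ⟨A, rfl⟩, w, hw, rfl⟩ := Submodule.mem_sup.mp h1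
    exact ⟨(A, ⟨w, hw⟩), by simp [L]⟩
  let e : (End' N × W) ≃L[ℂ] Coeffs N d :=
    (LinearEquiv.ofBijective L ⟨hinj, hsurj⟩).toContinuousLinearEquiv
  let ι : (End' N × W) →L[ℂ] (End' N × Coeffs N d) :=
    (ContinuousLinearMap.id ℂ (End' N)).prodMap W.subtypeL
  have h1 : HasStrictFDerivAt (fun q : End' N × Coeffs N d => Th q.1 (c + q.2))
      ((infL c).coprod (ContinuousLinearMap.id ℂ (Coeffs N d))) (ι (0, 0)) := by
    rw [show ((0 : End' N), (0 : W)) = 0 from rfl, map_zero]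
    exact hasStrictFDerivAt_Psi c
  have h2 := h1.comp ((0 : End' N), (0 : W)) ι.hasStrictFDerivAt
  have h3 : ((infL c).coprod (ContinuousLinearMap.id ℂ (Coeffs N d))).comp ι =
      (e : (End' N × W) →L[ℂ] Coeffs N d) := by
    apply ContinuousLinearMap.ext
    rintro ⟨A, w⟩
    simp [ι, e, L]
  rw [h3] at h2
  refine ⟨h2.toOpenPartialHomeomorph _, h2.mem_toOpenPartialHomeomorph_source, ?_⟩
  intro q
  rw [h2.toOpenPartialHomeomorph_coe]
  rfl

/-- the stabiliser of a point -/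
def stab {N d : ℕ} (c : Coeffs N d) : Subgroup (End' N)ˣ where
  carrier := {g | cj g c = c}
  mul_mem' := by
    intro a b ha hb
    change cj (a * b) c = c
    rw [cj_mul, show cj b c = c from hb, show cj a c = c from ha]
  one_mem' := cj_one c
  inv_mem' := by
    intro a ha
    change cj a⁻¹ c = c
    conv_lhs => rw [← show cj a c = c from ha]
    exact cj_inv_cj a c

theorem mem_stab {N d : ℕ} {c : Coeffs N d} {g : (End' N)ˣ} : g ∈ stab c ↔ cj g c = c := Iff.rfl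

theorem tendsto_sub_one {N : ℕ} {g : ℕ → (End' N)ˣ} {g₀ : (End' N)ˣ}
    (h : Filter.Tendsto g Filter.atTop (𝓝 g₀)) :
    Filter.Tendsto (fun k => ((g₀⁻¹ * g k : (End' N)ˣ) : End' N) - 1) Filter.atTop (𝓝 0) := by
  have h1 : Filter.Tendsto (fun k => g₀⁻¹ * g k) Filter.atTop (𝓝 (g₀⁻¹ * g₀)) :=
    tendsto_const_nhds.mul h
  rw [inv_mul_cancel] at h1
  have h2 : Filter.Tendsto (fun k => ((g₀⁻¹ * g k : (End' N)ˣ) : End' N)) Filter.atTop
      (𝓝 ((1 : (End' N)ˣ) : End' N)) := (Units.continuous_val.tendsto 1).comp h1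
  have h3 := h2.sub_const 1
  rw [Units.val_one, sub_self] at h3
  exact h3

theorem finite_stab {N d : ℕ} (hd : 2 ≤ d) {c : Coeffs N d} (hc : c ∈ EndCone N d) :
    Finite (stab c) := by
  by_contra hinf
  rw [not_finite_iff_infinite] at hinf
  let f : ℕ ↪ stab c := Infinite.natEmbedding _
  obtain ⟨g₀, φ, hφ, hlim, -⟩ := cj_proper hd hc hc (u := fun _ => c) (u' := fun _ => c)
    tendsto_const_nhds tendsto_const_nhds (fun k => (f k : (End' N)ˣ)) (fun k => (f k).2)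
  have hg₀ : cj g₀ c = c := by
    have h1 : Filter.Tendsto (fun k => cj (f (φ k) : (End' N)ˣ) c) Filter.atTop
        (𝓝 (cj g₀ c)) := by
      have h2 : Filter.Tendsto (fun k => (((f (φ k) : (End' N)ˣ)), c)) Filter.atTop
        (𝓝 (g₀, c)) := hlim.prodMk_nhds tendsto_const_nhds
      exact (continuous_cj.tendsto (g₀, c)).comp h2
    have h3 : (fun k => cj (f (φ k) : (End' N)ˣ) c) = fun _ => c := by
      funext k; exact (f (φ k)).2
    rw [h3] at h1
    exact tendsto_nhds_unique h1 tendsto_const_nhds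
  obtain ⟨W, hW⟩ := Submodule.exists_isCompl (LinearMap.range (infL c).toLinearMap)
  obtain ⟨Φ, hΦ0, hΦ⟩ := exists_chart hd hc W hW
  have h0 := tendsto_sub_one hlim
  have h1 : Filter.Tendsto (fun k => (((g₀⁻¹ * (f (φ k) : (End' N)ˣ) : (End' N)ˣ) : End' N) - 1,
      (0 : W))) Filter.atTop (𝓝 ((0 : End' N), (0 : W))) := h0.prodMk_nhds tendsto_const_nhds
  have h2 := h1.eventually (Φ.open_source.mem_nhds hΦ0)
  obtain ⟨k₀, hk₀⟩ := Filter.eventually_atTop.mp h2
  have key : ∀ k, k₀ ≤ k → (f (φ k) : (End' N)ˣ) = g₀ := by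
    intro k hk
    have h3 := hk₀ k hk
    have h4 : Φ (((g₀⁻¹ * (f (φ k) : (End' N)ˣ) : (End' N)ˣ) : End' N) - 1, (0 : W)) =
        Φ ((0 : End' N), (0 : W)) := by
      rw [hΦ, hΦ]
      simp only [Submodule.coe_zero, add_zero]
      rw [Th_unit, Th_zero, cj_mul, show cj (f (φ k) : (End' N)ˣ) c = c from (f (φ k)).2]
      conv_lhs => rw [← hg₀]
      exact cj_inv_cj g₀ c
    have h5 := Φ.injOn h3 hΦ0 h4
    have h6 : ((g₀⁻¹ * (f (φ k) : (End' N)ˣ) : (End' N)ˣ) : End' N) - 1 = 0 :=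
      congrArg Prod.fst h5
    have h7 : g₀⁻¹ * (f (φ k) : (End' N)ˣ) = 1 := by
      apply Units.ext
      rw [Units.val_one]
      exact sub_eq_zero.mp h6
    rw [inv_mul_eq_one] at h7
    exact h7.symm
  have h8 : f (φ k₀) = f (φ (k₀ + 1)) := by
    apply Subtype.ext
    rw [key _ le_rfl, key _ (by omega)]
  have h9 := hφ (show k₀ < k₀ + 1 by omega)
  rw [f.injective h8] at h9
  exact lt_irrefl _ h9

/-- conjugation on endomorphisms -/
noncomputable def conjL {N : ℕ} (g : (End' N)ˣ) : End' N →ₗ[ℂ] End' N where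
  toFun A := (g : End' N) * A * ((g⁻¹ : (End' N)ˣ) : End' N)
  map_add' A B := by rw [mul_add, add_mul]
  map_smul' t A := by
    apply ContinuousLinearMap.ext
    intro x
    change (g : End' N) (t • A _) = t • (g : End' N) (A _)
    rw [map_smul]

theorem conjL_apply {N : ℕ} (g : (End' N)ˣ) (A : End' N) :
    conjL g A = (g : End' N) * A * ((g⁻¹ : (End' N)ˣ) : End' N) := rfl

theorem conjL_mul {N : ℕ} (g h : (End' N)ˣ) (A : End' N) :
    conjL (g * h) A = conjL g (conjL h A) := by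
  simp only [conjL_apply, mul_inv_rev, Units.val_mul, mul_assoc]

theorem conjL_one {N : ℕ} (A : End' N) : conjL 1 A = A := by
  simp [conjL_apply]

/-- An invariant complement to the tangent space of the orbit. -/
theorem exists_inv_compl {N d : ℕ} (hd : 2 ≤ d) {c : Coeffs N d} (hc : c ∈ EndCone N d) :
    ∃ W : Submodule ℂ (Coeffs N d), IsCompl (LinearMap.range (infL c).toLinearMap) W ∧
      ∀ g ∈ stab c, ∀ w ∈ W, cj g w ∈ W := by
  classical
  have hfin := finite_stab hd hc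
  have := Fintype.ofFinite (stab c)
  have hker : LinearMap.ker (infL c).toLinearMap = ⊥ :=
    LinearMap.ker_eq_bot.mpr (infL_injective hd hc)
  obtain ⟨Λ, hΛ⟩ := LinearMap.exists_leftInverse_of_injective _ hker
  have hΛ' : ∀ A, Λ (infL c A) = A := fun A => LinearMap.congr_fun hΛ A
  let P : Coeffs N d →ₗ[ℂ] End' N :=
    ∑ γ : stab c, (conjL (γ : (End' N)ˣ)⁻¹).comp (Λ.comp (cjL (γ : (End' N)ˣ)))
  have hP : ∀ v, P v = ∑ γ : stab c, conjL (γ : (End' N)ˣ)⁻¹ (Λ (cj (γ : (End' N)ˣ) v)) := by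
    intro v
    simp [P, LinearMap.sum_apply]
  have hPinf : ∀ A, P (infL c A) = (Fintype.card (stab c)) • A := by
    intro A
    rw [hP]
    have : ∀ γ ∈ (Finset.univ : Finset (stab c)),
        conjL (γ : (End' N)ˣ)⁻¹ (Λ (cj (γ : (End' N)ˣ) (infL c A))) = A := by
      intro γ _
      rw [infL_cj, mem_stab.mp γ.2, hΛ', ← conjL_apply, ← conjL_mul, inv_mul_cancel, conjL_one]
    rw [Finset.sum_congr rfl this, Finset.sum_const, Finset.card_univ]
  have hPeq : ∀ g ∈ stab c, ∀ v, P (cj g v) = conjL g (P v) := by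
    intro g hg v
    rw [hP, hP, map_sum]
    apply Fintype.sum_equiv (Equiv.mulRight (⟨g, hg⟩ : stab c))
    intro γ
    simp only [Equiv.coe_mulRight, Subgroup.coe_mul]
    rw [← conjL_mul, ← cj_mul]
    congr 2
    group
  have hcard : (Fintype.card (stab c) : ℂ) ≠ 0 := by
    exact_mod_cast Fintype.card_ne_zero
  have hsm : ∀ A : End' N, (Fintype.card (stab c)) • A = (Fintype.card (stab c) : ℂ) • A := by
    intro A
    exact (Nat.cast_smul_eq_nsmul ℂ _ _).symm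
  refine ⟨LinearMap.ker P, ⟨?_, ?_⟩, ?_⟩
  · rw [Submodule.disjoint_def]
    rintro _ ⟨A, rfl⟩ hx
    have h1 : P (infL c A) = 0 := hx
    rw [hPinf, hsm] at h1
    have h2 : A = 0 := (smul_eq_zero.mp h1).resolve_left hcard
    rw [h2, map_zero]
  · rw [codisjoint_iff, eq_top_iff]
    intro v _
    rw [Submodule.mem_sup]
    refine ⟨infL c ((Fintype.card (stab c) : ℂ)⁻¹ • P v), ⟨_, rfl⟩,
      v - infL c ((Fintype.card (stab c) : ℂ)⁻¹ • P v), ?_, by abel⟩
    rw [LinearMap.mem_ker, map_sub, hPinf, hsm, smul_smul, mul_inv_cancel₀ hcard, one_smul,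
      sub_self]
  · intro g hg w hw
    rw [LinearMap.mem_ker] at hw ⊢
    rw [hPeq g hg, hw, map_zero]

/-- The slice property. -/
theorem slice_property {N d : ℕ} (hd : 2 ≤ d) {c : Coeffs N d} (hc : c ∈ EndCone N d)
    (W : Submodule ℂ (Coeffs N d)) (hW : IsCompl (LinearMap.range (infL c).toLinearMap) W)
    (hinv : ∀ g ∈ stab c, ∀ w ∈ W, cj g w ∈ W) :
    ∃ ε : ℝ, 0 < ε ∧ ∀ w ∈ W, ∀ w' ∈ W, ‖w‖ < ε → ‖w'‖ < ε → ∀ g : (End' N)ˣ,
      cj g (c + w) = c + w' → g ∈ stab c := by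
  by_contra hcon
  push Not at hcon
  have hε : ∀ n : ℕ, (0 : ℝ) < 1 / ((n : ℝ) + 1) := fun n => Nat.one_div_pos_of_nat
  choose w hw w' hw' hwn hwn' g hg hgs using fun n : ℕ => hcon _ (hε n)
  have lim : ∀ v : ℕ → Coeffs N d, (∀ n, ‖v n‖ < 1 / ((n : ℝ) + 1)) →
      Filter.Tendsto v Filter.atTop (𝓝 0) := by
    intro v hv
    exact squeeze_zero_norm (fun n => (hv n).le) tendsto_one_div_add_atTop_nhds_zero_nat
  have l1 := lim w hwn
  have l2 := lim w' hwn'
  have l1' : Filter.Tendsto (fun n => c + w n) Filter.atTop (𝓝 c) := by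
    have := l1.const_add c
    rwa [add_zero] at this
  have l2' : Filter.Tendsto (fun n => c + w' n) Filter.atTop (𝓝 c) := by
    have := l2.const_add c
    rwa [add_zero] at this
  obtain ⟨g₀, φ, hφ, hlim, hg₀⟩ := cj_proper hd hc hc l1' l2' g hg
  obtain ⟨Φ, hΦ0, hΦ⟩ := exists_chart hd hc W hW
  have h0 := tendsto_sub_one hlim
  have hg₀' : g₀⁻¹ ∈ stab c := (stab c).inv_mem (mem_stab.mpr hg₀)
  have l3 : Filter.Tendsto (fun k => (⟨w (φ k), hw _⟩ : W)) Filter.atTop (𝓝 0) := by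
    rw [tendsto_subtype_rng]
    exact l1.comp hφ.tendsto_atTop
  have l4 : Filter.Tendsto (fun k => (⟨cj g₀⁻¹ (w' (φ k)), hinv _ hg₀' _ (hw' _)⟩ : W))
      Filter.atTop (𝓝 0) := by
    rw [tendsto_subtype_rng]
    have h1 : Filter.Tendsto (fun k => (g₀⁻¹, w' (φ k))) Filter.atTop
        (𝓝 ((g₀⁻¹ : (End' N)ˣ), (0 : Coeffs N d))) :=
      tendsto_const_nhds.prodMk_nhds (l2.comp hφ.tendsto_atTop)
    have h2 := (continuous_cj.tendsto (g₀⁻¹, (0 : Coeffs N d))).comp h1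
    have h3 : cj g₀⁻¹ (0 : Coeffs N d) = 0 := (cjL g₀⁻¹).map_zero
    simp only [h3] at h2
    exact h2
  have h1 := (h0.prodMk_nhds l3).eventually (Φ.open_source.mem_nhds hΦ0)
  have h2 : ∀ᶠ k in Filter.atTop, ((0 : End' N),
      (⟨cj g₀⁻¹ (w' (φ k)), hinv _ hg₀' _ (hw' _)⟩ : W)) ∈ Φ.source :=
    ((tendsto_const_nhds (x := (0 : End' N))).prodMk_nhds l4).eventually
      (Φ.open_source.mem_nhds hΦ0)
  obtain ⟨k, hk1, hk2⟩ := (h1.and h2).exists
  have h4 : Φ (((g₀⁻¹ * g (φ k) : (End' N)ˣ) : End' N) - 1, (⟨w (φ k), hw _⟩ : W)) =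
      Φ ((0 : End' N), (⟨cj g₀⁻¹ (w' (φ k)), hinv _ hg₀' _ (hw' _)⟩ : W)) := by
    rw [hΦ, hΦ]
    simp only
    rw [Th_unit, Th_zero, cj_mul, hg, cj_add, mem_stab.mp hg₀']
  have h5 := congrArg Prod.fst (Φ.injOn hk1 hk2 h4)
  have h6 : ((g₀⁻¹ * g (φ k) : (End' N)ˣ) : End' N) - 1 = 0 := h5
  have h7 : g₀⁻¹ * g (φ k) = 1 := by
    apply Units.ext
    rw [Units.val_one]
    exact sub_eq_zero.mp h6
  rw [inv_mul_eq_one] at h7
  apply hgs (φ k)
  rw [← h7]
  exact mem_stab.mpr hg₀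

end Pool.Agent.Lib.Pa3f63f
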