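import Pool.Agent.Lib.Pa3f63f.Basic

open scoped BigOperators

namespace Pool.Agent.Lib.Pa3f63f

open MvPolynomial

/-- `X_{j+1}^d`, or `0` when `j` is the last index -/
noncomputable def nxP (N d : ℕ) (j : Fin (N + 1)) : MvPolynomial (Fin (N + 1)) ℂ :=
  if h : j.val + 1 < N + 1 then X ⟨j.val + 1, h⟩ ^ d else 0

/-- the chain maps -/
noncomputable def chP (N d : ℕ) (a b : ℂ) (j : Fin (N + 1)) : MvPolynomial (Fin (N + 1)) ℂ :=
  if j = 0 then C a * X 0 ^ d + C b * nxP N d 0 else X 0 ^ (d - 1) * X j + nxP N d j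

theorem nxP_hom (N d : ℕ) (j : Fin (N + 1)) : (nxP N d j).IsHomogeneous d := by
  unfold nxP
  split_ifs with h
  · simpa using (isHomogeneous_X ℂ (⟨j.val + 1, h⟩ : Fin (N + 1))).pow d
  · exact isHomogeneous_zero _ _ _

theorem chP_hom (N d : ℕ) (hd : 1 ≤ d) (a b : ℂ) (j : Fin (N + 1)) :
    (chP N d a b j).IsHomogeneous d := by
  unfold chP
  split_ifs with h
  · apply IsHomogeneous.add
    · have := (isHomogeneous_C (Fin (N + 1)) a).mul ((isHomogeneous_X ℂ (0 : Fin (N + 1))).pow d)
      simpa using this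
    · have := (isHomogeneous_C (Fin (N + 1)) b).mul (nxP_hom N d 0)
      simpa using this
  · apply IsHomogeneous.add _ (nxP_hom N d j)
    have := ((isHomogeneous_X ℂ (0 : Fin (N + 1))).pow (d - 1)).mul (isHomogeneous_X ℂ j)
    have e : 1 * (d - 1) + 1 = d := by omega
    rwa [e] at this

/-- the ideal generated by the chain map and `X_i h_0`, `i ≠ 0` -/
noncomputable def chJ (N d : ℕ) : Ideal (MvPolynomial (Fin (N + 1)) ℂ) where
  carrier := {f | ∃ s : Fin (N + 1) → MvPolynomial (Fin (N + 1)) ℂ,
    f = ∑ j, s j * chP N d 0 1 j ∧ s 0 ∈ Ideal.span (X '' {i : Fin (N + 1) | i ≠ 0})}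
  add_mem' := by
    rintro f g ⟨s, rfl, hs⟩ ⟨t, rfl, ht⟩
    refine ⟨s + t, ?_, Ideal.add_mem _ hs ht⟩
    rw [← Finset.sum_add_distrib]
    exact Finset.sum_congr rfl fun j _ => by rw [Pi.add_apply, add_mul]
  zero_mem' := ⟨0, by simp, Ideal.zero_mem _⟩
  smul_mem' := by
    rintro p f ⟨s, rfl, hs⟩
    refine ⟨fun j => p * s j, ?_, Ideal.mul_mem_left _ _ hs⟩
    rw [smul_eq_mul, Finset.mul_sum]
    exact Finset.sum_congr rfl fun j _ => by rw [mul_assoc]

theorem chJ_h {N d : ℕ} {j : Fin (N + 1)} (hj : j ≠ 0) :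
    X 0 ^ (d - 1) * X j + nxP N d j ∈ chJ N d := by
  classical
  refine ⟨Pi.single j 1, ?_, ?_⟩
  · rw [Finset.sum_eq_single j]
    · rw [Pi.single_eq_same, one_mul, chP, if_neg hj]
    · intro i _ hi
      rw [Pi.single_eq_of_ne hi, zero_mul]
    · simp
  · rw [Pi.single_eq_of_ne hj.symm]
    exact Ideal.zero_mem _

theorem chJ_h0 {N d : ℕ} {i : Fin (N + 1)} (hi : i ≠ 0) : X i * nxP N d 0 ∈ chJ N d := by
  classical
  refine ⟨Pi.single 0 (X i), ?_, ?_⟩
  · rw [Finset.sum_eq_single 0]
    · rw [Pi.single_eq_same, chP, if_pos rfl]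
      simp
    · intro j _ hj
      rw [Pi.single_eq_of_ne hj, zero_mul]
    · simp
  · rw [Pi.single_eq_same]
    exact Ideal.subset_span ⟨i, hi, rfl⟩

theorem chJ_A {N d : ℕ} (hd : 2 ≤ d) : ∀ (k : ℕ) (j : Fin (N + 1)), j ≠ 0 → j.val + k = N →
    ∃ A, X 0 ^ A * X j ∈ chJ N d := by
  intro k
  induction k with
  | zero =>
    intro j hj hjk
    refine ⟨d - 1, ?_⟩
    have h1 := chJ_h (d := d) hj
    rw [nxP, dif_neg (by omega), add_zero] at h1
    exact h1
  | succ k ih =>
    intro j hj hjk
    have hlt : j.val + 1 < N + 1 := by omega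
    obtain ⟨A, hA⟩ := ih ⟨j.val + 1, hlt⟩ (by
      intro h
      have := congrArg Fin.val h
      simp at this) (by simp only; omega)
    refine ⟨A + (d - 1), ?_⟩
    have h1 := chJ_h (d := d) hj
    rw [nxP, dif_pos hlt] at h1
    have h2 := (chJ N d).mul_mem_left (X 0 ^ A) h1
    have h3 := (chJ N d).mul_mem_right (X ⟨j.val + 1, hlt⟩ ^ (d - 1)) hA
    have h4 := (chJ N d).sub_mem h2 h3
    convert h4 using 1
    have e : (X ⟨j.val + 1, hlt⟩ : MvPolynomial (Fin (N + 1)) ℂ) ^ d =
        X ⟨j.val + 1, hlt⟩ * X ⟨j.val + 1, hlt⟩ ^ (d - 1) := by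
      rw [← pow_succ']; congr 1; omega
    rw [e]
    ring

theorem chJ_B {N d : ℕ} (hN : 1 ≤ N) : ∀ (k : ℕ) (j : Fin (N + 1)), j.val = k + 1 →
    ∃ B, X j ^ B ∈ chJ N d := by
  intro k
  induction k with
  | zero =>
    intro j hj
    refine ⟨d + 1, ?_⟩
    have hj0 : j ≠ 0 := by
      rintro rfl
      simp at hj
    have h1 := chJ_h0 (d := d) hj0
    rw [nxP, dif_pos (by simp only [Fin.val_zero]; omega)] at h1
    have h2 : (⟨(0 : Fin (N + 1)).val + 1, by simp only [Fin.val_zero]; omega⟩ : Fin (N + 1))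
        = j := by
      apply Fin.ext
      simp [hj]
    rw [h2] at h1
    rwa [pow_succ']
  | succ k ih =>
    intro j hj
    have hjlt := j.2
    let i : Fin (N + 1) := ⟨k + 1, by omega⟩
    obtain ⟨B, hB⟩ := ih i rfl
    have hi0 : i ≠ 0 := by
      intro h
      have := congrArg Fin.val h
      simp [i] at this
    have h1 := chJ_h (d := d) hi0
    have hlt : i.val + 1 < N + 1 := by simp only [i]; omega
    rw [nxP, dif_pos hlt] at h1
    have h2 : (⟨i.val + 1, hlt⟩ : Fin (N + 1)) = j := by
      apply Fin.ext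
      simp [i, hj]
    rw [h2] at h1
    refine ⟨d * B, ?_⟩
    set b : MvPolynomial (Fin (N + 1)) ℂ := X 0 ^ (d - 1) * X i with hb
    have h3 : b ^ B ∈ chJ N d := by
      rw [hb, mul_pow]
      exact (chJ N d).mul_mem_left _ hB
    have h4 : (b + X j ^ d) ∣ ((X j ^ d) ^ B - (-b) ^ B) := by
      have := sub_dvd_pow_sub_pow ((X j : MvPolynomial (Fin (N + 1)) ℂ) ^ d) (-b) B
      rw [sub_neg_eq_add, add_comm (X j ^ d) b] at this
      exact this
    obtain ⟨q, hq⟩ := h4
    have h5 : (X j ^ d) ^ B = (b + X j ^ d) * q + (-b) ^ B := by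
      rw [← hq]; ring
    rw [pow_mul, h5]
    apply (chJ N d).add_mem ((chJ N d).mul_mem_right _ h1)
    rw [neg_pow]
    exact (chJ N d).mul_mem_left _ h3

/-- All monomials of large degree, other than the power of `X_0`, lie in the ideal. -/
theorem chJ_monomials {N d : ℕ} (hN : 1 ≤ N) (hd : 2 ≤ d) : ∃ e₀, ∀ e, e₀ ≤ e →
    ∀ m : Fin (N + 1) →₀ ℕ, m.degree = e → m ≠ Finsupp.single 0 e →
      monomial m (1 : ℂ) ∈ chJ N d := by
  classical
  have hA : ∀ j : Fin (N + 1), ∃ A, j ≠ 0 → X 0 ^ A * X j ∈ chJ N d := by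
    intro j
    by_cases hj : j = 0
    · exact ⟨0, fun h => absurd hj h⟩
    · obtain ⟨A, h⟩ := chJ_A hd (N - j.val) j hj (by have := j.2; omega)
      exact ⟨A, fun _ => h⟩
  have hB : ∀ j : Fin (N + 1), ∃ B, j ≠ 0 → X j ^ B ∈ chJ N d := by
    intro j
    by_cases hj : j = 0
    · exact ⟨0, fun h => absurd hj h⟩
    · have hj' : j.val ≠ 0 := fun h => hj (Fin.ext h)
      obtain ⟨B, h⟩ := chJ_B (d := d) hN (j.val - 1) j (by omega)
      exact ⟨B, fun _ => h⟩
  choose A hA using hA
  choose B hB using hB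
  set A' := ∑ j, A j with hA'
  set B' := ∑ j, B j with hB'
  have hAle : ∀ j, A j ≤ A' := fun j => Finset.single_le_sum (fun _ _ => Nat.zero_le _)
    (Finset.mem_univ j)
  have hBle : ∀ j, B j ≤ B' := fun j => Finset.single_le_sum (fun _ _ => Nat.zero_le _)
    (Finset.mem_univ j)
  refine ⟨A' + (N + 1) * B' + 1, ?_⟩
  intro e he m hm hne
  have hdvd : ∀ (p : Fin (N + 1) →₀ ℕ), p ≤ m → monomial p (1 : ℂ) ∈ chJ N d →
      monomial m (1 : ℂ) ∈ chJ N d := by
    intro p hp h
    have h1 : monomial m (1 : ℂ) = monomial (m - p) (1 : ℂ) * monomial p (1 : ℂ) := by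
      rw [monomial_mul, one_mul, tsub_add_cancel_of_le hp]
    rw [h1]
    exact (chJ N d).mul_mem_left _ h
  have hsum : ∑ i, m i = e := by
    rw [← hm, Finsupp.degree_eq_sum]
  by_cases h0 : A' ≤ m 0
  · -- some other variable occurs
    have : ∃ j, j ≠ 0 ∧ m j ≠ 0 := by
      by_contra hcon
      push Not at hcon
      apply hne
      ext i
      by_cases hi : i = 0
      · subst hi
        rw [Finsupp.single_eq_same, ← hsum, Finset.sum_eq_single 0]
        · intro j _ hj
          exact hcon j hj
        · simp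
      · rw [hcon i hi, Finsupp.single_eq_of_ne hi]
    obtain ⟨j, hj, hmj⟩ := this
    apply hdvd (Finsupp.single 0 (A j) + Finsupp.single j 1)
    · intro i
      rw [Finsupp.add_apply]
      by_cases hi : i = 0
      · subst hi
        rw [Finsupp.single_eq_same, Finsupp.single_eq_of_ne hj.symm, add_zero]
        exact (hAle j).trans h0
      · rw [Finsupp.single_eq_of_ne hi, zero_add]
        by_cases hij : i = j
        · subst hij
          rw [Finsupp.single_eq_same]
          omega
        · rw [Finsupp.single_eq_of_ne hij]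
          exact Nat.zero_le _
    · have := hA j hj
      rw [X_pow_eq_monomial, X, monomial_mul, one_mul] at this
      exact this
  · -- some other variable has a large exponent
    have : ∃ j, j ≠ 0 ∧ B' ≤ m j := by
      by_contra hcon
      push Not at hcon
      have h1 : ∑ i, m i ≤ ∑ i : Fin (N + 1), (if i = 0 then A' else B') := by
        apply Finset.sum_le_sum
        intro i _
        split_ifs with hi
        · subst hi; omega
        · exact (hcon i hi).le
      have h2 : ∑ i : Fin (N + 1), (if i = 0 then A' else B') ≤ A' + (N + 1) * B' := by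
        calc ∑ i : Fin (N + 1), (if i = 0 then A' else B')
            ≤ ∑ i : Fin (N + 1), ((if i = 0 then A' else 0) + B') := by
              apply Finset.sum_le_sum
              intro i _
              split_ifs <;> omega
          _ = A' + (N + 1) * B' := by
              rw [Finset.sum_add_distrib]
              simp
      omega
    obtain ⟨j, hj, hmj⟩ := this
    apply hdvd (Finsupp.single j (B j))
    · intro i
      by_cases hij : i = j
      · subst hij
        rw [Finsupp.single_eq_same]
        exact (hBle i).trans hmj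
      · rw [Finsupp.single_eq_of_ne hij]
        exact Nat.zero_le _
    · have := hB j hj
      rw [X_pow_eq_monomial] at this
      exact this

/-- the first basis vector -/
def e0 (N : ℕ) : Fin (N + 1) → ℂ := Pi.single 0 1

/-- the exponent of `X_0^e` -/
noncomputable def b0 (N e : ℕ) : Mono N e := ofF (Finsupp.single 0 e) (by simp)

theorem toF_b0 (N e : ℕ) : toF (b0 N e) = Finsupp.single 0 e := toF_ofF _ _

theorem b0_zero (N e : ℕ) : (b0 N e).1 0 = e := by
  have := congrArg (fun f => f 0) (toF_b0 N e)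
  simpa using this

theorem prod_e0 {N e : ℕ} (β : Mono N e) :
    ∏ i, e0 N i ^ (β.1 i) = if β = b0 N e then 1 else 0 := by
  classical
  split_ifs with h
  · subst h
    apply Finset.prod_eq_one
    intro i _
    by_cases hi : i = 0
    · subst hi; simp [e0]
    · have h1 : (b0 N e).1 i = 0 := by
        have := congrArg (fun f => f i) (toF_b0 N e)
        simpa [Finsupp.single_eq_of_ne hi] using this
      rw [h1, pow_zero]
  · by_contra hcon
    apply h
    apply toF_injective
    rw [toF_b0]
    have h1 : ∀ i, i ≠ 0 → β.1 i = 0 := by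
      intro i hi
      by_contra hb
      apply hcon
      apply Finset.prod_eq_zero (Finset.mem_univ i)
      rw [e0, Pi.single_eq_of_ne hi, zero_pow hb]
    ext i
    by_cases hi : i = 0
    · subst hi
      rw [Finsupp.single_eq_same, toF_apply]
      have h2 := sum_mono β
      rw [Finset.sum_eq_single 0 (fun j _ hj => h1 j hj) (by simp)] at h2
      exact h2
    · rw [Finsupp.single_eq_of_ne hi, toF_apply, h1 i hi]

theorem eval_e0 {N e : ℕ} {p : MvPolynomial (Fin (N + 1)) ℂ} (hp : p.IsHomogeneous e) :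
    eval (e0 N) p = coeff (Finsupp.single 0 e) p := by
  classical
  rw [eval_homogeneous hp]
  simp only [prod_e0, mul_ite, mul_one, mul_zero]
  rw [Finset.sum_ite_eq' Finset.univ (b0 N e)]
  rw [if_pos (Finset.mem_univ _), toF_b0]

/-- Homogeneous syzygies for the chain map. -/
theorem exists_syz {N d : ℕ} (hN : 1 ≤ N) (hd : 2 ≤ d) : ∃ e, d ≤ e ∧
    ∃ s : Mono N e → Fin (N + 1) → MvPolynomial (Fin (N + 1)) ℂ,
      (∀ m j, (s m j).IsHomogeneous (e - d)) ∧
      (∀ m, m ≠ b0 N e → ∑ j, s m j * chP N d 0 1 j = monomial (toF m) 1 ∧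
        eval (e0 N) (s m 0) = 0) ∧
      s (b0 N e) 0 = X 0 ^ (e - d) ∧ ∀ j, j ≠ 0 → s (b0 N e) j = 0 := by
  classical
  obtain ⟨e₀, he₀⟩ := chJ_monomials (d := d) hN hd
  set e := e₀ + d with he
  have key : ∀ m : Mono N e, ∃ s : Fin (N + 1) → MvPolynomial (Fin (N + 1)) ℂ,
      (∀ j, (s j).IsHomogeneous (e - d)) ∧
      (m ≠ b0 N e → ∑ j, s j * chP N d 0 1 j = monomial (toF m) 1 ∧
        eval (e0 N) (s 0) = 0) ∧ (m = b0 N e → s 0 = X 0 ^ (e - d) ∧ ∀ j, j ≠ 0 → s j = 0) := by
    intro m
    by_cases hm : m = b0 N e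
    · refine ⟨Pi.single 0 (X 0 ^ (e - d)), ?_, fun h => absurd hm h, fun _ => ⟨?_, ?_⟩⟩
      · intro j
        by_cases hj : j = 0
        · subst hj
          rw [Pi.single_eq_same]
          simpa using (isHomogeneous_X ℂ (0 : Fin (N + 1))).pow (e - d)
        · rw [Pi.single_eq_of_ne hj]
          exact isHomogeneous_zero _ _ _
      · rw [Pi.single_eq_same]
      · intro j hj
        rw [Pi.single_eq_of_ne hj]
    · have hne : toF m ≠ Finsupp.single 0 e := by
        intro h
        apply hm
        apply toF_injective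
        rw [h, toF_b0]
      obtain ⟨s, hs, hs0⟩ := he₀ e (by omega) (toF m) (degree_toF m) hne
      refine ⟨fun j => homogeneousComponent (e - d) (s j), ?_, fun _ => ⟨?_, ?_⟩,
        fun h => absurd h hm⟩
      · intro j
        exact homogeneousComponent_isHomogeneous _ _
      · -- take the degree `e` part
        have h1 : homogeneousComponent e (monomial (toF m) (1 : ℂ)) = monomial (toF m) 1 := by
          have h2 : (monomial (toF m) (1 : ℂ)).IsHomogeneous e :=
            isHomogeneous_monomial _ (degree_toF m)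
          exact homogeneousComponent_of_mem h2 |>.trans (if_pos rfl)
        rw [← h1, hs, map_sum]
        apply Finset.sum_congr rfl
        intro j _
        beta_reduce
        have h3 := chP_hom N d (by omega) 0 1 j
        have h4 : e = (e - d) + d := by omega
        conv_rhs => rw [h4]
        ext n
        rw [coeff_homogeneousComponent, coeff_mul, coeff_mul]
        split_ifs with hn
        · apply Finset.sum_congr rfl
          intro x hx
          rw [Finset.HasAntidiagonal.mem_antidiagonal] at hx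
          by_cases hx2 : x.2.degree = d
          · have hx1 : x.1.degree = e - d := by
              have := congrArg Finsupp.degree hx
              rw [map_add, hx2, hn] at this
              omega
            rw [coeff_homogeneousComponent, if_pos hx1]
          · rw [h3.coeff_eq_zero hx2, mul_zero, mul_zero]
        · apply Finset.sum_eq_zero
          intro x hx
          rw [Finset.HasAntidiagonal.mem_antidiagonal] at hx
          by_cases hx2 : x.2.degree = d
          · rw [coeff_homogeneousComponent, if_neg, zero_mul]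
            intro hx1
            apply hn
            rw [← hx, map_add, hx1, hx2]
          · rw [h3.coeff_eq_zero hx2, mul_zero]
      · rw [eval_e0 (homogeneousComponent_isHomogeneous _ _), coeff_homogeneousComponent]
        split_ifs with h
        · by_contra hcon
          rw [mem_ideal_span_X_image] at hs0
          obtain ⟨i, hi, hi'⟩ := hs0 _ (mem_support_iff.mpr hcon)
          exact hi' (Finsupp.single_eq_of_ne hi)
        · rfl
  choose s h1 h2 h3 using key
  exact ⟨e, by omega, s, h1, h2, (h3 _ rfl).1, (h3 _ rfl).2⟩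

end Pool.Agent.Lib.Pa3f63f
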